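import Pool.Agent.W493.MX.Basic

/-! Project MX, part A: Bombieri's bound (Stepanov's method). -/

set_option autoImplicit false
set_option linter.all false
set_option linter.overlappingInstances false

open Module FF Pool.Agent.H525R3.FFp Pool.Agent.W132.AG Polynomial

namespace Pool.Agent.W493.MX

section
variable {k K : Type} [Field k] [IsAlgClosed k] [Field K] [Algebra k K] [IsFF k K]

theorem ddeg_single_one (P : Place k K) (n : ℤ) : ddeg (Finsupp.single P n) = n := by
  rw [ddeg_single, deg_one]; simp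

/-- `n` is the pole order at `P0` of a function without other poles. -/
def PoleAt (P0 : Place k K) (n : ℕ) : Prop :=
  ∃ f : K, f ≠ 0 ∧ P0.ord f = -(n : ℤ) ∧ ∀ P, P ≠ P0 → 0 ≤ P.ord f

theorem mem_LL_single {P0 : Place k K} {n : ℤ} {f : K} :
    f ∈ LL (Finsupp.single P0 n) ↔ f = 0 ∨ (-n ≤ P0.ord f ∧ ∀ P, P ≠ P0 → 0 ≤ P.ord f) := by
  classical
  rw [mem_LL]
  constructor
  · rintro (h | h)
    · exact Or.inl h
    · right
      constructor
      · have := h P0; rwa [Finsupp.single_eq_same] at this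
      · intro P hP
        have := h P
        rwa [Finsupp.single_eq_of_ne hP, neg_zero] at this
  · rintro (h | h)
    · exact Or.inl h
    · right
      intro P
      by_cases hP : P = P0
      · subst hP; rw [Finsupp.single_eq_same]; exact h.1
      · rw [Finsupp.single_eq_of_ne hP, neg_zero]; exact h.2 P hP

theorem ell_neg (P0 : Place k K) {n : ℤ} (hn : n < 0) : ell (Finsupp.single P0 n) = 0 := by
  unfold ell
  rw [LL_eq_bot (by rw [ddeg_single_one]; exact hn)]
  simp

theorem ell_le_succ (P0 : Place k K) (n : ℕ) : ell (Finsupp.single P0 (n : ℤ)) ≤ n + 1 := by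
  have h1 : (Finsupp.single P0 (-1 : ℤ) : Place k K →₀ ℤ) ≤ Finsupp.single P0 (n : ℤ) := by
    apply Finsupp.single_mono; omega
  have := ell_le h1
  rw [ell_neg P0 (by norm_num : (-1 : ℤ) < 0), ddeg_single_one, ddeg_single_one] at this
  omega

open Classical in
theorem ell_le_count (P0 : Place k K) (n : ℕ) :
    ell (Finsupp.single P0 ((n : ℤ) - 1)) ≤ ((Finset.range n).filter (PoleAt P0)).card := by
  induction n with
  | zero =>
    rw [ell_neg P0 (by norm_num)]
    positivity
  | succ n ih =>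
    have hmono : (Finsupp.single P0 ((n : ℤ) - 1) : Place k K →₀ ℤ) ≤ Finsupp.single P0 (((n + 1 : ℕ) : ℤ) - 1) := by
      apply Finsupp.single_mono; push_cast; omega
    by_cases h : PoleAt P0 n
    · rw [Finset.range_add_one, Finset.filter_insert, if_pos h, Finset.card_insert_of_notMem (by simp)]
      have := ell_le hmono
      rw [ddeg_single_one, ddeg_single_one] at this
      push_cast at this ⊢
      omega
    · have h1 : LL (Finsupp.single P0 (((n + 1 : ℕ) : ℤ) - 1)) = LL (Finsupp.single P0 ((n : ℤ) - 1)) := by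
        apply le_antisymm
        · intro f hf
          rw [mem_LL_single] at hf ⊢
          rcases hf with hf | ⟨hf1, hf2⟩
          · exact Or.inl hf
          · by_cases hf0 : f = 0
            · exact Or.inl hf0
            right
            refine ⟨?_, hf2⟩
            by_contra h2
            apply h
            refine ⟨f, hf0, ?_, hf2⟩
            push_cast at hf1
            omega
        · exact LL_mono hmono
      rw [Finset.range_add_one, Finset.filter_insert, if_neg h]
      unfold ell at ih ⊢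
      rw [h1]
      exact ih

/-- A nonzero function without poles outside `P0` has nonpositive order at `P0`, and its zeros are
bounded by the pole order. -/
theorem zeros_le (P0 : Place k K) {g : K} (hg : g ≠ 0) (h : ∀ P, P ≠ P0 → 0 ≤ P.ord g)
    (S : Finset (Place k K)) (h0 : P0 ∉ S) (hS : ∀ P ∈ S, 1 ≤ P.ord g) : (S.card : ℤ) ≤ - P0.ord g := by
  classical
  have h1 := ddeg_divisor (k := k) g
  have h2 : (Finsupp.single P0 (P0.ord g) + ∑ P ∈ S, Finsupp.single P (1 : ℤ) : Place k K →₀ ℤ) ≤ divisor k g := by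
    intro P
    rw [divisor_apply, Finsupp.add_apply, Finsupp.finset_sum_apply]
    by_cases hP : P = P0
    · subst hP
      rw [Finsupp.single_eq_same, Finset.sum_eq_zero, add_zero]
      intro Q hQ
      rw [Finsupp.single_eq_of_ne]
      rintro rfl
      exact h0 hQ
    · rw [Finsupp.single_eq_of_ne hP, zero_add]
      by_cases hPS : P ∈ S
      · rw [Finset.sum_eq_single P]
        · rw [Finsupp.single_eq_same]; exact hS P hPS
        · intro Q _ hQP
          rw [Finsupp.single_eq_of_ne (Ne.symm hQP)]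
        · intro h; exact absurd hPS h
      · rw [Finset.sum_eq_zero]
        · exact h P hP
        · intro Q hQ
          rw [Finsupp.single_eq_of_ne]
          rintro rfl
          exact hPS hQ
  have h3 := ddeg_mono h2
  rw [h1, ddeg_add, ddeg_single_one] at h3
  have h4 : ddeg (∑ P ∈ S, Finsupp.single P (1 : ℤ) : Place k K →₀ ℤ) = S.card := by
    have : ∀ T : Finset (Place k K), ddeg (∑ P ∈ T, Finsupp.single P (1 : ℤ) : Place k K →₀ ℤ) = T.card := by
      intro T
      induction T using Finset.induction_on with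
      | empty => simp [ddeg_zero]
      | insert a s ha ih =>
        rw [Finset.sum_insert ha, ddeg_add, ih, ddeg_single_one, Finset.card_insert_of_notMem ha]
        push_cast; ring
    exact this S
  rw [h4] at h3
  omega

theorem pow_mem_LL {P0 : Place k K} {l M : ℕ} {a : K} (ha : a ∈ LL (Finsupp.single P0 (l : ℤ))) :
    a ^ M ∈ LL (Finsupp.single P0 ((l * M : ℕ) : ℤ)) := by
  rw [mem_LL_single] at ha ⊢
  rcases ha with rfl | ⟨h1, h2⟩
  · by_cases hM : M = 0
    · subst hM
      right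
      rw [pow_zero]
      refine ⟨by rw [P0.ord_one]; simp, fun P _ => by rw [P.ord_one]⟩
    · left; exact zero_pow hM
  · right
    refine ⟨?_, fun P hP => ?_⟩
    · rw [P0.ord_pow]
      push_cast
      nlinarith [Int.natCast_nonneg M]
    · rw [P.ord_pow]
      exact mul_nonneg (Int.natCast_nonneg M) (h2 P hP)

theorem mul_mem_LL {P0 : Place k K} {x y : ℤ} {a b : K} (ha : a ∈ LL (Finsupp.single P0 x))
    (hb : b ∈ LL (Finsupp.single P0 y)) : a * b ∈ LL (Finsupp.single P0 (x + y)) := by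
  by_cases ha0 : a = 0
  · rw [ha0, zero_mul]; exact Submodule.zero_mem _
  by_cases hb0 : b = 0
  · rw [hb0, mul_zero]; exact Submodule.zero_mem _
  rw [mem_LL_single] at ha hb ⊢
  rcases ha with h | ⟨h1, h2⟩
  · exact absurd h ha0
  rcases hb with h | ⟨h3, h4⟩
  · exact absurd h hb0
  right
  refine ⟨?_, fun P hP => ?_⟩
  · rw [P0.ord_mul ha0 hb0]; omega
  · rw [P.ord_mul ha0 hb0]
    have := h2 P hP
    have := h4 P hP
    omega

theorem exists_rel (P0 : Place k K) (p e : ℕ) [Fact p.Prime] [CharP k p] (l m : ℕ)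
    (J : Finset ℕ) (B : ℕ → K) (hB : ∀ j ∈ J, B j ∈ LL (Finsupp.single P0 (m : ℤ)))
    (hdim : l * p ^ e + m + 1 < finrank k (LL (Finsupp.single P0 (l : ℤ))) * J.card) :
    ∃ A : ℕ → K, (∀ j ∈ J, A j ∈ LL (Finsupp.single P0 (l : ℤ))) ∧ (∃ j ∈ J, A j ≠ 0) ∧
      ∑ j ∈ J, A j ^ p ^ e * B j = 0 := by
  classical
  haveI : CharP K p := charP_of_injective_algebraMap (algebraMap k K).injective p
  haveI : ExpChar K p := ExpChar.prime Fact.out
  have hp : p.Prime := Fact.out
  have hM : 0 < p ^ e := pow_pos hp.pos _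
  set n1 := finrank k (LL (Finsupp.single P0 (l : ℤ))) with hn1
  let a : Basis (Fin n1) k (LL (Finsupp.single P0 (l : ℤ))) := finBasis k _
  let W := LL (Finsupp.single P0 ((l * p ^ e + m : ℕ) : ℤ))
  let w : Fin n1 × J → W := fun x => ⟨(a x.1 : K) ^ p ^ e * B x.2, by
    have h1 := mul_mem_LL (pow_mem_LL (M := p ^ e) (a x.1).2) (hB x.2 x.2.2)
    rw [← Nat.cast_add] at h1
    exact h1⟩
  have hW : finrank k W ≤ l * p ^ e + m + 1 := by
    have := ell_le_succ P0 (l * p ^ e + m)
    unfold ell at this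
    exact_mod_cast this
  have hnli : ¬ LinearIndependent k w := by
    intro h
    have h1 := h.fintype_card_le_finrank
    rw [Fintype.card_prod, Fintype.card_fin, Fintype.card_coe] at h1
    omega
  rw [Fintype.not_linearIndependent_iff] at hnli
  obtain ⟨g, hg, ⟨i0, j0⟩, hij⟩ := hnli
  have hroot : ∀ x : k, ∃ z : k, z ^ p ^ e = x := fun x => IsAlgClosed.exists_pow_nat_eq x hM
  choose rt hrt using hroot
  let d : Fin n1 → ℕ → k := fun i j => if h : j ∈ J then g (i, ⟨j, h⟩) else 0
  let A : ℕ → K := fun j => ∑ i, ((rt (d i j) • a i : LL (Finsupp.single P0 (l : ℤ))) : K)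
  refine ⟨A, ?_, ?_, ?_⟩
  · intro j _
    exact Submodule.sum_mem _ fun i _ => (rt (d i j) • a i).2
  · refine ⟨j0, j0.2, ?_⟩
    intro h0
    have h1 : ∑ i, rt (d i j0) • a i = 0 := by
      apply Subtype.ext
      rw [Submodule.coe_sum]
      exact h0
    have h2 := Fintype.linearIndependent_iff.1 a.linearIndependent _ h1 i0
    have h3 := hrt (d i0 j0)
    rw [h2, zero_pow hM.ne'] at h3
    apply hij
    have h4 : d i0 j0 = g (i0, j0) := by
      simp only [d]
      rw [dif_pos j0.2]
    rw [← h4, ← h3]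
  · have h1 : ∑ x : Fin n1 × J, algebraMap k K (g x) * ((a x.1 : K) ^ p ^ e * B x.2) = 0 := by
      have h2 := congrArg (Subtype.val) hg
      rw [Submodule.coe_sum] at h2
      rw [show ((0 : W) : K) = 0 from rfl] at h2
      rw [← h2]
      apply Finset.sum_congr rfl
      intro x _
      rw [Submodule.coe_smul, Algebra.smul_def]
    rw [Fintype.sum_prod_type_right] at h1
    rw [← h1, ← Finset.sum_coe_sort]
    apply Finset.sum_congr rfl
    intro j _
    simp only [A]
    rw [sum_pow_char_pow, Finset.sum_mul]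
    apply Finset.sum_congr rfl
    intro i _
    have h4 : d i j = g (i, j) := by
      simp only [d]
      rw [dif_pos j.2]
    rw [Submodule.coe_smul, Algebra.smul_def, mul_pow, ← map_pow, hrt, h4, mul_assoc]

/-- a sum of terms with disjoint ranges of orders is not zero -/
theorem sum_ne_zero (P0 : Place k K) (J : Finset ℕ) (A b : ℕ → K) (l q : ℕ) (hlq : l < q)
    (hb : ∀ j ∈ J, b j ≠ 0 ∧ P0.ord (b j) = -(j : ℤ))
    (hA : ∀ j ∈ J, A j ∈ LL (Finsupp.single P0 (l : ℤ))) (hne : ∃ j ∈ J, A j ≠ 0) :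
    ∑ j ∈ J, A j * b j ^ q ≠ 0 := by
  classical
  -- orders of the terms
  have hord : ∀ j ∈ J, A j ≠ 0 → A j * b j ^ q ≠ 0 ∧ P0.ord (A j * b j ^ q) ≤ -((q * j : ℕ) : ℤ) ∧
      -((q * j : ℕ) : ℤ) - l ≤ P0.ord (A j * b j ^ q) := by
    intro j hj h0
    obtain ⟨hb0, hb1⟩ := hb j hj
    have hA1 := hA j hj
    rw [mem_LL_single] at hA1
    rcases hA1 with h | ⟨h1, h2⟩
    · exact absurd h h0
    have h3 := zeros_le P0 h0 h2 ∅ (by simp) (by simp)
    rw [Finset.card_empty] at h3
    refine ⟨mul_ne_zero h0 (pow_ne_zero _ hb0), ?_, ?_⟩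
    · rw [P0.ord_mul h0 (pow_ne_zero _ hb0), P0.ord_pow, hb1]
      push_cast at *
      have : (q : ℤ) * (-(j : ℤ)) = -((q : ℤ) * j) := by ring
      rw [this]; omega
    · rw [P0.ord_mul h0 (pow_ne_zero _ hb0), P0.ord_pow, hb1]
      push_cast at *
      have : (q : ℤ) * (-(j : ℤ)) = -((q : ℤ) * j) := by ring
      rw [this]; omega
  obtain ⟨js, hjs, hmax⟩ := Finset.exists_max_image (J.filter fun j => A j ≠ 0) id (by
    obtain ⟨j, hj, h⟩ := hne
    exact ⟨j, Finset.mem_filter.2 ⟨hj, h⟩⟩)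
  rw [Finset.mem_filter] at hjs
  obtain ⟨hjs1, hjs2⟩ := hjs
  -- the rest
  have hrest : ∀ T : Finset ℕ, T ⊆ J.erase js → (∑ j ∈ T, A j * b j ^ q = 0 ∨
      -((q * js : ℕ) : ℤ) < P0.ord (∑ j ∈ T, A j * b j ^ q)) := by
    intro T
    induction T using Finset.induction_on with
    | empty => intro _; left; simp
    | insert a s ha ih =>
      intro hT
      have ih' := ih fun x hx => hT (Finset.mem_insert_of_mem hx)
      have haJ := hT (Finset.mem_insert_self _ _)
      rw [Finset.mem_erase] at haJ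
      rw [Finset.sum_insert ha]
      by_cases h0 : A a = 0
      · rw [h0, zero_mul, zero_add]; exact ih'
      · obtain ⟨h1, h2, h3⟩ := hord a haJ.2 h0
        have h4 : a < js := lt_of_le_of_ne (hmax a (Finset.mem_filter.2 ⟨haJ.2, h0⟩)) haJ.1
        have h5 : -((q * js : ℕ) : ℤ) < P0.ord (A a * b a ^ q) := by
          have h6 : q * a + q ≤ q * js := by nlinarith
          have h7 : ((q * a : ℕ) : ℤ) + q ≤ ((q * js : ℕ) : ℤ) := by exact_mod_cast h6
          omega
        rcases ih' with h6 | h6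
        · rw [h6, add_zero]; exact Or.inr h5
        · by_cases h7 : ∑ j ∈ s, A j * b j ^ q = 0
          · rw [h7, add_zero]; exact Or.inr h5
          · by_cases h8 : A a * b a ^ q + ∑ j ∈ s, A j * b j ^ q = 0
            · exact Or.inl h8
            · right
              have h9 := P0.ord_add h1 h7 h8
              exact lt_of_lt_of_le (lt_min h5 h6) h9
  intro hsum
  rw [← Finset.add_sum_erase J _ hjs1] at hsum
  obtain ⟨h1, h2, h3⟩ := hord js hjs1 hjs2
  rcases hrest _ (Finset.Subset.refl _) with h4 | h4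
  · rw [h4, add_zero] at hsum
    exact h1 hsum
  · have h5 : ∑ j ∈ J.erase js, A j * b j ^ q = -(A js * b js ^ q) := by
      rw [eq_neg_iff_add_eq_zero, add_comm]; exact hsum
    rw [h5, P0.ord_neg] at h4
    omega

end

section
variable {k K : Type} [Field k] [IsAlgClosed k] [Field K] [Algebra k K] [IsFF k K]

/-- An automorphism preserving `P0` preserves the Riemann-Roch spaces of multiples of `P0`. -/
theorem psi_mem_LL {P0 : Place k K} {ψ : K ≃+* K}
    (hψ : ∀ c : k, ∃ c' : k, ψ (algebraMap k K c) = algebraMap k K c')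
    (h0 : ∀ f, P0.ord (ψ f) = P0.ord f) {n : ℤ} {f : K} (hf : f ∈ LL (Finsupp.single P0 n)) :
    ψ f ∈ LL (Finsupp.single P0 n) := by
  rw [mem_LL_single] at hf ⊢
  rcases hf with rfl | ⟨h1, h2⟩
  · left; rw [map_zero]
  · right
    refine ⟨by rw [h0]; exact h1, fun P hP => ?_⟩
    by_cases h : compR P ψ hψ = P0
    · exfalso
      apply hP
      apply reg_of_ord_eq
      intro g
      obtain ⟨g', rfl⟩ := ψ.surjective g
      rw [h0, ← h, compR_ord]
    · exact h2 _ h

theorem bombieri (p e1 e2 : ℕ) [Fact p.Prime] [CharP k p] (γ : ℕ)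
    (hγ : ∀ D : Place k K →₀ ℤ, ddeg D - γ ≤ ell D) (h12 : e1 ≤ e2)
    (hbig : (1 + γ) * (γ + 2) + 2 * γ + 4 ≤ p ^ e2) (ψ : K ≃+* K)
    (hψ : ∀ c : k, ψ (algebraMap k K c) = algebraMap k K (c ^ p ^ (e1 + e2)))
    (S : Finset (Place k K)) (hS : ∀ P ∈ S, FrobAt (p ^ (e1 + e2)) ψ P) :
    S.card ≤ p ^ (e1 + e2) + (2 * γ + 3) * p ^ e2 := by
  classical
  haveI : CharP K p := charP_of_injective_algebraMap (algebraMap k K).injective p
  haveI : ExpChar K p := ExpChar.prime Fact.out
  have hp : p.Prime := Fact.out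
  rcases S.eq_empty_or_nonempty with h | ⟨P0, hP0⟩
  · rw [h]; simp
  have hψ' : ∀ c : k, ∃ c' : k, ψ (algebraMap k K c) = algebraMap k K c' := fun c => ⟨_, hψ c⟩
  have hord0 : ∀ f, P0.ord (ψ f) = P0.ord f := (hS P0 hP0).ord hψ'
  set M := p ^ e1 with hM
  set q := p ^ e2 with hq
  have hMq : p ^ (e1 + e2) = M * q := pow_add _ _ _
  have hM1 : 1 ≤ M := Nat.one_le_pow _ _ hp.pos
  have hMle : M ≤ q := Nat.pow_le_pow_right hp.pos h12
  set m := M + 2 * γ + 2 with hm
  set l := q - 1 with hl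
  have hq1 : 1 ≤ q := Nat.one_le_pow _ _ hp.pos
  have hlq : l + 1 = q := by omega
  -- pole numbers
  let J := (Finset.range (m + 1)).filter (PoleAt P0)
  have hJcard : m ≤ J.card + γ := by
    have h1 := ell_le_count P0 (m + 1)
    have h2 := hγ (Finsupp.single P0 (((m + 1 : ℕ) : ℤ) - 1))
    rw [ddeg_single_one] at h2
    have h3 : (((m + 1 : ℕ) : ℤ) - 1) - γ ≤ J.card := h2.trans h1
    push_cast at h3
    omega
  have hL : l ≤ finrank k (LL (Finsupp.single P0 (l : ℤ))) + γ := by
    have h2 := hγ (Finsupp.single P0 (l : ℤ))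
    rw [ddeg_single_one] at h2
    unfold ell at h2
    omega
  have hb : ∀ j : ℕ, ∃ b : K, j ∈ J → (b ≠ 0 ∧ P0.ord b = -(j : ℤ) ∧ ∀ P, P ≠ P0 → 0 ≤ P.ord b) := by
    intro j
    by_cases hj : j ∈ J
    · obtain ⟨f, hf⟩ := (Finset.mem_filter.1 hj).2
      exact ⟨f, fun _ => hf⟩
    · exact ⟨0, fun h => absurd h hj⟩
  choose b hb using hb
  have hjm : ∀ j ∈ J, j ≤ m := by
    intro j hj
    have := (Finset.mem_filter.1 hj).1
    rw [Finset.mem_range] at this
    omega
  have hbL : ∀ j ∈ J, b j ∈ LL (Finsupp.single P0 (m : ℤ)) := by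
    intro j hj
    obtain ⟨h1, h2, h3⟩ := hb j hj
    rw [mem_LL_single]
    right
    refine ⟨?_, h3⟩
    rw [h2]
    have := hjm j hj
    omega
  have hdim : l * p ^ e1 + m + 1 < finrank k (LL (Finsupp.single P0 (l : ℤ))) * J.card := by
    rw [← hM]
    set n1 := finrank k (LL (Finsupp.single P0 (l : ℤ)))
    have h1 : q ≤ n1 + γ + 1 := by omega
    have h2 : M + γ + 2 ≤ J.card := by omega
    have h3 : n1 * (M + γ + 2) ≤ n1 * J.card := Nat.mul_le_mul_left _ h2
    have h4 : q * (M + γ + 2) ≤ (n1 + γ + 1) * (M + γ + 2) := Nat.mul_le_mul_right _ h1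
    have h5 : (n1 + γ + 1) * (M + γ + 2) = n1 * (M + γ + 2) + (γ + 1) * M + (1 + γ) * (γ + 2) := by ring
    have h6 : q * (M + γ + 2) = q * M + (γ + 1) * q + q := by ring
    have h7 : (γ + 1) * M ≤ (γ + 1) * q := Nat.mul_le_mul_left _ hMle
    have h8 : l * M + M = q * M := by rw [← hlq]; ring
    omega
  obtain ⟨A, hA, hAne, hrel⟩ := exists_rel P0 p e1 l m J (fun j => ψ (b j))
    (fun j hj => psi_mem_LL hψ' hord0 (hbL j hj)) hdim
  let g := ∑ j ∈ J, A j * b j ^ q
  have hg0 : g ≠ 0 := sum_ne_zero P0 J A b l q (by omega) (fun j hj => ⟨(hb j hj).1, (hb j hj).2.1⟩) hA hAne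
  have hgL : g ∈ LL (Finsupp.single P0 ((l : ℤ) + ((m * q : ℕ) : ℤ))) := by
    apply Submodule.sum_mem
    intro j hj
    exact mul_mem_LL (hA j hj) (pow_mem_LL (hbL j hj))
  rw [mem_LL_single] at hgL
  rcases hgL with h | ⟨hg1, hg2⟩
  · exact absurd h hg0
  have hz := zeros_le P0 hg0 hg2 (S.erase P0) (Finset.notMem_erase _ _) (by
    intro P hP
    rw [Finset.mem_erase] at hP
    obtain ⟨hPne, hPS⟩ := hP
    have hregA : ∀ j ∈ J, P.Reg (A j) := by
      intro j hj
      have := hA j hj
      rw [mem_LL_single] at this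
      rcases this with h | ⟨_, h⟩
      · exact Or.inl h
      · exact Or.inr (h P hPne)
    have hregb : ∀ j ∈ J, P.Reg (b j) := fun j hj => Or.inr ((hb j hj).2.2 P hPne)
    have hgreg : P.Reg g := (reg_sum P J _ fun j hj => P.reg_mul (hregA j hj) (reg_pow' P (hregb j hj) _)).1
    have hf := hS P hPS
    have hredg : P.red g ^ M = 0 := by
      rw [← P.red_pow hgreg]
      have h1 : g ^ M = ∑ j ∈ J, A j ^ M * b j ^ (M * q) := by
        simp only [g]
        rw [hM, sum_pow_char_pow]
        apply Finset.sum_congr rfl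
        intro j _
        rw [mul_pow, ← pow_mul, mul_comm q]
      rw [h1]
      rw [(reg_sum P J _ fun j hj => P.reg_mul (reg_pow' P (hregA j hj) _) (reg_pow' P (hregb j hj) _)).2]
      have h2 : P.red (∑ j ∈ J, A j ^ M * ψ (b j)) = 0 := by
        have : ∑ j ∈ J, A j ^ M * ψ (b j) = 0 := hrel
        rw [this, P.red_zero]
      rw [(reg_sum P J _ fun j hj => P.reg_mul (reg_pow' P (hregA j hj) _) (hf _ (hregb j hj)).1).2] at h2
      rw [← h2]
      apply Finset.sum_congr rfl
      intro j hj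
      rw [P.red_mul (reg_pow' P (hregA j hj) _) (reg_pow' P (hregb j hj) _),
        P.red_mul (reg_pow' P (hregA j hj) _) (hf _ (hregb j hj)).1, (hf _ (hregb j hj)).2,
        P.red_pow (hregb j hj), hMq]
    have h3 : P.red g = 0 := pow_eq_zero_iff (by omega) |>.1 hredg
    rw [P.red_eq_zero_iff hgreg] at h3
    rcases h3 with h3 | h3
    · exact absurd h3 hg0
    · omega)
  rw [Finset.card_erase_of_mem hP0] at hz
  have hSpos : 0 < S.card := Finset.card_pos.2 ⟨P0, hP0⟩
  have h4 : ((S.card - 1 : ℕ) : ℤ) ≤ ((l + m * q : ℕ) : ℤ) := by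
    refine hz.trans ?_
    push_cast at hg1 ⊢
    omega
  have h5 : S.card - 1 ≤ l + m * q := by exact_mod_cast h4
  have h6 : m * q = M * q + (2 * γ + 2) * q := by rw [hm]; ring
  rw [hMq]
  have h7 : (2 * γ + 3) * q = (2 * γ + 2) * q + q := by ring
  omega

end

theorem s_A : S_A := by
  intro k K _ _ _ _ _ p _ _
  obtain ⟨γ0, -, hγ0, -⟩ := riemann k K
  have hp : p.Prime := Fact.out
  refine ⟨2 * γ0.toNat + 3, 2 * ((1 + γ0.toNat) * (γ0.toNat + 2) + 2 * γ0.toNat + 4), ?_⟩
  intro N hN ψ hψ S hS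
  have hN2 : N = N / 2 + (N - N / 2) := by omega
  have hγ : ∀ D : Place k K →₀ ℤ, ddeg D - (γ0.toNat : ℤ) ≤ ell D := by
    intro D
    have := hγ0 D
    have h2 := Int.self_le_toNat γ0
    omega
  have hbig : (1 + γ0.toNat) * (γ0.toNat + 2) + 2 * γ0.toNat + 4 ≤ p ^ (N - N / 2) := by
    have h1 : N - N / 2 < p ^ (N - N / 2) := Nat.lt_pow_self hp.one_lt
    omega
  have key := bombieri p (N / 2) (N - N / 2) γ0.toNat hγ (by omega) hbig ψ
    (by rw [← hN2]; exact hψ) S (by rw [← hN2]; exact hS)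
  rwa [← hN2] at key

end Pool.Agent.W493.MX
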