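import Pool.Agent.W493.MX.Basic

/-! Project MX (MP_fa5db2_co, S12529), part B: places with given Frobenius. -/

set_option autoImplicit false
set_option linter.all false
set_option linter.overlappingInstances false

open Module FF Pool.Agent.H525R3.FFp Pool.Agent.W132.AG Polynomial

namespace Pool.Agent.W493.MX

section
variable {k : Type} [Field k] [IsAlgClosed k]

instance mxb_isFF : IsFF k (RatFunc k) := isFF_base RatFunc.transcendental_X RatFunc.adjoin_X

/-- uniqueness of the zero of `X - c` -/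
theorem mxb_unique (c : k) {w w' : Place k (RatFunc k)}
    (hw : 0 < w.ord ((RatFunc.X : RatFunc k) - algebraMap k (RatFunc k) c))
    (hw' : 0 < w'.ord ((RatFunc.X : RatFunc k) - algebraMap k (RatFunc k) c)) : w = w' := by
  classical
  by_contra hne
  have h1 := zero_gen (k := k) RatFunc.adjoin_X c hw
  have h2 := zero_gen (k := k) RatFunc.adjoin_X c hw'
  set y : RatFunc k := ((RatFunc.X : RatFunc k) - algebraMap k (RatFunc k) c)⁻¹ with hy
  have hd : ddeg (polar (k := k) y) = 1 := by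
    rw [hy]
    exact ddeg_polar_gen (gen_inv (gen_sub RatFunc.adjoin_X c))
  have hle : Finsupp.single w (1 : ℤ) + Finsupp.single w' (1 : ℤ) ≤ polar (k := k) y := by
    intro v
    rw [Finsupp.add_apply, polar_apply, hy, v.ord_inv, neg_neg, Finsupp.single_apply,
      Finsupp.single_apply]
    by_cases hv : w = v
    · subst hv
      rw [if_pos rfl, if_neg (fun h => hne h.symm), h1.1]
      norm_num
    · rw [if_neg hv]
      by_cases hv' : w' = v
      · subst hv'
        rw [if_pos rfl, h2.1]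
        norm_num
      · rw [if_neg hv']; simp
  have := ddeg_mono hle
  rw [ddeg_add, ddeg_single, ddeg_single, hd, h1.2, h2.2] at this
  norm_num at this

theorem mxb_cE (E : Type) [Field E] [Algebra (RatFunc k) E] (c : k) :
    cE E (X - C c : k[X]) = algebraMap (RatFunc k) E (RatFunc.X - algebraMap k (RatFunc k) c) := by
  unfold cE
  rw [map_sub (algebraMap k[X] (RatFunc k)), RatFunc.algebraMap_X, RatFunc.algebraMap_C,
    RatFunc.algebraMap_eq_C]

/-- many solutions of `x ^ p ^ m = x` -/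
theorem mxb_roots (p m : ℕ) [Fact p.Prime] [CharP k p] (hm : m ≠ 0) :
    ∃ A : Finset k, A.card = p ^ m ∧ ∀ c ∈ A, c ^ p ^ m = c := by
  classical
  letI : Algebra (ZMod p) k := ZMod.algebra k p
  have hcard : Nat.card (GaloisField p m) = p ^ m := GaloisField.card p m hm
  haveI : Finite (GaloisField p m) := Nat.finite_of_card_ne_zero
    (by rw [hcard]; exact pow_ne_zero _ (Fact.out : p.Prime).ne_zero)
  haveI : Fintype (GaloisField p m) := Fintype.ofFinite _
  have hfc : Fintype.card (GaloisField p m) = p ^ m := by rw [← Nat.card_eq_fintype_card, hcard]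
  let ι : GaloisField p m →+* k := (IsAlgClosed.lift : GaloisField p m →ₐ[ZMod p] k).toRingHom
  refine ⟨Finset.univ.image ι, ?_, ?_⟩
  · rw [Finset.card_image_of_injective _ ι.injective, Finset.card_univ, hfc]
  · intro c hc
    rw [Finset.mem_image] at hc
    obtain ⟨y, _, rfl⟩ := hc
    rw [← map_pow, ← hfc, FiniteField.pow_card]

end

theorem s_B (hA : S_A) (hG1 : S_G1) (hG2 : S_G2) : S_B := by
  intro k E _ _ _ _ _ _ _ _ _ p e _ _ he Φ hΦ hΦX bad hbad
  classical
  haveI : Fintype (E ≃ₐ[RatFunc k] E) := Fintype.ofFinite _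
  set G := E ≃ₐ[RatFunc k] E with hGdef
  obtain ⟨C0, N0, hA'⟩ := hA k E p
  set g := Fintype.card G with hg
  have hgpos : 0 < g := Fintype.card_pos
  have hgr : finrank (RatFunc k) E = g := by
    rw [hg, ← Nat.card_eq_fintype_card, hGdef, IsGalois.card_aut_eq_finrank]
  refine ⟨N0 + 2 * (g * C0 + g * bad.card + 1), fun n hn σ => ?_⟩
  set m := e * n with hmdef
  have hnm : n ≤ m := Nat.le_mul_of_pos_left n he
  have hm0 : m ≠ 0 := by omega
  have hQ : (p ^ e) ^ n = p ^ m := by rw [← pow_mul]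
  rw [hQ]
  set Q := p ^ m with hQdef
  have hp : p.Prime := Fact.out
  -- the powers of Φ
  have hΦn : ∀ (j : ℕ) (c : k), (Φ ^ j : E ≃+* E) (algebraMap k E c) =
      algebraMap k E (c ^ (p ^ e) ^ j) := by
    intro j
    induction j with
    | zero => intro c; simp
    | succ j ih =>
      intro c
      rw [pow_succ, RingAut.mul_apply, hΦ, ih, ← pow_mul, ← pow_succ']
  have hΦnX : ∀ j : ℕ, (Φ ^ j : E ≃+* E) (cE E (X : k[X])) = cE E (X : k[X]) := by
    intro j
    induction j with
    | zero => simp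
    | succ j ih => rw [pow_succ, RingAut.mul_apply, hΦX, ih]
  set Ψ : E ≃+* E := Φ ^ n with hΨ
  have hΨc : ∀ c : k, Ψ (algebraMap k E c) = algebraMap k E (c ^ Q) := by
    intro c; rw [hΨ, hΦn, hQ]
  have hΨX : Ψ (cE E (X : k[X])) = cE E (X : k[X]) := hΦnX n
  have hcEsub : ∀ c : k, cE E (X - C c : k[X]) = cE E (X : k[X]) - algebraMap k E c := by
    intro c
    have h1 : cE E (X : k[X]) = algebraMap (RatFunc k) E RatFunc.X := by
      unfold cE; rw [RatFunc.algebraMap_X]
    rw [mxb_cE, map_sub, h1, ← IsScalarTower.algebraMap_apply]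
  -- zeros
  have hzero : ∀ c : k, ∃ w0 : Place k (RatFunc k), ∀ P : Place k E,
      0 < P.ord (cE E (X - C c : k[X])) ↔ und (RatFunc k) P = w0 := by
    intro c
    obtain ⟨w0, hw0⟩ := exists_zero_gen (k := k) (x := (RatFunc.X : RatFunc k)) RatFunc.adjoin_X c
    refine ⟨w0, fun P => ?_⟩
    have hov := over_und (F := RatFunc k) P
    have hpos : (0 : ℤ) < eI (RatFunc k) P := by exact_mod_cast hov.1
    rw [mxb_cE, hov.2]
    constructor
    · intro h
      exact mxb_unique c ((mul_pos_iff_of_pos_left hpos).1 h) hw0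
    · intro h
      rw [h]
      exact mul_pos hpos hw0
  choose w0 hw0 using hzero
  -- the set of good constants
  obtain ⟨A, hAc, hAr⟩ := mxb_roots (k := k) p m hm0
  set A' := A \ bad with hA'def
  have hA'c : Q ≤ A'.card + bad.card := by
    have := Finset.card_le_card_sdiff_add_card (s := A) (t := bad)
    rw [hQdef, ← hAc]; exact this
  -- the fibres
  set Fib : k → Finset (Place k E) := fun c => fibS E (w0 c) with hFib
  have hmemFib : ∀ c P, P ∈ Fib c ↔ 0 < P.ord (cE E (X - C c : k[X])) := by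
    intro c P
    rw [hw0 c P, hFib]; exact mem_fibS
  have hne : ∀ c ∈ A', (Fib c).Nonempty := by
    intro c _
    by_contra hemp
    rw [Finset.not_nonempty_iff_eq_empty] at hemp
    have := sum_fibS (k := k) (E := E) (w0 c)
    rw [show fibS E (w0 c) = ∅ from hemp, Finset.sum_empty] at this
    have h1 : 0 < finrank (RatFunc k) E := by rw [hgr]; exact hgpos
    have h2 : 0 < (w0 c).deg := deg_pos _
    have := Nat.mul_pos h1 h2
    omega
  have hFibc : ∀ c ∈ A', (Fib c).card = g := by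
    intro c hc
    obtain ⟨P, hP⟩ := hne c hc
    have hPc := (hmemFib c P).1 hP
    have hcb : c ∉ bad := (Finset.mem_sdiff.1 hc).2
    obtain ⟨h1, h2⟩ := hG2 k (RatFunc k) E P
    have hone : Nat.card {σ : E ≃ₐ[RatFunc k] E // Stb P σ} = 1 := by
      rw [Nat.card_eq_one_iff_unique]
      refine ⟨⟨fun a b => ?_⟩, ⟨⟨1, Stb.one P⟩⟩⟩
      apply Subtype.ext
      rw [hbad P c hcb hPc a.1 a.2, hbad P c hcb hPc b.1 b.2]
    rw [hone] at h1
    rw [← h1, mul_one, hgr] at h2
    rw [← h2]
    congr 1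
    rw [hFib, (hw0 c P).1 hPc]
  have hdisj : ∀ c ∈ A', ∀ c' ∈ A', c ≠ c' → Disjoint (Fib c) (Fib c') := by
    intro c _ c' _ hcc
    rw [Finset.disjoint_left]
    intro P hP hP'
    rw [hmemFib] at hP hP'
    have h1 := P.ord_const (c := c - c') (sub_ne_zero.2 hcc)
    have h3 : algebraMap k E (c - c') = cE E (X - C c' : k[X]) - cE E (X - C c : k[X]) := by
      rw [hcEsub, hcEsub, map_sub]; ring
    have hn0 : cE E (X - C c : k[X]) ≠ 0 := by
      intro h; rw [h, P.ord_zero] at hP; exact lt_irrefl _ hP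
    have hn1 : cE E (X - C c' : k[X]) ≠ 0 := by
      intro h; rw [h, P.ord_zero] at hP'; exact lt_irrefl _ hP'
    have h4 : cE E (X - C c' : k[X]) - cE E (X - C c : k[X]) ≠ 0 := by
      rw [← h3]
      exact (map_ne_zero_iff _ (algebraMap k E).injective).2 (sub_ne_zero.2 hcc)
    have h5 := P.ord_sub hn1 hn0 h4
    rw [← h3, h1] at h5
    rcases min_le_iff.1 h5 with h6 | h6 <;> omega
  set Ω := A'.biUnion Fib with hΩ
  have hΩc : Ω.card = A'.card * g := by
    rw [hΩ, Finset.card_biUnion hdisj, Finset.sum_congr rfl hFibc, Finset.sum_const, smul_eq_mul]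
  -- the sets S_σ
  set S : G → Finset (Place k E) := fun τ => Ω.filter (fun P => FrobAt Q (Ψ * τ.toRingEquiv) P) with hS
  have hcover : Ω ⊆ Finset.univ.biUnion S := by
    intro P hP
    rw [hΩ, Finset.mem_biUnion] at hP
    obtain ⟨c, hc, hPc⟩ := hP
    have hPc' := (hmemFib c P).1 hPc
    have hcA := hAr c (Finset.mem_sdiff.1 hc).1
    have hψ : ∀ c : k, ∃ c' : k, Ψ (algebraMap k E c) = algebraMap k E c' := fun c => ⟨_, hΨc c⟩
    set P' := compR P Ψ hψ with hP'
    have h1 : 0 < P'.ord (cE E (X - C c : k[X])) := by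
      rw [hP', compR_ord, hcEsub, map_sub, hΨX, hΨc, hcA, ← hcEsub]
      exact hPc'
    have h2 : und (RatFunc k) P = und (RatFunc k) P' := by
      rw [(hw0 c P).1 hPc', (hw0 c P').1 h1]
    obtain ⟨τ, hτ⟩ := hG1 k (RatFunc k) E P P' h2
    have h3 : ∀ z, P.ord (Ψ z) = P.ord (τ z) := hτ
    rw [Finset.mem_biUnion]
    refine ⟨τ⁻¹, Finset.mem_univ _, ?_⟩
    rw [hS]
    simp only
    rw [Finset.mem_filter]
    refine ⟨by rw [hΩ, Finset.mem_biUnion]; exact ⟨c, hc, hPc⟩, ?_⟩
    apply frobAt_of_ord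
    · intro c
      rw [RingAut.mul_apply]
      have : (τ⁻¹ : G).toRingEquiv (algebraMap k E c) = algebraMap k E c := aut_const _ c
      rw [this, hΨc]
    · intro f
      rw [RingAut.mul_apply, h3]
      have : τ ((τ⁻¹ : G).toRingEquiv f) = f := by
        change τ ((τ⁻¹ : G) f) = f
        rw [← AlgEquiv.mul_apply, mul_inv_cancel, AlgEquiv.one_apply]
      rw [this]
  have hbound : ∀ τ : G, (S τ).card ≤ Q + C0 * p ^ (m - m / 2) := by
    intro τ
    refine hA' m (by omega) (Ψ * τ.toRingEquiv) ?_ (S τ) ?_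
    · intro c
      rw [RingAut.mul_apply]
      have : τ.toRingEquiv (algebraMap k E c) = algebraMap k E c := aut_const _ c
      rw [this, hΨc]
    · intro P hP
      exact (Finset.mem_filter.1 hP).2
  -- counting
  have hSne : (S σ).Nonempty := by
    by_contra hemp
    rw [Finset.not_nonempty_iff_eq_empty] at hemp
    have h1 : Ω.card ≤ ∑ τ : G, (S τ).card :=
      (Finset.card_le_card hcover).trans Finset.card_biUnion_le
    have h2 : ∑ τ : G, (S τ).card ≤ (g - 1) * (Q + C0 * p ^ (m - m / 2)) := by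
      rw [← Finset.add_sum_erase Finset.univ (fun τ => (S τ).card) (Finset.mem_univ σ)]
      simp only [hemp, Finset.card_empty, zero_add]
      refine (Finset.sum_le_card_nsmul _ _ _ fun τ _ => hbound τ).trans ?_
      rw [Finset.card_erase_of_mem (Finset.mem_univ σ), Finset.card_univ, smul_eq_mul]
    rw [hΩc] at h1
    have h3 : A'.card * g ≤ (g - 1) * (Q + C0 * p ^ (m - m / 2)) := h1.trans h2
    -- Q = p^(m/2) * p^(m - m/2)
    have h4 : Q = p ^ (m / 2) * p ^ (m - m / 2) := by
      rw [hQdef, ← pow_add]; congr 1; omega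
    have h5 : g * C0 + g * bad.card + 1 ≤ p ^ (m / 2) := by
      have h6 : m / 2 < p ^ (m / 2) := Nat.lt_pow_self hp.one_lt
      have h7 : g * C0 + g * bad.card + 1 ≤ m / 2 := by omega
      omega
    have h8 : 1 ≤ p ^ (m - m / 2) := Nat.one_le_pow _ _ hp.pos
    obtain ⟨g', hg'⟩ : ∃ g', g = g' + 1 := ⟨g - 1, by omega⟩
    rw [hg'] at h3 h5
    rw [Nat.add_sub_cancel] at h3
    set R := p ^ (m - m / 2) with hR
    have h9 : (g' + 1) * Q ≤ (g' + 1) * A'.card + (g' + 1) * bad.card := by
      rw [← mul_add]; exact Nat.mul_le_mul_left _ hA'c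
    have h10 : (g' + 1) * Q ≤ g' * (Q + C0 * R) + (g' + 1) * bad.card := by nlinarith
    have h11 : Q ≤ g' * (C0 * R) + (g' + 1) * bad.card := by nlinarith
    have h12 : ((g' + 1) * C0 + (g' + 1) * bad.card + 1) * R ≤ Q := by
      rw [h4]; exact Nat.mul_le_mul_right _ h5
    have h13 : (g' + 1) * bad.card ≤ (g' + 1) * bad.card * R := Nat.le_mul_of_pos_right _ h8
    nlinarith [Nat.zero_le (C0 * R)]
  obtain ⟨P, hP⟩ := hSne
  rw [hS] at hP
  simp only at hP
  rw [Finset.mem_filter] at hP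
  obtain ⟨hPΩ, hPF⟩ := hP
  rw [hΩ, Finset.mem_biUnion] at hPΩ
  obtain ⟨c, hc, hPc⟩ := hPΩ
  refine ⟨P, c, (Finset.mem_sdiff.1 hc).2, hAr c (Finset.mem_sdiff.1 hc).1, (hmemFib c P).1 hPc, hPF⟩

end Pool.Agent.W493.MX
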