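import Pool.Agent.W493.MX.Basic

/-! Project MX, module C: the structure of the stabiliser of a place with a degenerate reduction. -/

set_option autoImplicit false
set_option linter.all false
set_option linter.overlappingInstances false

open Module FF Pool.Agent.H525R3.FFp Pool.Agent.W132.AG Polynomial

namespace Pool.Agent.W493.MX

namespace MC

section
variable {k F E F1 : Type} [Field k] [IsAlgClosed k] [Field F] [Field E] [Field F1] [Finite F1]
    [Algebra k F] [Algebra k E] [Algebra F E] [IsScalarTower k F E] [IsFF k E]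
    [Algebra F1 k] [Algebra F1 F] [Algebra F1 E] [IsScalarTower F1 k E] [IsScalarTower F1 F E]

/-- the product of a nonempty orbit has order divisible by `ε` -/
theorem dvd_card (P : Place k E) (ε : ℕ) (hε : 0 < ε)
    (hdiv : ∀ x : E, (∀ σ : E ≃ₐ[F] E, Stb P σ → σ x = x) → (ε : ℤ) ∣ P.ord x)
    (X : Finset E) (hX0 : ∀ x ∈ X, x ≠ 0) (hXD : ∀ σ : E ≃ₐ[F] E, Stb P σ → ∀ x ∈ X, σ x ∈ X)
    (M : ℕ) (hM : ∀ x ∈ X, (M : ℤ) * P.ord x = ε) : M ∣ X.card := by
  classical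
  have h1 : (ε : ℤ) ∣ P.ord (∏ x ∈ X, x) := by
    apply hdiv
    intro σ hσ
    rw [map_prod]
    have h2 : X.image σ = X := by
      apply Finset.eq_of_subset_of_card_le
      · intro y hy
        obtain ⟨x, hx, rfl⟩ := Finset.mem_image.1 hy
        exact hXD σ hσ x hx
      · rw [Finset.card_image_of_injective _ σ.injective]
    conv_rhs => rw [← h2]
    rw [Finset.prod_image (fun a _ b _ h => σ.injective h)]
  have h3 : ∀ Y : Finset E, Y ⊆ X → P.ord (∏ x ∈ Y, x) = ∑ x ∈ Y, P.ord x ∧ (∏ x ∈ Y, x) ≠ 0 := by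
    intro Y
    induction Y using Finset.induction_on with
    | empty => intro _; simp [P.ord_one]
    | insert a s ha ih =>
      intro hs
      have ha0 := hX0 a (hs (Finset.mem_insert_self _ _))
      obtain ⟨h4, h5⟩ := ih (fun x hx => hs (Finset.mem_insert_of_mem hx))
      rw [Finset.prod_insert ha, Finset.sum_insert ha, P.ord_mul ha0 h5, h4]
      exact ⟨rfl, mul_ne_zero ha0 h5⟩
  rw [(h3 X subset_rfl).1] at h1
  obtain ⟨c, hc⟩ := h1
  have h4 : (M : ℤ) * (∑ x ∈ X, P.ord x) = X.card * ε := by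
    rw [Finset.mul_sum, Finset.sum_congr rfl hM, Finset.sum_const, nsmul_eq_mul]
  rw [hc] at h4
  have h5 : ((M : ℤ) * c - X.card) * ε = 0 := by linear_combination h4
  have h6 : (M : ℤ) * c = X.card := by
    rcases mul_eq_zero.1 h5 with h | h
    · linarith
    · exfalso
      have : (ε : ℤ) ≠ 0 := by exact_mod_cast hε.ne'
      exact this h
  have h7 : (M : ℤ) ∣ (X.card : ℤ) := ⟨c, h6.symm⟩
  exact_mod_cast h7

end

/-- the hypotheses of the statement -/
structure Hyp {k E F1 : Type} (F : Type) [Field k] [Field F] [Field E] [Field F1]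
    [Algebra k E] [Algebra F E] [Algebra F1 E]
    (P : Place k E) (ε A b : ℕ) (V : Submodule F1 E) : Prop where
  hε : 0 < ε
  hb : 0 < b
  hA : A = Nat.card F1 ^ b
  hdiv : ∀ x : E, (∀ σ : E ≃ₐ[F] E, Stb P σ → σ x = x) → (ε : ℤ) ∣ P.ord x
  fin : (V : Set E).Finite
  stab : ∀ σ : E ≃ₐ[F] E, ∀ v ∈ V, σ v ∈ V
  reg : ∀ v ∈ V, P.Reg v
  ordW : ∀ w ∈ V, w ≠ 0 → P.red w = 0 → ((A : ℤ) - 1) * P.ord w = ε
  ordV : ∀ v ∈ V, ∀ ξ : k, ξ ≠ 0 → P.red v = algebraMap k P.RF ξ →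
      v - algebraMap k E ξ ≠ 0 ∧ (A : ℤ) * P.ord (v - algebraMap k E ξ) = ε
  card : Nat.card {w : E // w ∈ V ∧ P.red w = 0} = A
  pow : ∀ w ∈ V, ∀ w' ∈ V, w ≠ 0 → w' ≠ 0 → P.red w = 0 → P.red w' = 0 →
      P.red (w' / w) ^ (A - 1) = 1

namespace Hyp

variable {k F E F1 : Type} [Field k] [IsAlgClosed k] [Field F] [Field E] [Field F1] [Finite F1]
    [Algebra k F] [Algebra k E] [Algebra F E] [IsScalarTower k F E] [IsFF k E]
    [Algebra F1 k] [Algebra F1 F] [Algebra F1 E] [IsScalarTower F1 k E] [IsScalarTower F1 F E]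
    {P : Place k E} {ε A b : ℕ} {V : Submodule F1 E}

theorem two_le (H : Hyp F P ε A b V) : 2 ≤ A := by
  have h1 : 1 < Nat.card F1 := Finite.one_lt_card
  rw [H.hA]
  calc 2 ≤ Nat.card F1 := h1
    _ = Nat.card F1 ^ 1 := (pow_one _).symm
    _ ≤ Nat.card F1 ^ b := Nat.pow_le_pow_right (by omega) H.hb

/-- the finset of the elements of `V` with residue zero -/
noncomputable def WF (H : Hyp F P ε A b V) : Finset E :=
  (Set.Finite.subset (t := {w : E | w ∈ V ∧ P.red w = 0}) H.fin (fun _ hw => hw.1)).toFinset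

theorem mem_WF (H : Hyp F P ε A b V) {w : E} : w ∈ H.WF ↔ w ∈ V ∧ P.red w = 0 := by
  unfold WF
  rw [Set.Finite.mem_toFinset]
  rfl

theorem card_WF (H : Hyp F P ε A b V) : H.WF.card = A := by
  refine Eq.trans ?_ H.card
  unfold WF
  rw [← Nat.card_eq_card_finite_toFinset]
  rfl

theorem zero_mem (H : Hyp F P ε A b V) : (0 : E) ∈ H.WF := H.mem_WF.2 ⟨V.zero_mem, P.red_zero⟩

theorem add_mem (H : Hyp F P ε A b V) {w w' : E} (h : w ∈ H.WF) (h' : w' ∈ H.WF) : w + w' ∈ H.WF := by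
  rw [mem_WF] at *
  refine ⟨V.add_mem h.1 h'.1, ?_⟩
  rw [P.red_add (H.reg _ h.1) (H.reg _ h'.1), h.2, h'.2, add_zero]

theorem neg_mem (H : Hyp F P ε A b V) {w : E} (h : w ∈ H.WF) : -w ∈ H.WF := by
  rw [mem_WF] at *
  refine ⟨V.neg_mem h.1, ?_⟩
  rw [P.red_neg (H.reg _ h.1), h.2, neg_zero]

theorem sub_mem (H : Hyp F P ε A b V) {w w' : E} (h : w ∈ H.WF) (h' : w' ∈ H.WF) : w - w' ∈ H.WF := by
  rw [sub_eq_add_neg]; exact H.add_mem h (H.neg_mem h')

theorem stb_mem (H : Hyp F P ε A b V) {w : E} (h : w ∈ H.WF) {σ : E ≃ₐ[F] E} (hσ : Stb P σ) :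
    σ w ∈ H.WF := by
  rw [mem_WF] at *
  exact ⟨H.stab σ w h.1, by rw [(hσ.red (H.reg _ h.1)).2, h.2]⟩

theorem sub_mem_WF (H : Hyp F P ε A b V) {v v' : E} (h : v ∈ V) (h' : v' ∈ V)
    (hr : P.red v = P.red v') : v - v' ∈ H.WF := by
  rw [mem_WF]
  refine ⟨V.sub_mem h h', ?_⟩
  rw [P.red_sub (H.reg _ h) (H.reg _ h'), hr, sub_self]

theorem stb_sub_mem (H : Hyp F P ε A b V) {v : E} (h : v ∈ V) {σ : E ≃ₐ[F] E} (hσ : Stb P σ) :
    σ v - v ∈ H.WF :=
  H.sub_mem_WF (H.stab σ v h) h (hσ.red (H.reg _ h)).2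

/-- transitivity on the nonzero elements of `W` -/
theorem trans_W (H : Hyp F P ε A b V) {w w' : E} (h : w ∈ H.WF) (h0 : w ≠ 0) (h' : w' ∈ H.WF)
    (h0' : w' ≠ 0) : ∃ σ : E ≃ₐ[F] E, Stb P σ ∧ σ w = w' := by
  classical
  set X : Finset E := H.WF.filter (fun y => ∃ σ : E ≃ₐ[F] E, Stb P σ ∧ σ w = y) with hX
  have hXsub : X ⊆ H.WF.erase 0 := by
    intro y hy
    rw [hX, Finset.mem_filter] at hy
    obtain ⟨h1, σ, h2, rfl⟩ := hy
    exact Finset.mem_erase.2 ⟨by simpa using h0, h1⟩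
  have h1 : A - 1 ∣ X.card := by
    apply dvd_card (F := F) P ε H.hε H.hdiv X
    · intro x hx
      exact (Finset.mem_erase.1 (hXsub hx)).1
    · intro σ hσ x hx
      rw [hX, Finset.mem_filter] at hx ⊢
      obtain ⟨h1, τ, h2, rfl⟩ := hx
      exact ⟨H.stb_mem h1 hσ, σ * τ, hσ.mul h2, rfl⟩
    · intro x hx
      have h2 := Finset.mem_erase.1 (hXsub hx)
      have h3 := H.mem_WF.1 h2.2
      have := H.ordW x h3.1 h2.1 h3.2
      have h4 := H.two_le
      rw [Nat.cast_sub (by omega)]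
      exact_mod_cast this
  have h2 : (H.WF.erase 0).card = A - 1 := by
    rw [Finset.card_erase_of_mem H.zero_mem, H.card_WF]
  have hwX : w ∈ X := by
    rw [hX, Finset.mem_filter]
    exact ⟨h, 1, Stb.one P, rfl⟩
  have h3 : 0 < X.card := Finset.card_pos.2 ⟨w, hwX⟩
  have h4 : X = H.WF.erase 0 := by
    apply Finset.eq_of_subset_of_card_le hXsub
    rw [h2]
    exact Nat.le_of_dvd h3 h1
  have h5 : w' ∈ X := by
    rw [h4]; exact Finset.mem_erase.2 ⟨h0', h'⟩
  rw [hX, Finset.mem_filter] at h5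
  exact h5.2

/-- the orbit of an element outside `W` is a coset -/
theorem trans_V (H : Hyp F P ε A b V) {v w : E} (hv : v ∈ V) (hr : P.red v ≠ 0) (hw : w ∈ H.WF) :
    ∃ σ : E ≃ₐ[F] E, Stb P σ ∧ σ v = v + w := by
  classical
  obtain ⟨ξ, hξ⟩ := exists_const P (P.red v)
  have hξ0 : ξ ≠ 0 := by
    rintro rfl
    rw [map_zero] at hξ
    exact hr hξ
  set Y : Finset E := H.WF.image (fun y => v + y - algebraMap k E ξ) with hY
  have hYc : Y.card = A := by
    rw [hY, Finset.card_image_of_injective, H.card_WF]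
    intro a c hac
    simpa using hac
  have hYm : ∀ y ∈ Y, y ≠ 0 ∧ (A : ℤ) * P.ord y = ε := by
    intro y hy
    rw [hY, Finset.mem_image] at hy
    obtain ⟨w, hw, rfl⟩ := hy
    rw [mem_WF] at hw
    refine H.ordV (v + w) (V.add_mem hv hw.1) ξ hξ0 ?_
    rw [P.red_add (H.reg _ hv) (H.reg _ hw.1), hw.2, add_zero, hξ]
  set X : Finset E := Y.filter (fun y => ∃ σ : E ≃ₐ[F] E, Stb P σ ∧ σ v - algebraMap k E ξ = y) with hX
  have h1 : A ∣ X.card := by
    apply dvd_card (F := F) P ε H.hε H.hdiv X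
    · intro x hx
      exact (hYm x (Finset.mem_filter.1 hx).1).1
    · intro σ hσ x hx
      rw [hX, Finset.mem_filter] at hx ⊢
      obtain ⟨h1, τ, h2, rfl⟩ := hx
      have h3 : σ (τ v - algebraMap k E ξ) = (σ * τ) v - algebraMap k E ξ := by
        rw [map_sub, aut_const]; rfl
      refine ⟨?_, σ * τ, hσ.mul h2, h3.symm⟩
      rw [h3, hY, Finset.mem_image]
      refine ⟨(σ * τ) v - v, H.stb_sub_mem hv (hσ.mul h2), by ring⟩
    · intro x hx
      exact (hYm x (Finset.mem_filter.1 hx).1).2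
  have hvX : v - algebraMap k E ξ ∈ X := by
    rw [hX, Finset.mem_filter]
    refine ⟨?_, 1, Stb.one P, rfl⟩
    rw [hY, Finset.mem_image]
    exact ⟨0, H.zero_mem, by ring⟩
  have h3 : 0 < X.card := Finset.card_pos.2 ⟨_, hvX⟩
  have h4 : X = Y := by
    apply Finset.eq_of_subset_of_card_le (Finset.filter_subset _ _)
    rw [hYc]
    exact Nat.le_of_dvd h3 h1
  have h5 : v + w - algebraMap k E ξ ∈ X := by
    rw [h4, hY, Finset.mem_image]
    exact ⟨w, hw, rfl⟩
  rw [hX, Finset.mem_filter] at h5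
  obtain ⟨_, σ, h6, h7⟩ := h5
  exact ⟨σ, h6, by linear_combination h7⟩

theorem ord_eq (H : Hyp F P ε A b V) {w w' : E} (h : w ∈ H.WF) (h0 : w ≠ 0) (h' : w' ∈ H.WF)
    (h0' : w' ≠ 0) : P.ord w = P.ord w' := by
  rw [mem_WF] at h h'
  have h1 := H.ordW w h.1 h0 h.2
  have h2 := H.ordW w' h'.1 h0' h'.2
  have h3 := H.two_le
  have h4 : ((A : ℤ) - 1) * (P.ord w - P.ord w') = 0 := by linear_combination h1 - h2
  rcases mul_eq_zero.1 h4 with h | h
  · exfalso; omega
  · linarith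

theorem reg_div (H : Hyp F P ε A b V) {w w' : E} (h : w ∈ H.WF) (h0 : w ≠ 0) (h' : w' ∈ H.WF) :
    P.Reg (w' / w) := by
  by_cases h0' : w' = 0
  · left; rw [h0', zero_div]
  · right
    rw [P.ord_div h0' h0, H.ord_eq h h0 h' h0', sub_self]

theorem eta_inj (H : Hyp F P ε A b V) {w w' : E} (h : w ∈ H.WF) (h0 : w ≠ 0) (h' : w' ∈ H.WF)
    (hr : P.red (w' / w) = 0) : w' = 0 := by
  by_contra h0'
  refine P.red_ne_zero (div_ne_zero h0' h0) ?_ hr
  rw [P.ord_div h0' h0, H.ord_eq h h0 h' h0', sub_self]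

theorem eta_add (H : Hyp F P ε A b V) {w w' w'' : E} (h : w ∈ H.WF) (h0 : w ≠ 0) (h' : w' ∈ H.WF)
    (h'' : w'' ∈ H.WF) : P.red ((w' + w'') / w) = P.red (w' / w) + P.red (w'' / w) := by
  rw [add_div, P.red_add (H.reg_div h h0 h') (H.reg_div h h0 h'')]

theorem eta_sub (H : Hyp F P ε A b V) {w w' w'' : E} (h : w ∈ H.WF) (h0 : w ≠ 0) (h' : w' ∈ H.WF)
    (h'' : w'' ∈ H.WF) : P.red ((w' - w'') / w) = P.red (w' / w) - P.red (w'' / w) := by
  rw [sub_div, P.red_sub (H.reg_div h h0 h') (H.reg_div h h0 h'')]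

theorem eta_inj' (H : Hyp F P ε A b V) {w w' w'' : E} (h : w ∈ H.WF) (h0 : w ≠ 0) (h' : w' ∈ H.WF)
    (h'' : w'' ∈ H.WF) (hr : P.red (w' / w) = P.red (w'' / w)) : w' = w'' := by
  have := H.eta_inj h h0 (H.sub_mem h' h'') (by rw [H.eta_sub h h0 h' h'', hr, sub_self])
  exact sub_eq_zero.1 this

theorem eta_pow' (H : Hyp F P ε A b V) {w w' : E} (h : w ∈ H.WF) (h0 : w ≠ 0) (h' : w' ∈ H.WF)
    (h0' : w' ≠ 0) : P.red (w' / w) ^ (A - 1) = 1 := by
  rw [mem_WF] at h h'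
  exact H.pow w h.1 w' h'.1 h0 h0' h.2 h'.2

theorem eta_pow (H : Hyp F P ε A b V) {w w' : E} (h : w ∈ H.WF) (h0 : w ≠ 0) (h' : w' ∈ H.WF) :
    P.red (w' / w) ^ A = P.red (w' / w) := by
  have h2 := H.two_le
  by_cases h0' : w' = 0
  · rw [h0', zero_div, P.red_zero, zero_pow (by omega)]
  · have h1 := H.eta_pow' h h0 h' h0'
    calc P.red (w' / w) ^ A = P.red (w' / w) ^ (A - 1) * P.red (w' / w) := by
          rw [← pow_succ]; congr 1; omega
      _ = _ := by rw [h1, one_mul]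

theorem card_le_of_pow {R : Type} [Field R] {n : ℕ} (hn : 2 ≤ n) (S : Finset R)
    (hS : ∀ x ∈ S, x ^ n = x) : S.card ≤ n := by
  classical
  have h1 : (X ^ n - X : R[X]) ≠ 0 := by
    intro h
    have := congrArg (fun f => f.coeff n) h
    simp only [coeff_sub, coeff_X_pow, if_true, coeff_X, coeff_zero] at this
    rw [if_neg (by omega)] at this
    simp at this
  have h2 : S ⊆ (X ^ n - X : R[X]).roots.toFinset := by
    intro x hx
    rw [Multiset.mem_toFinset, mem_roots h1, IsRoot.def, eval_sub, eval_pow, eval_X, hS x hx, sub_self]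
  calc S.card ≤ _ := Finset.card_le_card h2
    _ ≤ Multiset.card (X ^ n - X : R[X]).roots := Multiset.toFinset_card_le _
    _ ≤ (X ^ n - X : R[X]).natDegree := card_roots' _
    _ ≤ n := by
      refine (natDegree_sub_le _ _).trans (max_le ?_ ?_)
      · exact natDegree_X_pow_le n
      · exact natDegree_X_le.trans (by omega)

theorem mem_of_pow {R : Type} [Field R] {n : ℕ} (hn : 2 ≤ n) (S : Finset R)
    (hS : ∀ x ∈ S, x ^ n = x) (hc : n ≤ S.card) (x : R) (hx : x ^ n = x) : x ∈ S := by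
  classical
  by_contra hxS
  have := card_le_of_pow hn (insert x S) (by
    intro y hy
    rcases Finset.mem_insert.1 hy with rfl | hy
    · exact hx
    · exact hS y hy)
  rw [Finset.card_insert_of_notMem hxS] at this
  omega

theorem eta_surj (H : Hyp F P ε A b V) {w : E} (h : w ∈ H.WF) (h0 : w ≠ 0) (x : P.RF)
    (hx : x ^ A = x) : ∃ w' ∈ H.WF, P.red (w' / w) = x := by
  classical
  have h1 : x ∈ H.WF.image (fun w' => P.red (w' / w)) := by
    apply mem_of_pow H.two_le _ _ _ x hx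
    · intro y hy
      obtain ⟨w', hw', rfl⟩ := Finset.mem_image.1 hy
      exact H.eta_pow h h0 hw'
    · rw [Finset.card_image_of_injOn, H.card_WF]
      intro a ha c hc hac
      exact H.eta_inj' h h0 ha hc hac
  obtain ⟨w', hw', h2⟩ := Finset.mem_image.1 h1
  exact ⟨w', hw', h2⟩

theorem eta_stb (H : Hyp F P ε A b V) {w w' : E} (h : w ∈ H.WF) (h0 : w ≠ 0) (h' : w' ∈ H.WF)
    {σ : E ≃ₐ[F] E} (hσ : Stb P σ) : P.red (σ w' / w) = P.red (σ w / w) * P.red (w' / w) := by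
  have h1 : σ w' / w = (σ w / w) * σ (w' / w) := by
    have : σ w ≠ 0 := by simpa using h0
    rw [map_div₀]
    field_simp
  have h2 := hσ.red (H.reg_div h h0 h')
  rw [h1, P.red_mul (H.reg_div h h0 (H.stb_mem h hσ)) h2.1, h2.2]

/-- elements of the stabiliser with given multiplier -/
theorem exists_mult (H : Hyp F P ε A b V) {w : E} (h : w ∈ H.WF) (h0 : w ≠ 0) (x : P.RF)
    (hx : x ^ A = x) (hx0 : x ≠ 0) : ∃ σ : E ≃ₐ[F] E, Stb P σ ∧ P.red (σ w / w) = x := by
  obtain ⟨w', h1, h2⟩ := H.eta_surj h h0 x hx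
  have h3 : w' ≠ 0 := by
    rintro rfl
    rw [zero_div, P.red_zero] at h2
    exact hx0 h2.symm
  obtain ⟨σ, h4, h5⟩ := H.trans_W h h0 h1 h3
  exact ⟨σ, h4, by rw [h5, h2]⟩

/-- the stabiliser elements acting trivially on `W` -/
def Un (H : Hyp F P ε A b V) (σ : E ≃ₐ[F] E) : Prop := Stb P σ ∧ ∀ w ∈ H.WF, σ w = w

theorem Un.one (H : Hyp F P ε A b V) : H.Un 1 := ⟨Stb.one P, fun _ _ => rfl⟩

theorem un_of_fix (H : Hyp F P ε A b V) {w : E} (h : w ∈ H.WF) (h0 : w ≠ 0) {σ : E ≃ₐ[F] E}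
    (hσ : Stb P σ) (hw : σ w = w) : H.Un σ := by
  refine ⟨hσ, fun w' hw' => ?_⟩
  apply H.eta_inj' h h0 (H.stb_mem hw' hσ) hw'
  rw [H.eta_stb h h0 hw' hσ, hw, div_self h0, P.red_one, one_mul]

/-- every element outside `W` is moved by an element acting trivially on `W` -/
theorem exists_move (H : Hyp F P ε A b V) {v : E} (hv : v ∈ V) (hr : P.red v ≠ 0) :
    ∃ σ : E ≃ₐ[F] E, H.Un σ ∧ σ v ≠ v := by
  classical
  by_contra hcon
  push Not at hcon
  have h2 := H.two_le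
  obtain ⟨w, hw, h0⟩ : ∃ w ∈ H.WF, w ≠ 0 := by
    by_contra hc
    push Not at hc
    have : H.WF ⊆ {0} := fun x hx => Finset.mem_singleton.2 (hc x hx)
    have := Finset.card_le_card this
    rw [H.card_WF, Finset.card_singleton] at this
    omega
  have hch : ∀ y : E, ∃ σ : E ≃ₐ[F] E, y ∈ H.WF → Stb P σ ∧ σ v = v + y := by
    intro y
    by_cases hy : y ∈ H.WF
    · obtain ⟨σ, hσ⟩ := H.trans_V hv hr hy
      exact ⟨σ, fun _ => hσ⟩
    · exact ⟨1, fun h => absurd h hy⟩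
  choose s hs using hch
  have h3 : (H.WF.image (fun y => s y w)).card = H.WF.card := by
    apply Finset.card_image_of_injOn
    intro a ha c hc hac
    have h4 := hs a ha
    have h5 := hs c hc
    have h6 : H.Un ((s a)⁻¹ * s c) := by
      apply H.un_of_fix hw h0 (h4.1.inv.mul h5.1)
      rw [AlgEquiv.mul_apply]
      change (s a)⁻¹ (s c w) = w
      have : s a w = s c w := hac
      rw [← this, ← AlgEquiv.mul_apply, inv_mul_cancel, AlgEquiv.one_apply]
    have h7 := hcon _ h6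
    rw [AlgEquiv.mul_apply] at h7
    have h8 : s c v = s a v := by
      have := congrArg (s a) h7
      rwa [← AlgEquiv.mul_apply, mul_inv_cancel, AlgEquiv.one_apply] at this
    rw [h4.2, h5.2] at h8
    exact (add_left_cancel h8).symm
  have h4 : H.WF.image (fun y => s y w) ⊆ H.WF.erase 0 := by
    intro x hx
    obtain ⟨y, hy, rfl⟩ := Finset.mem_image.1 hx
    exact Finset.mem_erase.2 ⟨by simpa using h0, H.stb_mem hw (hs y hy).1⟩
  have h5 := Finset.card_le_card h4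
  rw [h3, Finset.card_erase_of_mem H.zero_mem, H.card_WF] at h5
  omega

/-- the functions coming from the elements acting trivially on `W` -/
def IsH (H : Hyp F P ε A b V) (w : E) (f : E → P.RF) : Prop :=
  ∃ d : E ≃ₐ[F] E, H.Un d ∧ ∀ v ∈ V, f v = P.red ((d v - v) / w)

theorem IsH.zero (H : Hyp F P ε A b V) (w : E) : H.IsH w (fun _ => 0) := by
  refine ⟨1, Un.one H, fun v _ => ?_⟩
  rw [AlgEquiv.one_apply, sub_self, zero_div, P.red_zero]

theorem IsH.congr {H : Hyp F P ε A b V} {w : E} {f g : E → P.RF} (hf : H.IsH w f)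
    (h : ∀ v ∈ V, g v = f v) : H.IsH w g := by
  obtain ⟨d, h1, h2⟩ := hf
  exact ⟨d, h1, fun v hv => by rw [h v hv, h2 v hv]⟩

theorem IsH.add {H : Hyp F P ε A b V} {w : E} (h : w ∈ H.WF) (h0 : w ≠ 0) {f g : E → P.RF}
    (hf : H.IsH w f) (hg : H.IsH w g) : H.IsH w (fun v => f v + g v) := by
  obtain ⟨d, h1, h2⟩ := hf
  obtain ⟨d', h3, h4⟩ := hg
  refine ⟨d * d', ⟨h1.1.mul h3.1, fun w' hw' => ?_⟩, fun v hv => ?_⟩
  · rw [AlgEquiv.mul_apply, h3.2 w' hw', h1.2 w' hw']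
  · have h5 := H.stb_sub_mem hv h1.1
    have h6 := H.stb_sub_mem hv h3.1
    have h7 : (d * d') v - v = (d v - v) + (d' v - v) := by
      have h8 : d (d' v - v) = d' v - v := h1.2 _ h6
      rw [map_sub] at h8
      rw [AlgEquiv.mul_apply]
      linear_combination h8
    rw [h7, H.eta_add h h0 h5 h6, ← h2 v hv, ← h4 v hv]

theorem IsH.sum {H : Hyp F P ε A b V} {w : E} (h : w ∈ H.WF) (h0 : w ≠ 0) (n : ℕ)
    {f : ℕ → E → P.RF} (hf : ∀ i, H.IsH w (f i)) :
    H.IsH w (fun v => ∑ i ∈ Finset.range n, f i v) := by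
  induction n with
  | zero => exact (IsH.zero H w).congr (fun v _ => by simp)
  | succ n ih =>
    exact (ih.add h h0 (hf n)).congr (fun v _ => by rw [Finset.sum_range_succ])

theorem IsH.mul {H : Hyp F P ε A b V} {w : E} (h : w ∈ H.WF) (h0 : w ≠ 0) {f : E → P.RF}
    (hf : H.IsH w f) (x : P.RF) (hx : x ^ A = x) : H.IsH w (fun v => x * f v) := by
  by_cases hx0 : x = 0
  · exact (IsH.zero H w).congr (fun v _ => by rw [hx0, zero_mul])
  · obtain ⟨t, ht, htx⟩ := H.exists_mult h h0 x hx hx0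
    obtain ⟨d, h1, h2⟩ := hf
    refine ⟨t * d * t⁻¹, ⟨(ht.mul h1.1).mul ht.inv, fun w' hw' => ?_⟩, fun v hv => ?_⟩
    · have h3 := H.stb_mem hw' ht.inv
      rw [AlgEquiv.mul_apply, AlgEquiv.mul_apply, h1.2 _ h3, ← AlgEquiv.mul_apply, mul_inv_cancel,
        AlgEquiv.one_apply]
    · have h3 := H.stb_sub_mem hv ht.inv
      have h4 := h1.2 _ h3
      have h5 : (t * d * t⁻¹) v - v = t (d v - v) := by
        have h6 : t (t⁻¹ v) = v := by
          rw [← AlgEquiv.mul_apply, mul_inv_cancel, AlgEquiv.one_apply]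
        rw [map_sub] at h4
        have h7 : d (t⁻¹ v) = d v - v + t⁻¹ v := by linear_combination h4
        rw [AlgEquiv.mul_apply, AlgEquiv.mul_apply, h7, map_add, h6]
        ring
      show x * f v = _
      rw [h5, H.eta_stb h h0 (H.stb_sub_mem hv h1.1) ht, htx, h2 v hv]

theorem IsH.pow_eq {H : Hyp F P ε A b V} {w : E} (h : w ∈ H.WF) (h0 : w ≠ 0) {f : E → P.RF}
    (hf : H.IsH w f) (v : E) (hv : v ∈ V) : f v ^ A = f v := by
  obtain ⟨d, h1, h2⟩ := hf
  rw [h2 v hv]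
  exact H.eta_pow h h0 (H.stb_sub_mem hv h1.1)

theorem IsH.zero_of {H : Hyp F P ε A b V} {w : E} {f : E → P.RF}
    (hf : H.IsH w f) (v : E) (hv : v ∈ H.WF) : f v = 0 := by
  obtain ⟨d, h1, h2⟩ := hf
  rw [h2 v (H.mem_WF.1 hv).1, h1.2 v hv, sub_self, zero_div, P.red_zero]

theorem IsH.map_add {H : Hyp F P ε A b V} {w : E} (h : w ∈ H.WF) (h0 : w ≠ 0) {f : E → P.RF}
    (hf : H.IsH w f) (v v' : E) (hv : v ∈ V) (hv' : v' ∈ V) : f (v + v') = f v + f v' := by
  obtain ⟨d, h1, h2⟩ := hf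
  rw [h2 _ hv, h2 _ hv', h2 _ (V.add_mem hv hv'),
    ← H.eta_add h h0 (H.stb_sub_mem hv h1.1) (H.stb_sub_mem hv' h1.1), _root_.map_add]
  congr 2
  ring

/-- scalars from `F1` -/
noncomputable def io (P : Place k E) : F1 →+* P.RF :=
  (algebraMap k P.RF).comp (algebraMap F1 k)

theorem smul_eq (c : F1) (x : E) : c • x = algebraMap k E (algebraMap F1 k c) * x := by
  rw [Algebra.smul_def, IsScalarTower.algebraMap_apply F1 k E]

theorem red_smul (P : Place k E) (c : F1) {x : E} (hx : P.Reg x) :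
    P.red (c • x) = (io P c : P.RF) * P.red x := by
  rw [smul_eq (k := k), P.red_mul (P.reg_const _) hx]
  rfl

theorem map_smul' (σ : E ≃ₐ[F] E) (c : F1) (x : E) : σ (c • x) = c • σ x := by
  rw [Algebra.smul_def, Algebra.smul_def, map_mul, IsScalarTower.algebraMap_apply F1 F E,
    AlgEquiv.commutes]

theorem IsH.map_smul {H : Hyp F P ε A b V} {w : E} (h : w ∈ H.WF) (h0 : w ≠ 0) {f : E → P.RF}
    (hf : H.IsH w f) (c : F1) (v : E) (hv : v ∈ V) : f (c • v) = (io P c : P.RF) * f v := by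
  obtain ⟨d, h1, h2⟩ := hf
  rw [h2 _ hv, h2 _ (V.smul_mem c hv), map_smul' d, ← smul_sub,
    ← red_smul P c (H.reg_div h h0 (H.stb_sub_mem hv h1.1)), smul_div_assoc]

theorem io_pow_card (P : Place k E) (c : F1) : (io P c : P.RF) ^ Nat.card F1 = io P c := by
  haveI := Fintype.ofFinite F1
  rw [← map_pow, Nat.card_eq_fintype_card, FiniteField.pow_card]

theorem pow_pow_of_pow {R : Type} [Field R] {q : ℕ} {x : R} (hx : x ^ q = x) (n : ℕ) :
    x ^ q ^ n = x := by
  induction n with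
  | zero => rw [pow_zero, pow_one]
  | succ n ih => rw [pow_succ, pow_mul, ih, hx]

theorem io_pow (H : Hyp F P ε A b V) (c : F1) : (io P c : P.RF) ^ A = io P c := by
  rw [H.hA]
  exact pow_pow_of_pow (io_pow_card P c) b

theorem mem_io (P : Place k E) (x : P.RF) (hx : x ^ Nat.card F1 = x) : ∃ c : F1, io P c = x := by
  classical
  haveI := Fintype.ofFinite F1
  have h1 : x ∈ (Finset.univ : Finset F1).image (fun c => (io P c : P.RF)) := by
    apply mem_of_pow (n := Nat.card F1) Finite.one_lt_card _ _ _ x hx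
    · intro y hy
      obtain ⟨c, _, rfl⟩ := Finset.mem_image.1 hy
      exact io_pow_card P c
    · have hinj : Function.Injective (fun c : F1 => (io P c : P.RF)) :=
        RingHom.injective (io P : F1 →+* P.RF)
      rw [Finset.card_image_of_injective _ hinj, Finset.card_univ, Nat.card_eq_fintype_card]
  obtain ⟨c, _, h2⟩ := Finset.mem_image.1 h1
  exact ⟨c, h2⟩

/-- the twist by an automorphism which acts as a Frobenius on residues -/
theorem IsH.frob {H : Hyp F P ε A b V} {w : E} (h : w ∈ H.WF) (h0 : w ≠ 0) {f : E → P.RF}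
    (hf : H.IsH w f) (Ψ : E ≃+* E) (Q : ℕ) (hΨV : ∀ v ∈ V, Ψ v ∈ V) (hΨP : FrobAt Q Ψ P)
    (hΨk : ∀ c : k, Ψ (algebraMap k E c) = algebraMap k E (c ^ Q))
    (hconj : ∀ σ : E ≃ₐ[F] E, ∃ τ : E ≃ₐ[F] E, ∀ z, τ (Ψ z) = Ψ (σ z))
    (hred : ∀ v ∈ V, P.red v ^ Q = P.red v) : H.IsH w (fun v => f v ^ Q) := by
  have hord : ∀ z, P.ord (Ψ z) = P.ord z := hΨP.ord (fun c => ⟨_, hΨk c⟩)
  obtain ⟨d, h1, h2⟩ := hf
  obtain ⟨τ, hτ⟩ := hconj d
  have hΨW : ∀ y ∈ H.WF, Ψ y ∈ H.WF := by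
    intro y hy
    rw [mem_WF] at hy ⊢
    refine ⟨hΨV y hy.1, ?_⟩
    rw [(hΨP y (H.reg y hy.1)).2, hred y hy.1, hy.2]
  have hsurj : ∀ y ∈ H.WF, ∃ y' ∈ H.WF, Ψ y' = y := by
    classical
    have h3 : H.WF.image Ψ = H.WF := by
      apply Finset.eq_of_subset_of_card_le
      · intro y hy
        obtain ⟨y', hy', rfl⟩ := Finset.mem_image.1 hy
        exact hΨW y' hy'
      · rw [Finset.card_image_of_injective _ Ψ.injective]
    intro y hy
    rw [← h3] at hy
    obtain ⟨y', hy', h4⟩ := Finset.mem_image.1 hy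
    exact ⟨y', hy', h4⟩
  have hUn : H.Un τ := by
    constructor
    · intro z
      obtain ⟨z', rfl⟩ := Ψ.surjective z
      rw [hτ, hord, hord, h1.1]
    · intro y hy
      obtain ⟨y', hy', rfl⟩ := hsurj y hy
      rw [hτ, h1.2 y' hy']
  have hw : Ψ w ∈ H.WF := hΨW w h
  have hw0 : Ψ w ≠ 0 := by simpa using h0
  -- the functional of `τ`
  have hτH : H.IsH w (fun v => P.red ((τ v - v) / w)) := ⟨τ, hUn, fun v _ => rfl⟩
  have hκ := H.eta_pow' h h0 hw hw0
  have hκ0 : P.red (Ψ w / w) ≠ 0 := fun hc => hw0 (H.eta_inj h h0 hw hc)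
  have hκi : (P.red (Ψ w / w))⁻¹ ^ A = (P.red (Ψ w / w))⁻¹ := by
    rw [inv_pow, H.eta_pow h h0 hw]
  refine (hτH.mul h h0 _ hκi).congr ?_
  intro v hv
  -- `τ v - v = τ (Ψ v) - Ψ v`
  have h3 : Ψ v - v ∈ H.WF := by
    apply H.sub_mem_WF (hΨV v hv) hv
    rw [(hΨP v (H.reg v hv)).2, hred v hv]
  have h4 := hUn.2 _ h3
  rw [map_sub] at h4
  have h5 : τ v - v = Ψ (d v - v) := by
    rw [hτ] at h4
    rw [map_sub]
    linear_combination -h4
  have h6 : Ψ (d v - v) / w = Ψ ((d v - v) / w) * (Ψ w / w) := by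
    rw [map_div₀]
    field_simp
  have h7 := H.stb_sub_mem hv h1.1
  have h8 := hΨP _ (H.reg_div h h0 h7)
  show f v ^ Q = (P.red (Ψ w / w))⁻¹ * P.red ((τ v - v) / w)
  rw [h5, h6, P.red_mul h8.1 (H.reg_div h h0 hw), h8.2, h2 v hv]
  field_simp

theorem frobAt_pow {Φ : E ≃+* E} {r : ℕ} (h : FrobAt r Φ P) (n : ℕ) : FrobAt (r ^ n) (Φ ^ n) P := by
  induction n with
  | zero => intro f hf; rw [pow_zero, pow_zero, pow_one]; exact ⟨hf, rfl⟩
  | succ n ih =>
    intro f hf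
    have h1 := h f hf
    have h2 := ih (Φ f) h1.1
    rw [pow_succ Φ n]
    refine ⟨h2.1, ?_⟩
    change P.red ((Φ ^ n) (Φ f)) = _
    rw [h2.2, h1.2, ← pow_mul, pow_succ, mul_comm]

theorem sum_pow_card {R : Type} [Field R] (g : F1 →+* R) {ι : Type} (s : Finset ι) (f : ι → R) :
    (∑ i ∈ s, f i) ^ Nat.card F1 = ∑ i ∈ s, f i ^ Nat.card F1 := by
  haveI := Fintype.ofFinite F1
  obtain ⟨p, hp, n, hpp, hn⟩ := FiniteField.card' F1
  haveI : CharP R p := charP_of_injective_ringHom g.injective p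
  haveI : Fact p.Prime := ⟨hpp⟩
  rw [Nat.card_eq_fintype_card, hn]
  exact sum_pow_char_pow p n s f

theorem tr_pow {R : Type} [Field R] (g : F1 →+* R) (b : ℕ) (x : R) (hx : x ^ Nat.card F1 ^ b = x) :
    (∑ i ∈ Finset.range b, x ^ Nat.card F1 ^ i) ^ Nat.card F1
      = ∑ i ∈ Finset.range b, x ^ Nat.card F1 ^ i := by
  rw [sum_pow_card g]
  have h1 : ∀ i, (x ^ Nat.card F1 ^ i) ^ Nat.card F1 = x ^ Nat.card F1 ^ (i + 1) := fun i => by
    rw [← pow_mul, pow_succ]
  simp only [h1]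
  have h2 := Finset.sum_range_succ (fun i => x ^ Nat.card F1 ^ i) b
  have h3 := Finset.sum_range_succ' (fun i => x ^ Nat.card F1 ^ i) b
  rw [h2] at h3
  simp only [pow_zero, pow_one, hx] at h3
  exact (add_right_cancel h3).symm

theorem exists_tr_ne {R : Type} [Field R] {q b : ℕ} (hq : 2 ≤ q) (hb : 0 < b) (S : Finset R)
    (hS : q ^ b ≤ S.card) : ∃ y ∈ S, ∑ i ∈ Finset.range b, y ^ q ^ i ≠ 0 := by
  classical
  by_contra hc
  push Not at hc
  set T : R[X] := ∑ i ∈ Finset.range b, X ^ q ^ i with hT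
  have hT0 : T ≠ 0 := by
    intro h
    have h1 : T.coeff 1 = 1 := by
      rw [hT, finset_sum_coeff, Finset.sum_eq_single 0]
      · rw [pow_zero, pow_one, coeff_X_one]
      · intro i hi hi0
        rw [coeff_X_pow, if_neg]
        have : 1 < q ^ i := Nat.one_lt_pow hi0 (by omega)
        omega
      · intro h; exact absurd (Finset.mem_range.2 hb) h
    rw [h, coeff_zero] at h1
    exact zero_ne_one h1
  have hTd : T.natDegree ≤ q ^ (b - 1) := by
    rw [hT]
    apply natDegree_sum_le_of_forall_le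
    intro i hi
    rw [natDegree_X_pow]
    exact Nat.pow_le_pow_right (by omega) (by have := Finset.mem_range.1 hi; omega)
  have h2 : S ⊆ T.roots.toFinset := by
    intro x hx
    rw [Multiset.mem_toFinset, mem_roots hT0, IsRoot.def, hT, eval_finset_sum]
    simp only [eval_pow, eval_X]
    exact hc x hx
  have h3 : S.card ≤ q ^ (b - 1) :=
    ((Finset.card_le_card h2).trans (Multiset.toFinset_card_le _)).trans ((card_roots' _).trans hTd)
  have h4 : q ^ (b - 1) < q ^ b := Nat.pow_lt_pow_right (by omega) (by omega)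
  omega

/-- functionals with values in `F1` coming from elements acting trivially on `W` -/
noncomputable def HM (H : Hyp F P ε A b V) {w : E} (h : w ∈ H.WF) (h0 : w ≠ 0) :
    Submodule F1 (Module.Dual F1 V) where
  carrier := {φ | ∃ f : E → P.RF, H.IsH w f ∧ ∀ v : V, f v = io P (φ v)}
  zero_mem' := ⟨_, IsH.zero H w, fun v => by rw [LinearMap.zero_apply, _root_.map_zero]⟩
  add_mem' := by
    rintro φ ψ ⟨f, hf, hf'⟩ ⟨g, hg, hg'⟩
    refine ⟨_, hf.add h h0 hg, fun v => ?_⟩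
    show f v + g v = _
    rw [LinearMap.add_apply, _root_.map_add, hf', hg']
  smul_mem' := by
    rintro c φ ⟨f, hf, hf'⟩
    refine ⟨_, hf.mul h h0 (io P c) (H.io_pow c), fun v => ?_⟩
    show io P c * f v = _
    rw [LinearMap.smul_apply, smul_eq_mul, map_mul, hf']

/-- the subspace `W` -/
noncomputable def WV (H : Hyp F P ε A b V) : Submodule F1 V where
  carrier := {v | P.red (v : E) = 0}
  zero_mem' := P.red_zero
  add_mem' := by
    intro v v' h h'
    show P.red ((v : E) + v') = 0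
    rw [P.red_add (H.reg _ v.2) (H.reg _ v'.2)]
    rw [show P.red (v : E) = 0 from h, show P.red (v' : E) = 0 from h', add_zero]
  smul_mem' := by
    intro c v h
    show P.red (c • (v : E)) = 0
    rw [red_smul P c (H.reg _ v.2), show P.red (v : E) = 0 from h, mul_zero]

theorem HM_coann (H : Hyp F P ε A b V) {w : E} (h : w ∈ H.WF) (h0 : w ≠ 0)
    (hfr : ∀ f : E → P.RF, H.IsH w f → H.IsH w (fun v => f v ^ Nat.card F1)) :
    (H.HM h h0).dualCoannihilator ≤ H.WV := by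
  classical
  intro v hv
  by_contra hvW
  have hvW' : P.red (v : E) ≠ 0 := hvW
  obtain ⟨σ, hσ, hσv⟩ := H.exists_move v.2 hvW'
  set f : E → P.RF := fun x => P.red ((σ x - x) / w) with hf
  have hfH : H.IsH w f := ⟨σ, hσ, fun _ _ => rfl⟩
  have hfv : f v ≠ 0 := by
    intro hc
    exact hσv (sub_eq_zero.1 (H.eta_inj h h0 (H.stb_sub_mem v.2 hσ.1) hc))
  obtain ⟨y, hy, hyt⟩ := exists_tr_ne (q := Nat.card F1) (b := b) Finite.one_lt_card H.hb
    (H.WF.image (fun w' => P.red (w' / w))) (by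
      rw [Finset.card_image_of_injOn, H.card_WF, ← H.hA]
      intro a ha c hc hac
      exact H.eta_inj' h h0 ha hc hac)
  obtain ⟨w', hw', hyw⟩ := Finset.mem_image.1 hy
  have hyA : y ^ A = y := by
    rw [← hyw]
    exact H.eta_pow h h0 hw'
  have hlA : (y / f v) ^ A = y / f v := by
    rw [div_pow, hyA, hfH.pow_eq h h0 v v.2]
  have hf' := hfH.mul h h0 _ hlA
  have hpw : ∀ i : ℕ, H.IsH w (fun x => (y / f v * f x) ^ Nat.card F1 ^ i) := by
    intro i
    induction i with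
    | zero => exact hf'.congr (fun x _ => by rw [pow_zero, pow_one])
    | succ i ih => exact (hfr _ ih).congr (fun x _ => by rw [← pow_mul, pow_succ])
  have hsum := IsH.sum h h0 b hpw
  set g : E → P.RF := fun x => ∑ i ∈ Finset.range b, (y / f v * f x) ^ Nat.card F1 ^ i with hg
  have hgq : ∀ x ∈ V, g x ^ Nat.card F1 = g x := by
    intro x hx
    apply tr_pow (io P : F1 →+* P.RF)
    rw [← H.hA]
    exact hf'.pow_eq h h0 x hx
  have hch : ∀ x : V, ∃ c : F1, io P c = g x := fun x => mem_io P _ (hgq x x.2)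
  choose φ hφ using hch
  have hinj : Function.Injective (io P : F1 →+* P.RF) := RingHom.injective _
  let φL : V →ₗ[F1] F1 :=
    { toFun := φ
      map_add' := by
        intro x x'
        apply hinj
        rw [_root_.map_add, hφ, hφ, hφ]
        exact hsum.map_add h h0 x x' x.2 x'.2
      map_smul' := by
        intro c x
        apply hinj
        rw [RingHom.id_apply, smul_eq_mul, map_mul, hφ, hφ]
        exact hsum.map_smul h h0 c x x.2 }
  have hmem : φL ∈ H.HM h h0 := ⟨g, hsum, fun x => (hφ x).symm⟩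
  have h1 : φL v = 0 := by
    rw [Submodule.mem_dualCoannihilator] at hv
    exact hv φL hmem
  have h2 : g v = 0 := by
    rw [← hφ v]
    change io P (φL v) = 0
    rw [h1, _root_.map_zero]
  apply hyt
  rw [hg] at h2
  simp only [div_mul_cancel₀ y hfv] at h2
  exact h2

theorem HM_mem (H : Hyp F P ε A b V) {w : E} (h : w ∈ H.WF) (h0 : w ≠ 0)
    (hfr : ∀ f : E → P.RF, H.IsH w f → H.IsH w (fun v => f v ^ Nat.card F1))
    (f : Module.Dual F1 V) (hf : ∀ w' : V, P.red (w' : E) = 0 → f w' = 0) : f ∈ H.HM h h0 := by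
  haveI : Finite V := H.fin
  haveI : Module.Finite F1 V := Module.Finite.of_finite
  have h1 := Submodule.dualAnnihilator_anti (H.HM_coann h h0 hfr)
  rw [Subspace.dualCoannihilator_dualAnnihilator_eq] at h1
  apply h1
  rw [Submodule.mem_dualAnnihilator]
  intro w' hw'
  exact hf w' hw'

theorem transv (H : Hyp F P ε A b V) {w : E} (h : w ∈ H.WF) (h0 : w ≠ 0)
    (hfr : ∀ f : E → P.RF, H.IsH w f → H.IsH w (fun v => f v ^ Nat.card F1))
    (f : V →ₗ[F1] F1) (hf : ∀ w' : V, P.red (w' : E) = 0 → f w' = 0) :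
    ∃ σ : E ≃ₐ[F] E, ∀ v : V, σ (v : E) = v + f v • w := by
  obtain ⟨g, ⟨d, h1, h2⟩, h3⟩ := H.HM_mem h h0 hfr f hf
  refine ⟨d, fun v => ?_⟩
  have h4 : f v • w ∈ H.WF := by
    rw [mem_WF] at h ⊢
    refine ⟨V.smul_mem _ h.1, ?_⟩
    rw [red_smul P _ (H.reg _ h.1), h.2, mul_zero]
  have h5 : d v - v = f v • w := by
    apply H.eta_inj' h h0 (H.stb_sub_mem v.2 h1.1) h4
    rw [← h2 v v.2, h3 v, smul_div_assoc, div_self h0, red_smul P _ P.reg_one, P.red_one, mul_one]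
  linear_combination h5

end Hyp

end MC

/-- MX-C -/
theorem s_C : S_C := by
  intro k F E F1 _ _ _ _ _ _ _ _ _ _ _ _ _ _ _ _ P ε A b V hε hb hA hdiv hfin hstab hreg hordW hordV
    hcard hpow Φ r hΦV hΦP hΦk hconj g' hred j hj
  have H : MC.Hyp F P ε A b V := ⟨hε, hb, hA, hdiv, hfin, hstab, hreg, hordW, hordV, hcard, hpow⟩
  constructor
  · intro w hw hrw f hf
    by_cases h0 : w = 0
    · refine ⟨1, fun v => ?_⟩
      rw [h0, smul_zero, add_zero]
      rfl
    have hwW : w ∈ H.WF := H.mem_WF.2 ⟨hw, hrw⟩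
    apply H.transv hwW h0 _ f hf
    -- powers of `Φ`
    have hV : ∀ n : ℕ, ∀ v ∈ V, (Φ ^ n : E ≃+* E) v ∈ V := by
      intro n
      induction n with
      | zero => intro v hv; exact hv
      | succ n ih => intro v hv; rw [pow_succ]; exact ih _ (hΦV v hv)
    have hk : ∀ n : ℕ, ∀ c : k, (Φ ^ n : E ≃+* E) (algebraMap k E c) = algebraMap k E (c ^ r ^ n) := by
      intro n
      induction n with
      | zero => intro c; rw [pow_zero, pow_zero, pow_one]; rfl
      | succ n ih =>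
        intro c
        rw [pow_succ Φ]
        change (Φ ^ n) (Φ (algebraMap k E c)) = _
        rw [hΦk, ih, ← pow_mul, pow_succ, mul_comm]
    have hc : ∀ n : ℕ, ∀ σ : E ≃ₐ[F] E, ∃ τ : E ≃ₐ[F] E, ∀ z,
        τ ((Φ ^ n : E ≃+* E) z) = (Φ ^ n : E ≃+* E) (σ z) := by
      intro n
      induction n with
      | zero => intro σ; exact ⟨σ, fun z => rfl⟩
      | succ n ih =>
        intro σ
        obtain ⟨τ, hτ⟩ := hconj σ
        obtain ⟨τ', hτ'⟩ := ih τ
        refine ⟨τ', fun z => ?_⟩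
        rw [pow_succ Φ]
        change τ' ((Φ ^ n) (Φ z)) = (Φ ^ n) (Φ (σ z))
        rw [hτ', hτ]
    have hfr1 : ∀ f : E → P.RF, H.IsH w f → H.IsH w (fun v => f v ^ r ^ g') := fun f hf =>
      hf.frob hwW h0 (Φ ^ g') (r ^ g') (hV g') (MC.Hyp.frobAt_pow hΦP g') (hk g') (hc g') hred
    have hfr2 : ∀ n : ℕ, ∀ f : E → P.RF, H.IsH w f → H.IsH w (fun v => f v ^ (r ^ g') ^ n) := by
      intro n
      induction n with
      | zero => intro f hf; exact hf.congr (fun v _ => by rw [pow_zero, pow_one])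
      | succ n ih =>
        intro f hf
        refine (hfr1 _ (ih f hf)).congr (fun v _ => ?_)
        show f v ^ (r ^ g') ^ (n + 1) = (f v ^ (r ^ g') ^ n) ^ r ^ g'
        rw [pow_succ (r ^ g') n, pow_mul]
    intro f hf
    refine (hfr2 j f hf).congr (fun v hv => ?_)
    obtain ⟨c, hc⟩ := exists_const P (f v)
    have h1 := hf.pow_eq hwW h0 v hv
    rw [hc, ← map_pow] at h1
    have h2 := (algebraMap k P.RF).injective h1
    show f v ^ Nat.card F1 = f v ^ (r ^ g') ^ j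
    rw [hc, ← map_pow, ← map_pow, hj c h2]
  · intro w₀ hw₀ h0 hrw u hu0 huA
    have hwW : w₀ ∈ H.WF := H.mem_WF.2 ⟨hw₀, hrw⟩
    obtain ⟨σ, hσ, hσu⟩ := H.exists_mult hwW h0 (algebraMap k P.RF u) (by rw [← map_pow, huA])
      (by simpa using hu0)
    refine ⟨σ, fun v hv => (hσ.red (hreg v hv)).2, fun w hw hrw' => ?_⟩
    rw [H.eta_stb hwW h0 (H.mem_WF.2 ⟨hw, hrw'⟩) hσ, hσu]

end Pool.Agent.W493.MX
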