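import Pool.Agent.W493.MX.Defs
import Pool.Agent.W646.MXD

set_option autoImplicit false

namespace Pool.Agent.W493.MX

theorem s_D : S_D := Pool.Agent.W646.MXD.sD

end Pool.Agent.W493.MX
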