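import Pool.Agent.W493.MX.Basic

/-! Project MX: the splitting field of a linearised polynomial and the lift of Frobenius. -/

set_option autoImplicit false
set_option linter.all false
set_option linter.overlappingInstances false

open Module FF Pool.Agent.H525R3.FFp Pool.Agent.W132.AG Polynomial

namespace Pool.Agent.W493.MX

section lift
variable {K E E' : Type} [Field K] [Field E] [Field E'] [Algebra K E]

theorem exists_lift (f : K[X]) [IsSplittingField K E f] (i : K →+* E') (h : (f.map i).Splits) :
    ∃ Φ : E →+* E', ∀ x, Φ (algebraMap K E x) = i x := by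
  letI : Algebra K E' := i.toAlgebra
  let Ψ : E →ₐ[K] E' := IsSplittingField.lift E f h
  exact ⟨Ψ.toRingHom, fun x => Ψ.commutes x⟩

theorem exists_twist [FiniteDimensional K E] (f : K[X]) [IsSplittingField K E f] (φ : K ≃+* K)
    (hφ : f.map (φ : K →+* K) = f) :
    ∃ Φ : E ≃+* E, ∀ x, Φ (algebraMap K E x) = algebraMap K E (φ x) := by
  have hs : (f.map (algebraMap K E)).Splits := IsSplittingField.splits E f
  have hφ' : f.map (φ.symm : K →+* K) = f := by
    conv_lhs => rw [← hφ]
    rw [Polynomial.map_map]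
    have : (φ.symm : K →+* K).comp (φ : K →+* K) = RingHom.id K := by
      ext x
      simp
    rw [this, Polynomial.map_id]
  obtain ⟨Φ, hΦ⟩ := exists_lift (E := E) f ((algebraMap K E).comp (φ : K →+* K)) (by
    rw [← Polynomial.map_map, hφ]
    exact hs)
  obtain ⟨Ψ, hΨ⟩ := exists_lift (E := E) f ((algebraMap K E).comp (φ.symm : K →+* K)) (by
    rw [← Polynomial.map_map, hφ']
    exact hs)
  let χ : E →ₐ[K] E := { Φ.comp Ψ with
    commutes' := by
      intro x
      change Φ (Ψ (algebraMap K E x)) = _
      rw [hΨ]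
      change Φ (algebraMap K E (φ.symm x)) = _
      rw [hΦ]
      change algebraMap K E (φ (φ.symm x)) = _
      rw [RingEquiv.apply_symm_apply] }
  have hχ : Function.Bijective χ := Algebra.IsAlgebraic.algHom_bijective χ
  have hsurj : Function.Surjective Φ := by
    intro y
    obtain ⟨x, hx⟩ := hχ.2 y
    exact ⟨Ψ x, hx⟩
  exact ⟨RingEquiv.ofBijective Φ ⟨Φ.injective, hsurj⟩, hΦ⟩

end lift

theorem s_E : S_E := by
  intro k _ _ p e _ _ he T c h0T hm hc hc0 hc1
  classical
  have hpp : p.Prime := Fact.out
  let K := RatFunc k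
  let q := p ^ e
  have hq : 1 < q := Nat.one_lt_pow he.ne' hpp.one_lt
  let m := T.sup id
  have hmT : m ∈ T := by
    obtain ⟨i, hi, h⟩ := Finset.exists_mem_eq_sup T ⟨0, h0T⟩ id
    change T.sup id ∈ T
    rw [h]
    exact hi
  let L : K[X] := ∑ j ∈ T, C (algebraMap k[X] K (c j)) * X ^ (q ^ j)
  have hperf : PerfectRing k p := inferInstance
  let fr : k ≃+* k := iterateFrobeniusEquiv k p e
  have hfr : ∀ x, fr x = x ^ q := fun x => rfl
  let φ : K ≃+* K := IsFractionRing.ringEquivOfRingEquiv (Polynomial.mapEquiv fr)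
  have hφ : ∀ f : k[X], φ (algebraMap k[X] K f) = algebraMap k[X] K (f.map (fr : k →+* k)) := by
    intro f
    exact IsFractionRing.ringEquivOfRingEquiv_algebraMap _ f
  have hfix : ∀ f : k[X], (∀ i, f.coeff i ^ p ^ e = f.coeff i) → f.map (fr : k →+* k) = f := by
    intro f hf
    ext i
    rw [Polynomial.coeff_map]
    exact hf i
  have hLφ : L.map (φ : K →+* K) = L := by
    rw [Polynomial.map_sum]
    refine Finset.sum_congr rfl fun j hj => ?_
    rw [Polynomial.map_mul, Polynomial.map_pow, Polynomial.map_X, Polynomial.map_C]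
    congr 2
    change φ (algebraMap k[X] K (c j)) = _
    rw [hφ, hfix _ (hc j hj)]
  have hcharK : CharP K p := charP_of_injective_algebraMap (algebraMap k K).injective p
  have hder : L.derivative = C (algebraMap k[X] K (c 0)) := by
    rw [Polynomial.derivative_sum, Finset.sum_eq_single 0]
    · simp
    · intro j _ hj
      have h1 : ((q ^ j : ℕ) : K) = 0 := by
        rw [CharP.cast_eq_zero_iff K p]
        exact dvd_pow (dvd_pow_self p he.ne') hj
      rw [Polynomial.derivative_C_mul, Polynomial.derivative_X_pow, h1]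
      simp
    · intro h
      exact absurd h0T h
  have hcK : algebraMap k[X] K (c 0) ≠ 0 := by
    rw [map_ne_zero_iff _ (IsFractionRing.injective k[X] K)]
    exact hc0
  have hsep : L.Separable := by
    rw [Polynomial.separable_def, hder]
    refine ⟨0, C (algebraMap k[X] K (c 0))⁻¹, ?_⟩
    rw [zero_mul, zero_add, ← C_mul, inv_mul_cancel₀ hcK, C_1]
  have hdeg : L.natDegree = q ^ m := by
    apply Polynomial.natDegree_eq_of_le_of_coeff_ne_zero
    · apply Polynomial.natDegree_sum_le_of_forall_le
      intro j hj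
      refine (Polynomial.natDegree_C_mul_X_pow_le _ _).trans ?_
      exact Nat.pow_le_pow_right (by omega) (Finset.le_sup (f := id) hj)
    · rw [Polynomial.finsetSum_coeff, Finset.sum_eq_single m]
      · rw [Polynomial.coeff_C_mul_X_pow, if_pos rfl]
        change algebraMap k[X] K (c (T.sup id)) ≠ 0
        rw [hc1, map_one]
        exact one_ne_zero
      · intro j _ hj
        rw [Polynomial.coeff_C_mul_X_pow, if_neg]
        intro h
        exact hj (Nat.pow_right_injective hq h).symm
      · intro h
        exact absurd hmT h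
  let E := L.SplittingField
  have hFF : IsFF k K := isFF_base (x := (RatFunc.X : RatFunc k)) RatFunc.transcendental_X
    RatFunc.adjoin_X
  have hFFE : IsFF k E := isFF_of_ext (F := K)
  have hGal : IsGalois K E := IsGalois.of_separable_splitting_field hsep
  obtain ⟨Φ, hΦ⟩ := exists_twist (E := E) L φ hLφ
  have hLop : ∀ v : E, Lop (p ^ e) T c v = aeval v L := by
    intro v
    rw [map_sum]
    refine Finset.sum_congr rfl fun j _ => ?_
    rw [map_mul, map_pow, aeval_X, aeval_C]
    rfl
  have hL0 : L ≠ 0 := hsep.ne_zero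
  have hroot : ∀ v : E, Lop (p ^ e) T c v = 0 ↔ v ∈ L.rootSet E := by
    intro v
    rw [hLop, Polynomial.mem_rootSet]
    exact ⟨fun h => ⟨hL0, h⟩, fun h => h.2⟩
  have hcomm : ∀ c : k, Φ (algebraMap k E c) = algebraMap k E (c ^ p ^ e) := by
    intro c
    have h1 : ∀ c : k, algebraMap k K c = algebraMap k[X] K (C c) := fun c => rfl
    rw [IsScalarTower.algebraMap_apply k K E, hΦ, h1, hφ, Polynomial.map_C,
      IsScalarTower.algebraMap_apply k K E, h1]
    rfl
  refine ⟨E, inferInstance, inferInstance, inferInstance, inferInstance, inferInstance, hGal,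
    hFFE, Φ, hcomm, ?_, ?_, ?_, ?_⟩
  · intro f hf
    change Φ (algebraMap K E (algebraMap k[X] K f)) = algebraMap K E (algebraMap k[X] K f)
    rw [hΦ, hφ, hfix f hf]
  · intro σ
    let τ : E ≃+* E := (Φ.symm.trans σ.toRingEquiv).trans Φ
    have hτ : ∀ z, τ (Φ z) = Φ (σ z) := by
      intro z
      change Φ (σ (Φ.symm (Φ z))) = _
      rw [RingEquiv.symm_apply_apply]
    refine ⟨AlgEquiv.ofRingEquiv (f := τ) ?_, hτ⟩
    intro x
    have h1 : algebraMap K E x = Φ (algebraMap K E (φ.symm x)) := by
      rw [hΦ, RingEquiv.apply_symm_apply]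
    rw [h1, hτ, AlgEquiv.commutes]
  · have h1 : Nat.card {v : E // Lop (p ^ e) T c v = 0} = Nat.card (L.rootSet E) :=
      Nat.card_congr (Equiv.subtypeEquivRight hroot)
    rw [h1, Nat.card_eq_fintype_card,
      Polynomial.card_rootSet_eq_natDegree hsep (IsSplittingField.splits E L), hdeg]
  · intro σ hσ
    have h1 : Algebra.adjoin K (L.rootSet E) = ⊤ := IsSplittingField.adjoin_rootSet E L
    have h2 : (σ : E →ₐ[K] E) = ((1 : E ≃ₐ[K] E) : E →ₐ[K] E) := by
      refine AlgHom.ext_of_adjoin_eq_top h1 ?_
      intro v hv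
      exact hσ v ((hroot v).2 hv)
    ext z
    exact DFunLike.congr_fun h2 z

end Pool.Agent.W493.MX
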