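import Pool.Agent.W493.MX.Defs

/-! Project MX (MP_fa5db2_co, S12529), part F: base case, induction and final deduction. -/

set_option autoImplicit false

namespace Pool.Agent.W493.MX

open Finset

section base

variable (k : Type) [Field k] (p e : ℕ) [Fact p.Prime] [CharP k p]

lemma mxf_neg_one_pow (m : ℕ) : (-1 : k) ^ (p ^ m) = -1 := by
  have := map_neg (iterateFrobenius k p m) 1
  rw [map_one, iterateFrobenius_def] at this
  exact this

lemma mxf_base (m : ℕ) (hm : 0 < m) : Good k (p ^ e) {0, m} := by
  have hsup : ({0, m} : Finset ℕ).sup id = m := by simp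
  have hgcd : ({0, m} : Finset ℕ).gcd id = m := by simp
  unfold Good
  rw [hsup, hgcd, Nat.div_self hm]
  refine ⟨0, fun n _ => ⟨fun j => if j = 0 then -1 else 1, fun _ => 1, ?_, ?_, ?_, ?_, ?_, ?_⟩⟩
  · intro j _
    rw [← pow_mul]
    by_cases hj : j = 0
    · simp only [hj, if_true]
      exact mxf_neg_one_pow k p _
    · simp [hj]
  · simp
  · simp [hm.ne']
  · intro i; simp
  · intro i
    rw [Finset.sum_insert (by simp [hm.ne]), Finset.sum_singleton]
    simp [hm.ne']
  · intro b _ hb i
    have := Fin.sum_univ_one (fun i => b i * (1 : k))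
    rw [this] at hb
    have hi : i = 0 := Subsingleton.elim _ _
    rw [hi]; simpa using hb

end base

lemma mxf_ind (hS : S_S) (k : Type) [Field k] [IsAlgClosed k] (p e : ℕ) [Fact p.Prime] [CharP k p]
    (he : 0 < e) : ∀ N : ℕ, ∀ T : Finset ℕ, T.card = N → 0 ∈ T → 2 ≤ T.card → Good k (p ^ e) T := by
  intro N
  induction N with
  | zero => intro T hT _ h2; omega
  | succ N ih =>
    intro T hTc h0 h2
    have hU : (T.erase 0).card = N := by rw [Finset.card_erase_of_mem h0, hTc]; rfl
    have hUne : (T.erase 0).Nonempty := by rw [← Finset.card_pos]; omega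
    obtain ⟨a, ha, hmin⟩ := (T.erase 0).exists_min_image id hUne
    simp only [id] at hmin
    have ha0 : a ≠ 0 := Finset.ne_of_mem_erase ha
    rcases Nat.lt_or_ge 2 T.card with h3 | h3
    · -- at least three elements
      set T' : Finset ℕ := (T.erase 0).image (fun x => x - a) with hT'
      have hinj : Set.InjOn (fun x => x - a) ((T.erase 0 : Finset ℕ) : Set ℕ) := by
        intro x hx y hy hxy
        have h1 := hmin x hx
        have h2 := hmin y hy
        simp only at hxy
        omega
      have hT'c : T'.card = N := by rw [hT', Finset.card_image_of_injOn hinj, hU]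
      have h0' : 0 ∈ T' := by
        rw [hT', Finset.mem_image]; exact ⟨a, ha, by simp⟩
      have hsup : 0 < T'.sup id := by
        have h4 : 1 < T'.card := by omega
        obtain ⟨x, hx, y, hy, hxy⟩ := Finset.one_lt_card.1 h4
        have h5 : x ≤ T'.sup id := Finset.le_sup (f := id) hx
        have h6 : y ≤ T'.sup id := Finset.le_sup (f := id) hy
        omega
      have hgood := hS k p e he T' a h0' hsup (Nat.pos_of_ne_zero ha0) (ih T' hT'c h0' (by omega))
      have hTeq : insert 0 (T'.image (a + ·)) = T := by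
        rw [hT', Finset.image_image]
        ext x
        simp only [Finset.mem_insert, Finset.mem_image, Function.comp]
        constructor
        · rintro (rfl | ⟨y, hy, rfl⟩)
          · exact h0
          · have := hmin y hy
            have h7 : a + (y - a) = y := by omega
            rw [h7]; exact Finset.mem_of_mem_erase hy
        · intro hx
          by_cases hx0 : x = 0
          · exact Or.inl hx0
          · right
            have hxU : x ∈ T.erase 0 := Finset.mem_erase.2 ⟨hx0, hx⟩
            exact ⟨x, hxU, by have := hmin x hxU; omega⟩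
      rw [← hTeq]
      exact hgood
    · have hc2 : T.card = 2 := le_antisymm h3 h2
      have hU1 : (T.erase 0).card = 1 := by omega
      obtain ⟨m, hm⟩ := Finset.card_eq_one.1 hU1
      have hTeq : T = {0, m} := by
        rw [← Finset.insert_erase h0, hm]
      have hm0 : m ≠ 0 := by
        have : m ∈ T.erase 0 := by rw [hm]; simp
        exact Finset.ne_of_mem_erase this
      rw [hTeq]
      exact mxf_base k p e m (Nat.pos_of_ne_zero hm0)

/-- the image of the Galois field in an algebraically closed field -/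
lemma mxf_range {k : Type} [Field k] (p N : ℕ) [Fact p.Prime] (hN : N ≠ 0)
    (ι : GaloisField p N →+* k) (x : k) (hx : x ^ p ^ N = x) : ∃ y, ι y = x := by
  classical
  have hcard : Nat.card (GaloisField p N) = p ^ N := GaloisField.card p N hN
  have : Finite (GaloisField p N) := Nat.finite_of_card_ne_zero
    (by rw [hcard]; exact pow_ne_zero _ (Fact.out : p.Prime).ne_zero)
  have : Fintype (GaloisField p N) := Fintype.ofFinite _
  have hfc : Fintype.card (GaloisField p N) = p ^ N := by rw [← Nat.card_eq_fintype_card, hcard]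
  have hp1 : 1 < p ^ N := Nat.one_lt_pow hN (Fact.out : p.Prime).one_lt
  set R : Finset k := ((Polynomial.X ^ (p ^ N) - Polynomial.X : Polynomial k).roots).toFinset with hR
  have hne : (Polynomial.X ^ (p ^ N) - Polynomial.X : Polynomial k) ≠ 0 :=
    FiniteField.X_pow_card_sub_X_ne_zero k hp1
  have hRc : R.card ≤ p ^ N := by
    refine (Multiset.toFinset_card_le _).trans ?_
    refine (Polynomial.card_roots' _).trans ?_
    rw [FiniteField.X_pow_card_sub_X_natDegree_eq k hp1]
  have hsub : (Finset.univ.image ι) ⊆ R := by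
    intro z hz
    rw [Finset.mem_image] at hz
    obtain ⟨y, _, rfl⟩ := hz
    rw [hR, Multiset.mem_toFinset, Polynomial.mem_roots hne]
    simp only [Polynomial.IsRoot.def, Polynomial.eval_sub, Polynomial.eval_pow, Polynomial.eval_X]
    rw [← map_pow, ← hfc, FiniteField.pow_card, sub_self]
  have hic : (Finset.univ.image ι).card = p ^ N := by
    rw [Finset.card_image_of_injective _ ι.injective, Finset.card_univ, hfc]
  have heq : Finset.univ.image ι = R := Finset.eq_of_subset_of_card_le hsub (by rw [hic]; exact hRc)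
  have hxR : x ∈ R := by
    rw [hR, Multiset.mem_toFinset, Polynomial.mem_roots hne]
    simp [hx]
  rw [← heq, Finset.mem_image] at hxR
  obtain ⟨y, _, hy⟩ := hxR
  exact ⟨y, hy⟩

lemma mxf_fix {k : Type} [Field k] (x : k) (q : ℕ) (h : x ^ q = x) (j : ℕ) : x ^ q ^ j = x := by
  induction j with
  | zero => simp
  | succ j ih => rw [pow_succ, pow_mul, ih, h]

lemma mxf_pp {k : Type} [Field k] (x : k) (q μ j : ℕ) : x ^ q ^ (μ + j) = (x ^ q ^ j) ^ q ^ μ := by
  rw [pow_add, mul_comm, pow_mul]

/-- the combinatorial part: a set which is not an arithmetic progression is sparse -/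
lemma mxf_comb (t : Finset ℕ)
    (ht : ¬ ∃ a d : ℕ, t = (Finset.range t.card).image (fun i => a + i * d)) :
    ∃ μ : ℕ, ∃ T : Finset ℕ, T.image (μ + ·) = t ∧ 0 ∈ T ∧ 2 ≤ T.card ∧
      T.card ≤ T.sup id / T.gcd id := by
  classical
  have hne : t.Nonempty := by
    rw [Finset.nonempty_iff_ne_empty]
    rintro rfl
    exact ht ⟨0, 0, by simp⟩
  obtain ⟨μ, hμ, hmin⟩ := t.exists_min_image id hne
  simp only [id] at hmin
  have hinj : Set.InjOn (fun x => x - μ) (t : Set ℕ) := by
    intro x hx y hy hxy
    have h1 := hmin x hx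
    have h2 := hmin y hy
    simp only at hxy
    omega
  set T : Finset ℕ := t.image (fun x => x - μ) with hT
  have hTc : T.card = t.card := by rw [hT, Finset.card_image_of_injOn hinj]
  have hTt : T.image (μ + ·) = t := by
    rw [hT, Finset.image_image]
    ext x
    simp only [Finset.mem_image, Function.comp]
    constructor
    · rintro ⟨y, hy, rfl⟩
      have := hmin y hy
      have h7 : μ + (y - μ) = y := by omega
      rwa [h7]
    · intro hx
      exact ⟨x, hx, by have := hmin x hx; omega⟩
  have h0 : 0 ∈ T := by rw [hT, Finset.mem_image]; exact ⟨μ, hμ, by simp⟩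
  have h2 : 2 ≤ T.card := by
    by_contra hlt
    have h1 : T.card = 1 := by
      have : 0 < T.card := Finset.card_pos.2 ⟨0, h0⟩
      omega
    apply ht
    rw [hTc] at h1
    obtain ⟨x, hx⟩ := Finset.card_eq_one.1 h1
    exact ⟨x, 0, by rw [hx]; simp⟩
  refine ⟨μ, T, hTt, h0, h2, ?_⟩
  set m := T.sup id with hm
  set g := T.gcd id with hg
  have hmT : m ∈ T := by
    obtain ⟨x, hx, hxm⟩ := Finset.exists_mem_eq_sup T ⟨0, h0⟩ id
    rw [hm, hxm]; exact hx
  have hmpos : 0 < m := by
    obtain ⟨x, hx, y, hy, hxy⟩ := Finset.one_lt_card.1 h2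
    have h5 : x ≤ T.sup id := Finset.le_sup (f := id) hx
    have h6 : y ≤ T.sup id := Finset.le_sup (f := id) hy
    omega
  have hgpos : 0 < g := by
    rw [Nat.pos_iff_ne_zero]
    intro h
    rw [hg, Finset.gcd_eq_zero_iff] at h
    have := h m hmT
    simp only [id] at this
    omega
  have hsub : T ⊆ (Finset.range (m / g + 1)).image (fun i => i * g) := by
    intro x hx
    have h5 : x ≤ m := Finset.le_sup (f := id) hx
    have h6 : g ∣ x := Finset.gcd_dvd (f := id) hx
    obtain ⟨i, rfl⟩ := h6
    rw [Finset.mem_image]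
    refine ⟨i, ?_, by ring⟩
    rw [Finset.mem_range, Nat.lt_succ_iff, Nat.le_div_iff_mul_le hgpos, mul_comm]
    exact h5
  have hle : T.card ≤ m / g + 1 := by
    refine (Finset.card_le_card hsub).trans ?_
    exact Finset.card_image_le.trans (by simp)
  by_contra hlt
  have heq : T.card = m / g + 1 := by omega
  have hTeq : T = (Finset.range (m / g + 1)).image (fun i => i * g) := by
    refine Finset.eq_of_subset_of_card_le hsub ?_
    rw [heq]
    exact Finset.card_image_le.trans (by simp)
  apply ht
  refine ⟨μ, g, ?_⟩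
  rw [← hTc, heq]
  conv_lhs => rw [← hTt, hTeq]
  rw [Finset.image_image]
  rfl

theorem s_F : S_F := by
  intro hS p _ e he t _ ht
  classical
  obtain ⟨μ, T, hTt, h0, h2, hcard⟩ := mxf_comb t ht
  set k := AlgebraicClosure (ZMod p) with hk
  have : CharP k p := charP_of_injective_algebraMap (algebraMap (ZMod p) k).injective p
  obtain ⟨N, hN⟩ := mxf_ind hS k p e he T.card T rfl h0 h2
  generalize hM : T.sup id / T.gcd id = M at hN hcard
  refine ⟨N, fun n hn => ?_⟩
  obtain ⟨c, v, hc, hc0, hcm, hv, hroot, hind⟩ := hN n hn.le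
  have hn0 : n ≠ 0 := by omega
  have hen : e * n ≠ 0 := Nat.mul_ne_zero he.ne' hn0
  set q := p ^ e with hq
  have hq1 : 1 < q := Nat.one_lt_pow he.ne' (Fact.out : p.Prime).one_lt
  have hqn : q ^ n = p ^ (e * n) := by rw [hq, pow_mul]
  -- embeddings
  let ι : GaloisField p (e * n) →+* k := (IsAlgClosed.lift : GaloisField p (e * n) →ₐ[ZMod p] k).toRingHom
  let κ : GaloisField p e →+* k := (IsAlgClosed.lift : GaloisField p e →ₐ[ZMod p] k).toRingHom
  have hκ : ∀ y : GaloisField p e, κ y ^ q = κ y := by
    intro y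
    have hcard' : Nat.card (GaloisField p e) = p ^ e := GaloisField.card p e he.ne'
    have : Finite (GaloisField p e) := Nat.finite_of_card_ne_zero
      (by rw [hcard']; exact pow_ne_zero _ (Fact.out : p.Prime).ne_zero)
    have : Fintype (GaloisField p e) := Fintype.ofFinite _
    rw [← map_pow, hq, ← hcard', Nat.card_eq_fintype_card, FiniteField.pow_card]
  have hlift : ∀ x : k, x ^ q ^ n = x → ∃ y, ι y = x := by
    intro x hx
    exact mxf_range p (e * n) hen ι x (by rw [← hqn]; exact hx)
  -- additivity of powers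
  have hsumpow : ∀ (j : ℕ) (s : Finset ℕ) (f : ℕ → k), (∑ i ∈ s, f i) ^ q ^ j = ∑ i ∈ s, f i ^ q ^ j := by
    intro j s f
    rw [hq, ← pow_mul]
    exact sum_pow_char_pow p (e * j) s f
  have hsumpow' : ∀ (j : ℕ) (f : Fin M → k), (∑ i, f i) ^ q ^ j = ∑ i, f i ^ q ^ j := by
    intro j f
    rw [hq, ← pow_mul]
    exact sum_pow_char_pow p (e * j) Finset.univ f
  have hgj : ∀ j ∈ T, T.gcd id ∣ j := fun j hj => Finset.gcd_dvd (f := id) hj
  -- choice of the coefficients
  have hcl : ∀ j : ℕ, ∃ y : GaloisField p (e * n), j ∈ T → ι y = c j ^ q ^ μ := by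
    intro j
    by_cases hj : j ∈ T
    · obtain ⟨y, hy⟩ := hlift (c j ^ q ^ μ) (by rw [← pow_mul, mul_comm, pow_mul, hc j hj])
      exact ⟨y, fun _ => hy⟩
    · exact ⟨0, fun h => absurd h hj⟩
  choose a' ha' using hcl
  have hmT : T.sup id ∈ T := by
    obtain ⟨x, hx, hxm⟩ := Finset.exists_mem_eq_sup T ⟨0, h0⟩ id
    rw [hxm]; exact hx
  refine ⟨fun i => a' (i - μ), ⟨μ + T.sup id, ?_, ?_⟩, ?_⟩
  · rw [← hTt, Finset.mem_image]; exact ⟨_, hmT, rfl⟩
  · intro h
    simp only [Nat.add_sub_cancel_left] at h
    have h3 := ha' _ hmT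
    rw [h, map_zero, hcm, one_pow] at h3
    exact zero_ne_one h3
  · -- the roots
    have hb : ∀ b : Fin M → GaloisField p e, ∃ y : GaloisField p (e * n),
        ι y = ∑ i, κ (b i) * v i := by
      intro b
      apply hlift
      rw [hsumpow']
      refine Finset.sum_congr rfl fun i _ => ?_
      rw [mul_pow, hv, mxf_fix _ q (hκ _)]
    choose β hβ using hb
    have hβroot : ∀ b, ∑ i ∈ t, a' (i - μ) * β b ^ q ^ i = 0 := by
      intro b
      apply ι.injective
      rw [map_zero, map_sum, ← hTt, Finset.sum_image (by intro x _ y _ h; exact Nat.add_left_cancel h)]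
      have h4 : ∀ j ∈ T, ι (a' (μ + j - μ) * β b ^ q ^ (μ + j)) =
          (c j * (∑ i, κ (b i) * v i) ^ q ^ j) ^ q ^ μ := by
        intro j hj
        rw [Nat.add_sub_cancel_left, map_mul, map_pow, ha' j hj, hβ, mul_pow, mxf_pp _ q μ j]
      rw [Finset.sum_congr rfl h4, ← hsumpow]
      have h5 : ∑ j ∈ T, c j * (∑ i, κ (b i) * v i) ^ q ^ j = 0 := by
        have h6 : ∀ j ∈ T, c j * (∑ i, κ (b i) * v i) ^ q ^ j =
            ∑ i, κ (b i) * (c j * v i ^ q ^ j) := by
          intro j _
          rw [hsumpow', Finset.mul_sum]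
          refine Finset.sum_congr rfl fun i _ => ?_
          rw [mul_pow, mxf_fix _ q (hκ _)]; ring
        rw [Finset.sum_congr rfl h6, Finset.sum_comm]
        refine Finset.sum_eq_zero fun i _ => ?_
        rw [← Finset.mul_sum, hroot, mul_zero]
      rw [h5, zero_pow (pow_ne_zero _ (by omega))]
    have hinj : Function.Injective (fun b : Fin M → GaloisField p e =>
        (⟨β b, hβroot b⟩ : {x : GaloisField p (e * n) // ∑ i ∈ t, a' (i - μ) * x ^ q ^ i = 0})) := by
      intro b b' h
      have h1 : β b = β b' := congrArg Subtype.val h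
      have h2 : ∑ i, κ (b i - b' i) * v i = 0 := by
        have h3 : ∑ i, κ (b i) * v i = ∑ i, κ (b' i) * v i := by rw [← hβ, ← hβ, h1]
        simp_rw [map_sub, sub_mul, Finset.sum_sub_distrib, h3, sub_self]
      have h4 := hind (fun i => κ (b i - b' i)) (fun i => mxf_fix _ q (hκ _) _) h2
      funext i
      have h5 : κ (b i - b' i) = κ 0 := by rw [h4 i, map_zero]
      exact sub_eq_zero.1 (κ.injective h5)
    have hcn : Nat.card (GaloisField p (e * n)) = p ^ (e * n) := GaloisField.card p (e * n) hen
    have : Finite (GaloisField p (e * n)) := Nat.finite_of_card_ne_zero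
      (by rw [hcn]; exact pow_ne_zero _ (Fact.out : p.Prime).ne_zero)
    have hle := Nat.card_le_card_of_injective _ hinj
    have hce : Nat.card (Fin M → GaloisField p e) = q ^ M := by
      rw [Nat.card_fun, GaloisField.card p e he.ne']
      simp [hq]
    rw [hce] at hle
    have htc : t.card = T.card := by
      rw [← hTt, Finset.card_image_of_injective _ (add_right_injective μ)]
    refine lt_of_lt_of_le ?_ hle
    apply Nat.pow_lt_pow_right hq1
    omega

end Pool.Agent.W493.MX
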