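import Pool.Agent.W493.MX.Basic
import Pool.Agent.W132.AG.AS

/-! Project MX: Hilbert theory of places. -/

set_option autoImplicit false
set_option linter.all false
set_option linter.overlappingInstances false

open Module FF Pool.Agent.H525R3.FFp Pool.Agent.W132.AG Polynomial

namespace Pool.Agent.W493.MX

section
variable {k K : Type} [Field k] [Field K] [Algebra k K]

theorem ord_prod {ι : Type} (P : Place k K) (s : Finset ι) (f : ι → K) (h : ∀ i ∈ s, f i ≠ 0) :
    P.ord (∏ i ∈ s, f i) = ∑ i ∈ s, P.ord (f i) := by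
  classical
  induction s using Finset.induction_on with
  | empty => simpa using P.ord_one
  | insert a s ha ih =>
    rw [Finset.prod_insert ha, Finset.sum_insert ha, P.ord_mul (h a (Finset.mem_insert_self _ _))
      (Finset.prod_ne_zero_iff.2 fun i hi => h i (Finset.mem_insert_of_mem hi)),
      ih fun i hi => h i (Finset.mem_insert_of_mem hi)]

variable [IsAlgClosed k] [IsFF k K]

theorem exists_notMem (T : Finset (Place k K)) : ∃ R : Place k K, R ∉ T := by
  classical
  obtain ⟨x, hx⟩ := exists_D_ne k K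
  have htr : Transcendental k x := (sep_of_D_ne hx).1
  have hDc : ∀ c : k, KaehlerDifferential.D k K (x - algebraMap k K c) ≠ 0 := by
    intro c
    rw [map_sub, Derivation.map_algebraMap, sub_zero]
    exact hx
  have hne : ∀ c : k, x - algebraMap k K c ≠ 0 := fun c => ne_of_trans htr c
  have hz : ∀ c : k, ∃ w : Place k K, 0 < w.ord (x - algebraMap k K c) := by
    intro c
    obtain ⟨h1, h2⟩ := sep_of_D_ne (hDc c)
    obtain ⟨S, hS, -, hsum⟩ := zeros h1 h2
    have := IsFF.finite h1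
    have hpos : 0 < finrank (IntermediateField.adjoin k {x - algebraMap k K c}) K := finrank_pos
    rw [← hsum] at hpos
    obtain ⟨w, hw, -⟩ := Finset.exists_ne_zero_of_sum_ne_zero hpos.ne'
    exact ⟨w, (hS w).1 hw⟩
  have huniq : ∀ (w : Place k K) (c d : k), 0 < w.ord (x - algebraMap k K c) →
      0 < w.ord (x - algebraMap k K d) → c = d := by
    intro w c d hc hd
    by_contra hcd
    have h0 : algebraMap k K (d - c) ≠ 0 := by
      rw [map_ne_zero_iff _ (algebraMap k K).injective]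
      exact sub_ne_zero.2 (Ne.symm hcd)
    have e : (x - algebraMap k K c) - (x - algebraMap k K d) = algebraMap k K (d - c) := by
      rw [map_sub]; ring
    have h1 := w.ord_sub (hne c) (hne d) (by rw [e]; exact h0)
    rw [e, w.ord_const (sub_ne_zero.2 (Ne.symm hcd))] at h1
    have := lt_min hc hd
    omega
  have hfin : {c : k | ∃ w ∈ T, 0 < w.ord (x - algebraMap k K c)}.Finite := by
    have : {c : k | ∃ w ∈ T, 0 < w.ord (x - algebraMap k K c)} =
        ⋃ w ∈ T, {c : k | 0 < w.ord (x - algebraMap k K c)} := by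
      ext c
      simp
    rw [this]
    refine Set.Finite.biUnion T.finite_toSet fun w _ => ?_
    exact Set.Subsingleton.finite fun c hc d hd => huniq w c d hc hd
  have hinf : Infinite k := IsAlgClosed.instInfinite
  obtain ⟨c, hc⟩ := hfin.exists_notMem
  obtain ⟨R, hR⟩ := hz c
  exact ⟨R, fun h => hc ⟨R, h, hR⟩⟩

end

section
variable {k F E : Type} [Field k] [IsAlgClosed k] [Field F] [Field E] [Algebra k F] [Algebra k E]
  [Algebra F E] [IsScalarTower k F E] [FiniteDimensional F E] [IsGalois F E] [IsFF k F] [IsFF k E]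

/-- Composition with an element of the Galois group. -/
noncomputable def cmp (P : Place k E) (σ : E ≃ₐ[F] E) : Place k E := P.comp (σ.restrictScalars k)

omit [FiniteDimensional F E] [IsGalois F E] [IsFF k F] [IsFF k E] [IsAlgClosed k] in
theorem cmp_ord (P : Place k E) (σ : E ≃ₐ[F] E) (z : E) : (cmp P σ).ord z = P.ord (σ z) := rfl

theorem over_cmp (P : Place k E) (σ : E ≃ₐ[F] E) : Over (cmp P σ) (und F P) (eI F P) :=
  over_comp P σ

theorem trans_aux (P P' : Place k E) (h : und F P = und F P') : ∃ σ : E ≃ₐ[F] E, P' = cmp P σ := by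
  classical
  by_contra hc
  push Not at hc
  let T1 : Finset (Place k E) := Finset.univ.image fun σ : E ≃ₐ[F] E => cmp P' σ
  let T2 : Finset (Place k E) := Finset.univ.image fun σ : E ≃ₐ[F] E => cmp P σ
  have hdis : ∀ w ∈ T1, w ∉ T2 := by
    intro w h1 h2
    obtain ⟨σ, -, rfl⟩ := Finset.mem_image.1 h1
    obtain ⟨τ, -, hτ⟩ := Finset.mem_image.1 h2
    apply hc (τ * σ⁻¹)
    apply Place.ext
    funext z
    have h3 : (cmp P τ).ord (σ⁻¹ z) = (cmp P' σ).ord (σ⁻¹ z) :=
      congrArg (fun w : Place k E => w.ord (σ⁻¹ z)) hτ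
    rw [cmp_ord, cmp_ord] at h3
    rw [cmp_ord, AlgEquiv.mul_apply, h3, ← AlgEquiv.mul_apply, mul_inv_cancel, AlgEquiv.one_apply]
  let T : Finset (Place k E) := T1 ∪ T2
  obtain ⟨R, hR⟩ := exists_notMem T
  obtain ⟨γ, N, -, hN⟩ := riemann (k := k) (K := E)
  let D0 : Place k E →₀ ℤ := Finsupp.indicator T fun _ _ => (-1 : ℤ)
  let m : ℕ := (N - ddeg D0).toNat
  let D : Place k E →₀ ℤ := D0 + Finsupp.single R (m : ℤ)
  have hD : N ≤ ddeg D := by
    have h1 : ddeg D = ddeg D0 + m * R.deg := by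
      rw [ddeg_add, ddeg_single]
    rw [h1, deg_one R]
    have : N - ddeg D0 ≤ (m : ℤ) := Int.self_le_toNat _
    push_cast
    omega
  have hDT : ∀ w ∈ T, D w = -1 := by
    intro w hw
    have h1 : R ≠ w := fun h => hR (h ▸ hw)
    rw [Finsupp.add_apply, Finsupp.single_apply, if_neg h1, add_zero,
      Finsupp.indicator_of_mem hw]
  obtain ⟨g, hg, -⟩ := approx hN D hD T (fun w => if w ∈ T2 then -1 else 0)
  have hone : cmp P 1 ∈ T2 := Finset.mem_image.2 ⟨1, Finset.mem_univ _, rfl⟩
  -- values on the second orbit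
  have hg2 : ∀ w ∈ T2, g ≠ 0 ∧ w.ord g = 0 := by
    intro w hw
    have h1 := hg w (Finset.mem_union_right _ hw)
    rw [if_pos hw, hDT w (Finset.mem_union_right _ hw)] at h1
    rcases h1 with h1 | h1
    · have : g = 1 := by linear_combination h1
      rw [this]
      exact ⟨one_ne_zero, w.ord_one⟩
    · have h2 : g + -1 ≠ 0 := by
        intro h0
        rw [h0, w.ord_zero] at h1
        omega
      have h3 := w.ord_add_eq (f := 1) (g := g + -1) one_ne_zero h2 (by rw [w.ord_one]; omega)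
      have e : 1 + (g + -1) = g := by ring
      rw [e, w.ord_one] at h3
      exact h3
  have hg0 : g ≠ 0 := (hg2 _ hone).1
  have hg1 : ∀ w ∈ T1, 0 < w.ord g := by
    intro w hw
    have h1 := hg w (Finset.mem_union_left _ hw)
    rw [if_neg (hdis w hw), hDT w (Finset.mem_union_left _ hw), add_zero] at h1
    rcases h1 with h1 | h1
    · exact absurd h1 hg0
    · omega
  -- the norm
  have hnorm : algebraMap F E (Algebra.norm F g) = ∏ σ : E ≃ₐ[F] E, σ g :=
    Algebra.norm_eq_prod_automorphisms F g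
  have hσ0 : ∀ σ ∈ (Finset.univ : Finset (E ≃ₐ[F] E)), σ g ≠ 0 := fun σ _ =>
    (map_ne_zero_iff _ σ.injective).2 hg0
  have e1 : P.ord (algebraMap F E (Algebra.norm F g)) = 0 := by
    rw [hnorm, ord_prod P _ _ hσ0]
    refine Finset.sum_eq_zero fun σ _ => ?_
    rw [← cmp_ord]
    exact (hg2 _ (Finset.mem_image.2 ⟨σ, Finset.mem_univ _, rfl⟩)).2
  have e2 : 0 < P'.ord (algebraMap F E (Algebra.norm F g)) := by
    rw [hnorm, ord_prod P' _ _ hσ0]
    refine Finset.sum_pos (fun σ _ => ?_) ⟨1, Finset.mem_univ _⟩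
    rw [← cmp_ord]
    exact hg1 _ (Finset.mem_image.2 ⟨σ, Finset.mem_univ _, rfl⟩)
  have h1 := over_und (F := F) P
  have h2 := over_und (F := F) P'
  rw [h1.2] at e1
  rw [h2.2, ← h] at e2
  rcases mul_eq_zero.1 e1 with h3 | h3
  · have := h1.1
    omega
  · rw [h3, mul_zero] at e2
    exact lt_irrefl _ e2

theorem eI_fib {P P' : Place k E} (h : und F P = und F P') : eI F P' = eI F P := by
  obtain ⟨σ, rfl⟩ := trans_aux P P' h
  exact eI_eq (over_cmp P σ)

theorem card_fib_aux (P : Place k E) : (fibS E (und F P)).card * eI F P = finrank F E := by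
  have h1 := sum_fibS (E := E) (und F P)
  rw [deg_one, mul_one] at h1
  rw [← h1, Finset.sum_congr rfl (g := fun _ => eI F P), Finset.sum_const, smul_eq_mul]
  intro w hw
  rw [deg_one, mul_one]
  exact eI_fib (mem_fibS.1 hw).symm

theorem card_orbit_aux (P : Place k E) :
    (fibS E (und F P)).card * Nat.card {σ : E ≃ₐ[F] E // Stb P σ} = finrank F E := by
  classical
  have h1 : ∀ σ ∈ (Finset.univ : Finset (E ≃ₐ[F] E)), cmp P σ ∈ fibS E (und F P) := fun σ _ =>
    mem_fibS.2 (und_eq (over_cmp P σ))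
  have h2 := Finset.card_eq_sum_card_fiberwise h1
  rw [Finset.card_univ, ← Nat.card_eq_fintype_card, IsGalois.card_aut_eq_finrank] at h2
  rw [h2, Finset.sum_const_nat (m := Nat.card {σ : E ≃ₐ[F] E // Stb P σ})]
  intro P' hP'
  obtain ⟨σ0, rfl⟩ := trans_aux P P' (mem_fibS.1 hP').symm
  rw [Nat.card_eq_fintype_card, Fintype.card_subtype]
  refine Finset.card_bij (fun σ _ => σ * σ0⁻¹) ?_ ?_ ?_
  · intro σ hσ
    rw [Finset.mem_filter] at hσ ⊢
    refine ⟨Finset.mem_univ _, fun z => ?_⟩
    have h3 : (cmp P σ).ord (σ0⁻¹ z) = (cmp P σ0).ord (σ0⁻¹ z) :=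
      congrArg (fun w : Place k E => w.ord (σ0⁻¹ z)) hσ.2
    rw [cmp_ord, cmp_ord] at h3
    rw [AlgEquiv.mul_apply, h3, ← AlgEquiv.mul_apply, mul_inv_cancel, AlgEquiv.one_apply]
  · intro σ _ τ _ h
    exact mul_right_cancel h
  · intro τ hτ
    refine ⟨τ * σ0, ?_, mul_inv_cancel_right τ σ0⟩
    rw [Finset.mem_filter] at hτ ⊢
    refine ⟨Finset.mem_univ _, ?_⟩
    apply Place.ext
    funext z
    rw [cmp_ord, cmp_ord, AlgEquiv.mul_apply]
    exact hτ.2 (σ0 z)

theorem card_stab_aux (P : Place k E) : Nat.card {σ : E ≃ₐ[F] E // Stb P σ} = eI F P := by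
  have h1 := card_orbit_aux (F := F) P
  rw [← card_fib_aux (F := F) P] at h1
  have h2 : 0 < (fibS E (und F P)).card := Finset.card_pos.2 ⟨P, mem_fibS.2 rfl⟩
  exact Nat.eq_of_mul_eq_mul_left h2 h1

/-- The stabiliser of a place. -/
def stab (F : Type) [Field F] [Algebra k F] [Algebra F E] [IsScalarTower k F E] (P : Place k E) :
    Subgroup (E ≃ₐ[F] E) where
  carrier := {σ | Stb P σ}
  mul_mem' := fun h h' => h.mul h'
  one_mem' := Stb.one P
  inv_mem' := fun h => h.inv

end

theorem s_G1 : S_G1 := by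
  intro k F E _ _ _ _ _ _ _ _ _ _ _ _ P P' h
  obtain ⟨σ, hσ⟩ := trans_aux P P' h
  refine ⟨σ, fun z => ?_⟩
  rw [hσ]
  rfl

theorem s_G2 : S_G2 := by
  intro k F E _ _ _ _ _ _ _ _ _ _ _ _ P
  exact ⟨card_stab_aux P, card_fib_aux P⟩

theorem s_G3 : S_G3 := by
  intro k F E _ _ _ _ _ _ _ _ _ _ _ _ P x hx
  let D : Subgroup (E ≃ₐ[F] E) := stab F P
  let K' : IntermediateField F E := IntermediateField.fixedField D
  have hKFF : IsFF k K' := isFF_of_ext (F := F)
  have hT : IsScalarTower k K' E := IsScalarTower.of_algebraMap_eq (fun c => by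
    rw [IsScalarTower.algebraMap_apply k F E, IsScalarTower.algebraMap_apply k F K']
    rfl)
  have h1 : Nat.card {σ : E ≃ₐ[K'] E // Stb P σ} = eI K' P := card_stab_aux P
  have h2 : Nat.card {σ : E ≃ₐ[F] E // Stb P σ} = eI F P := card_stab_aux P
  have hall : ∀ σ : E ≃ₐ[K'] E, Stb P σ := by
    intro σ
    have h3 : (σ.restrictScalars F) ∈ IntermediateField.fixingSubgroup K' := by
      rw [IntermediateField.mem_fixingSubgroup_iff]
      intro y hy
      exact σ.commutes ⟨y, hy⟩
    rw [IntermediateField.fixingSubgroup_fixedField] at h3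
    exact h3
  have h3 : Nat.card (E ≃ₐ[K'] E) = Nat.card D := by
    rw [← Nat.card_congr (IntermediateField.fixingSubgroupEquiv K').toEquiv,
      IntermediateField.fixingSubgroup_fixedField]
  have h4 : Nat.card {σ : E ≃ₐ[K'] E // Stb P σ} = Nat.card (E ≃ₐ[K'] E) :=
    Nat.card_congr (Equiv.subtypeUnivEquiv hall)
  have h5 : Nat.card D = Nat.card {σ : E ≃ₐ[F] E // Stb P σ} := rfl
  have he : eI K' P = eI F P := by
    rw [← h1, h4, h3, h5, h2]
  have hxK : x ∈ K' := by
    rw [IntermediateField.mem_fixedField_iff]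
    intro σ hσ
    exact hx σ hσ
  have h6 := (over_und (F := K') P).2 ⟨x, hxK⟩
  rw [he] at h6
  exact ⟨_, h6⟩

end Pool.Agent.W493.MX
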