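import Pool.Agent.W493.MX.Defs

set_option autoImplicit false

open Polynomial

namespace Pool.Agent.W493.MX

theorem s_I : S_I := by
  intro k _ _ p e _ _ he d hd
  have hp : p.Prime := Fact.out
  set N : ℕ := (p ^ e) ^ d with hN
  have hN2 : 2 ≤ N := by
    have h1 : 2 ≤ p ^ e := le_trans hp.two_le (Nat.le_self_pow he.ne' p)
    exact le_trans h1 (Nat.le_self_pow hd.ne' _)
  have hN0 : (N : k) = 0 := by
    rw [hN, ← pow_mul, Nat.cast_pow, CharP.cast_eq_zero k p, zero_pow (Nat.mul_pos he hd).ne']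
  have hN1 : ((N - 1 : ℕ) : k) = -1 := by
    rw [Nat.cast_sub (by omega), hN0, Nat.cast_one, zero_sub]
  have : NeZero ((N - 1 : ℕ) : k) := ⟨by rw [hN1]; exact neg_ne_zero.mpr one_ne_zero⟩
  obtain ⟨ζ, hζ⟩ := HasEnoughRootsOfUnity.exists_primitiveRoot k (N - 1)
  have hζ0 : ζ ≠ 0 := hζ.ne_zero (by omega)
  have hζN : ζ ^ N = ζ := by
    have : N = (N - 1) + 1 := by omega
    rw [this, pow_succ, hζ.pow_eq_one, one_mul]
  have hfix0 : (0:k) ^ p ^ e = 0 := zero_pow (pow_pos hp.pos e).ne'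
  refine ⟨ζ, X ^ (N - 1) - 1, hζ0, hζN, ?_, ?_, ?_, ?_, ?_⟩
  · intro i
    rw [coeff_sub, coeff_X_pow, coeff_one, sub_pow_char_pow]
    congr 1
    · split_ifs
      · rw [one_pow]
      · exact hfix0
    · split_ifs
      · rw [one_pow]
      · exact hfix0
  · rw [eval_sub, eval_pow, eval_X, eval_one, zero_pow (by omega), zero_sub]
    exact neg_ne_zero.mpr one_ne_zero
  · rw [eval_sub, eval_pow, eval_X, eval_one, hζ.pow_eq_one, sub_self]
  · rw [derivative_sub, derivative_X_pow, derivative_one, sub_zero, eval_mul, eval_C, eval_pow,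
      eval_X, hN1]
    exact mul_ne_zero (neg_ne_zero.mpr one_ne_zero) (pow_ne_zero _ hζ0)
  · intro γ hγ
    by_cases hγ0 : γ = 0
    · refine ⟨0, fun i => ?_, ?_⟩
      · rw [coeff_zero]; exact hfix0
      · rw [eval_zero, hγ0]
    · have h1 : γ ^ (N - 1) = 1 := by
        have h2 : γ ^ (N - 1) * γ = 1 * γ := by
          rw [← pow_succ, one_mul]
          have : N - 1 + 1 = N := by omega
          rw [this]; exact hγ
        exact mul_right_cancel₀ hγ0 h2
      have : NeZero (N - 1) := ⟨by omega⟩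
      obtain ⟨i, -, hi⟩ := hζ.eq_pow_of_pow_eq_one h1
      refine ⟨X ^ i, fun j => ?_, ?_⟩
      · rw [coeff_X_pow]
        split_ifs
        · rw [one_pow]
        · exact hfix0
      · rw [eval_pow, eval_X, hi]

end Pool.Agent.W493.MX
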