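import Pool.Agent.W493.MX.Basic

/-! Project MX: determinants (s_N). -/

set_option autoImplicit false
set_option linter.all false
set_option linter.overlappingInstances false

open Module FF Pool.Agent.H525R3.FFp Pool.Agent.W132.AG Polynomial

namespace Pool.Agent.W493.MX

/-- The field of the solutions of `c ^ A = c`. -/
def LFix (F1 k : Type) [Field F1] [Field k] [Algebra F1 k] (A : ℕ) (h0 : A ≠ 0)
    (hA : ∀ x y : k, (x + y) ^ A = x ^ A + y ^ A) (h1 : ∀ c : F1, c ^ A = c) :
    IntermediateField F1 k where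
  carrier := {c | c ^ A = c}
  mul_mem' := by
    intro a b ha hb
    show (a * b) ^ A = a * b
    rw [mul_pow, show a ^ A = a from ha, show b ^ A = b from hb]
  one_mem' := one_pow A
  add_mem' := by
    intro a b ha hb
    show (a + b) ^ A = a + b
    rw [hA, show a ^ A = a from ha, show b ^ A = b from hb]
  zero_mem' := zero_pow h0
  algebraMap_mem' := by
    intro c
    show (algebraMap F1 k c) ^ A = algebraMap F1 k c
    rw [← map_pow, h1]
  inv_mem' := by
    intro a ha
    show (a⁻¹) ^ A = a⁻¹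
    rw [inv_pow, show a ^ A = a from ha]

theorem mem_LFix {F1 k : Type} [Field F1] [Field k] [Algebra F1 k] {A : ℕ} {h0 : A ≠ 0}
    {hA : ∀ x y : k, (x + y) ^ A = x ^ A + y ^ A} {h1 : ∀ c : F1, c ^ A = c} {c : k} :
    c ∈ LFix F1 k A h0 hA h1 ↔ c ^ A = c := Iff.rfl

theorem card_LFix {F1 k : Type} [Field F1] [Field k] [Algebra F1 k] {A : ℕ} (h2 : 2 ≤ A)
    {h0 : A ≠ 0} {hA : ∀ x y : k, (x + y) ^ A = x ^ A + y ^ A} {h1 : ∀ c : F1, c ^ A = c} :
    Finite (LFix F1 k A h0 hA h1) ∧ Nat.card (LFix F1 k A h0 hA h1) ≤ A := by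
  classical
  have hne : (X ^ A - X : k[X]) ≠ 0 := FiniteField.X_pow_card_sub_X_ne_zero k (by omega)
  have hsub : ((LFix F1 k A h0 hA h1 : IntermediateField F1 k) : Set k) ⊆
      ((X ^ A - X : k[X]).roots.toFinset : Set k) := by
    intro c hc
    rw [Finset.mem_coe, Multiset.mem_toFinset, Polynomial.mem_roots hne, Polynomial.IsRoot.def,
      Polynomial.eval_sub, Polynomial.eval_pow, Polynomial.eval_X, sub_eq_zero]
    exact hc
  have hfin : ((LFix F1 k A h0 hA h1 : IntermediateField F1 k) : Set k).Finite :=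
    (Finset.finite_toSet _).subset hsub
  refine ⟨hfin, ?_⟩
  have h3 : Nat.card (LFix F1 k A h0 hA h1) =
      ((LFix F1 k A h0 hA h1 : IntermediateField F1 k) : Set k).ncard := rfl
  rw [h3]
  calc _ ≤ ((X ^ A - X : k[X]).roots.toFinset : Set k).ncard :=
        Set.ncard_le_ncard hsub (Finset.finite_toSet _)
    _ = (X ^ A - X : k[X]).roots.toFinset.card := Set.ncard_coe_finset _
    _ ≤ Multiset.card (X ^ A - X : k[X]).roots := Multiset.toFinset_card_le _
    _ ≤ (X ^ A - X : k[X]).natDegree := Polynomial.card_roots' _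
    _ = A := FiniteField.X_pow_card_sub_X_natDegree_eq k (by omega)

theorem inj_aux {F1 V L : Type} [Field F1] [AddCommGroup V] [Module F1 V] [Field L]
    [Algebra F1 L] (W : Submodule F1 V) (η : W →ₗ[F1] L) (h : ∀ w, η w = 0 → w = 0) :
    Function.Injective η := by
  rw [← LinearMap.ker_eq_bot, LinearMap.ker_eq_bot']
  exact h

theorem det_aux {F1 V L : Type} [Field F1] [AddCommGroup V] [Module F1 V] [Finite V] [Field L]
    [Algebra F1 L] (W : Submodule F1 V) (η : W →ₗ[F1] L) (hηb : Function.Bijective η) (u : L)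
    (g : V ≃ₗ[F1] V) (hg : ∀ v, g v - v ∈ W)
    (hg2 : ∀ (w : W) (h : g w ∈ W), η ⟨g w, h⟩ = u * η w) :
    LinearMap.det (g : V →ₗ[F1] V) = Algebra.norm F1 u := by
  let ηe : W ≃ₗ[F1] L := LinearEquiv.ofBijective η hηb
  haveI : Module.Finite F1 V := Module.Finite.of_finite
  have he : W ≤ W.comap (g : V →ₗ[F1] V) := by
    intro w hw
    rw [Submodule.mem_comap]
    show g w ∈ W
    have := W.add_mem (hg w) hw
    rwa [sub_add_cancel] at this
  rw [LinearMap.det_eq_det_mul_det W (g : V →ₗ[F1] V) he]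
  have h1 : W.mapQ W (g : V →ₗ[F1] V) he = LinearMap.id := by
    apply Submodule.linearMap_qext
    apply LinearMap.ext
    intro v
    show W.mkQ (g v) = W.mkQ v
    rw [← sub_eq_zero, ← map_sub, Submodule.mkQ_apply, Submodule.Quotient.mk_eq_zero]
    exact hg v
  have h2 : LinearMap.restrict (g : V →ₗ[F1] V) he =
      (ηe.symm : L →ₗ[F1] W) ∘ₗ (Algebra.lmul F1 L u) ∘ₗ (ηe : W →ₗ[F1] L) := by
    apply LinearMap.ext
    intro w
    apply ηe.injective
    show η _ = ηe (ηe.symm (u * η w))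
    rw [LinearEquiv.apply_symm_apply]
    exact hg2 w (he w.2)
  have h3 : LinearMap.det ((ηe.symm : L →ₗ[F1] W) ∘ₗ (Algebra.lmul F1 L u) ∘ₗ
      (ηe : W →ₗ[F1] L)) = LinearMap.det (Algebra.lmul F1 L u) :=
    LinearMap.det_conj (Algebra.lmul F1 L u) ηe.symm
  rw [h1, LinearMap.det_id, mul_one, h2, h3, ← Algebra.norm_apply]

theorem s_N : S_N := by
  intro k E F1 _ _ _ _ _ _ _ _ _ _ P A b V hb hA hfin hreg hcard hratio Γ hΓ d hd
  classical
  have hq : 1 < Nat.card F1 := Finite.one_lt_card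
  have hA2 : 2 ≤ A := by
    rw [hA]
    calc 2 ≤ Nat.card F1 := hq
      _ = Nat.card F1 ^ 1 := (pow_one _).symm
      _ ≤ Nat.card F1 ^ b := Nat.pow_le_pow_right (by omega) hb
  have hA0 : A ≠ 0 := by omega
  haveI : Fintype F1 := Fintype.ofFinite F1
  have hA1 : ∀ c : F1, c ^ A = c := by
    intro c
    rw [hA, Nat.card_eq_fintype_card]
    exact FiniteField.pow_card_pow b c
  have hAadd : ∀ x y : k, (x + y) ^ A = x ^ A + y ^ A := by
    obtain ⟨p, hp⟩ := CharP.exists F1
    haveI := hp
    obtain ⟨n, hp1, hn⟩ := FiniteField.card F1 p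
    haveI : Fact p.Prime := ⟨hp1⟩
    haveI : CharP k p := charP_of_injective_algebraMap (algebraMap F1 k).injective p
    haveI : ExpChar k p := ExpChar.prime hp1
    intro x y
    rw [hA, Nat.card_eq_fintype_card, hn, ← pow_mul]
    exact add_pow_expChar_pow x y p _
  obtain ⟨hLf, hLc⟩ := card_LFix (F1 := F1) (k := k) hA2 (h0 := hA0) (hA := hAadd) (h1 := hA1)
  set L := LFix F1 k A hA0 hAadd hA1 with hL
  haveI := hLf
  -- residues
  have hrv : ∃ rv : P.RF → k, ∀ x, x = algebraMap k P.RF (rv x) := by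
    choose rv hrv using exists_const P
    exact ⟨rv, hrv⟩
  obtain ⟨rv, hrv⟩ := hrv
  have hrv' : ∀ (x : P.RF) (c : k), x = algebraMap k P.RF c → rv x = c := fun x c h =>
    red_const_inj P ((hrv x).symm.trans h)
  have rv0 : rv 0 = 0 := hrv' _ _ (by rw [map_zero])
  have rvadd : ∀ x y, rv (x + y) = rv x + rv y := by
    intro x y
    refine hrv' _ _ ?_
    rw [map_add, ← hrv, ← hrv]
  have hsm : ∀ (c : F1) (e : E), c • e = algebraMap k E (algebraMap F1 k c) * e := by
    intro c e
    rw [Algebra.smul_def, IsScalarTower.algebraMap_apply F1 k E]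
  have rvsm : ∀ (c : F1) (e : E), P.Reg e → rv (P.red (c • e)) = c • rv (P.red e) := by
    intro c e he
    refine hrv' _ _ ?_
    rw [hsm, P.red_mul (P.reg_const _) he, red_const, Algebra.smul_def, map_mul, ← hrv]
  let ρ : V →ₗ[F1] k :=
    { toFun := fun v => rv (P.red (v : E))
      map_add' := by
        intro v w
        rw [Submodule.coe_add, P.red_add (hreg _ v.2) (hreg _ w.2), rvadd]
      map_smul' := by
        intro c v
        rw [Submodule.coe_smul, rvsm _ _ (hreg _ v.2)]
        rfl }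
  have hρ : ∀ v : V, ρ v = rv (P.red (v : E)) := fun _ => rfl
  have hρ0 : ∀ v : V, ρ v = 0 ↔ P.red (v : E) = 0 := by
    intro v
    rw [hρ]
    constructor
    · intro h
      rw [hrv (P.red (v : E)), h, map_zero]
    · intro h; rw [h, rv0]
  set W : Submodule F1 V := LinearMap.ker ρ with hW
  have memW : ∀ v : V, v ∈ W ↔ P.red (v : E) = 0 := fun v => by
    rw [hW, LinearMap.mem_ker]; exact hρ0 v
  haveI hVf : Finite V := hfin
  have hWcard : Nat.card W = A := by
    rw [← hcard]
    refine Nat.card_congr ?_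
    exact
      { toFun := fun w => ⟨((w : V) : E), (w : V).2, (memW _).1 w.2⟩
        invFun := fun w => ⟨⟨w.1, w.2.1⟩, (memW _).2 w.2.2⟩
        left_inv := fun w => rfl
        right_inv := fun w => rfl }
  obtain ⟨w₀, hw₀⟩ : ∃ w : W, w ≠ 0 := by
    by_contra hcon
    push Not at hcon
    have : Nat.card W ≤ 1 := by
      rw [Finite.card_le_one_iff_subsingleton]
      exact ⟨fun a b => by rw [hcon a, hcon b]⟩
    omega
  have hw₀E : ((w₀ : V) : E) ≠ 0 := fun h => hw₀ (Subtype.ext (Subtype.ext h))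
  have hw₀r : P.red ((w₀ : V) : E) = 0 := (memW _).1 w₀.2
  -- ratios
  have hrat : ∀ w : W, w ≠ 0 → P.ord ((w₀ : V) : E) = P.ord ((w : V) : E) ∧
      P.red (((w : V) : E) / ((w₀ : V) : E)) ^ (A - 1) = 1 := by
    intro w hw
    exact hratio _ (w₀ : V).2 _ (w : V).2 hw₀E (fun h => hw (Subtype.ext (Subtype.ext h))) hw₀r
      ((memW _).1 w.2)
  have hregr : ∀ w : W, P.Reg (((w : V) : E) / ((w₀ : V) : E)) := by
    intro w
    by_cases hw : w = 0
    · rw [hw]; left; simp
    · right
      rw [P.ord_div (fun h => hw (Subtype.ext (Subtype.ext h))) hw₀E, (hrat w hw).1, sub_self]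
  have hval : ∀ w : W, rv (P.red (((w : V) : E) / ((w₀ : V) : E))) ∈ L := by
    intro w
    rw [hL, mem_LFix]
    by_cases hw : w = 0
    · rw [hw]
      have : P.red (((((0 : W) : V) : E)) / ((w₀ : V) : E)) = 0 := by
        simp [P.red_zero]
      rw [this, rv0, zero_pow hA0]
    · have h1 := (hrat w hw).2
      rw [hrv (P.red (((w : V) : E) / ((w₀ : V) : E))), ← map_pow,
        ← map_one (algebraMap k P.RF)] at h1
      have h2 := red_const_inj P h1
      calc _ = rv (P.red (((w : V) : E) / ((w₀ : V) : E))) ^ (A - 1 + 1) := by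
            rw [Nat.sub_add_cancel (by omega)]
        _ = _ := by rw [pow_succ, h2, one_mul]
  let η : W →ₗ[F1] L :=
    { toFun := fun w => ⟨rv (P.red (((w : V) : E) / ((w₀ : V) : E))), hval w⟩
      map_add' := by
        intro v w
        apply Subtype.ext
        show rv (P.red ((((v + w : W) : V) : E) / ((w₀ : V) : E))) =
          rv (P.red (((v : V) : E) / ((w₀ : V) : E))) + rv (P.red (((w : V) : E) / ((w₀ : V) : E)))
        rw [← rvadd, ← P.red_add (hregr v) (hregr w), ← add_div]
        rfl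
      map_smul' := by
        intro c v
        apply Subtype.ext
        show rv (P.red ((((c • v : W) : V) : E) / ((w₀ : V) : E))) =
          c • rv (P.red (((v : V) : E) / ((w₀ : V) : E)))
        rw [← rvsm _ _ (hregr v)]
        congr 2
        rw [hsm, ← mul_div_assoc, ← hsm]
        rfl }
  have hη : ∀ w : W, ((η w : L) : k) = rv (P.red (((w : V) : E) / ((w₀ : V) : E))) := fun _ => rfl
  have hηi : Function.Injective η := by
    refine inj_aux W η ?_
    intro w hw
    by_contra hne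
    have h1 := (hrat w hne).2
    have h2 : rv (P.red (((w : V) : E) / ((w₀ : V) : E))) = 0 := by
      rw [← hη, hw]; rfl
    rw [hrv (P.red (((w : V) : E) / ((w₀ : V) : E))), h2, map_zero, zero_pow (by omega)] at h1
    exact zero_ne_one h1
  have hηb : Function.Bijective η :=
    Function.Injective.bijective_of_nat_card_le hηi (by rw [hWcard]; exact hLc)
  obtain ⟨u, hu⟩ := FiniteField.norm_surjective F1 L d
  have hu0 : (u : k) ≠ 0 := by
    intro h
    have : u = 0 := Subtype.ext h
    rw [this, Algebra.norm_zero] at hu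
    exact hd hu.symm
  obtain ⟨g, hgΓ, hg1, hg2⟩ := hΓ _ (w₀ : V).2 hw₀E hw₀r (u : k) hu0 (mem_LFix.1 u.2)
  refine ⟨g, hgΓ, ?_⟩
  rw [← hu]
  refine det_aux W η hηb u g ?_ ?_
  · intro v
    refine (memW _).2 ?_
    show P.red (((g v : V) : E) - (v : E)) = 0
    rw [P.red_sub (hreg _ (g v).2) (hreg _ v.2), hg1, sub_self]
  · intro w h
    apply Subtype.ext
    rw [hη]
    show rv (P.red (((g (w : V) : V) : E) / ((w₀ : V) : E))) = (u : k) * ((η w : L) : k)
    rw [hg2 _ ((memW _).1 w.2)]
    refine hrv' _ _ ?_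
    rw [map_mul, hη, ← hrv]

end Pool.Agent.W493.MX
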