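import Pool.Agent.W493.MX.M5
import Pool.Agent.W493.MX.B
import Pool.Agent.W493.MX.C
import Pool.Agent.W493.MX.D
import Pool.Agent.W493.MX.E
import Pool.Agent.W493.MX.F
import Pool.Agent.W493.MX.G
import Pool.Agent.W493.MX.I
import Pool.Agent.W493.MX.N

/-! Project MX: assembly (modulo Bombieri's bound S_A). -/

set_option autoImplicit false

namespace Pool.Agent.W493.MX

theorem main (hA : S_A) :
    ∀ (p : ℕ) [Fact p.Prime] (e : ℕ), 0 < e →
    ∀ t : Finset ℕ, (∀ x ∈ t, 0 < x) →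
    (¬ ∃ a d : ℕ, t = (Finset.range t.card).image (fun i => a + i * d)) →
    ∃ c : ℕ, ∀ n : ℕ, c < n →
      ∃ a : ℕ → GaloisField p (e * n), (∃ i ∈ t, a i ≠ 0) ∧
        (p ^ e) ^ (t.card - 1) <
          Nat.card {x : GaloisField p (e * n) // ∑ i ∈ t, a i * x ^ ((p ^ e) ^ i) = 0} :=
  s_F (St.s_S s_G1 s_G3 (s_B hA s_G1 s_G2) s_C s_N s_D s_E s_I)

end Pool.Agent.W493.MX
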