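import Pool.Agent.W493.MX.Defs

/-! Project MX: shared lemmas about places over an algebraically closed field. -/

set_option autoImplicit false
set_option linter.all false
set_option linter.overlappingInstances false

open Module FF Pool.Agent.H525R3.FFp Pool.Agent.W132.AG Polynomial

namespace Pool.Agent.W493.MX

section
variable {k K : Type} [Field k] [Field K] [Algebra k K]

/-- Composition of a place with a field automorphism preserving the constants. -/
noncomputable def compR (P : Place k K) (ψ : K ≃+* K)
    (h : ∀ c : k, ∃ c' : k, ψ (algebraMap k K c) = algebraMap k K c') : Place k K where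
  ord f := P.ord (ψ f)
  ord_zero := by rw [map_zero, P.ord_zero]
  ord_mul := by
    intro f g hf hg
    rw [map_mul, P.ord_mul (by simpa using hf) (by simpa using hg)]
  ord_add := by
    intro f g hf hg hfg
    rw [map_add]
    exact P.ord_add (by simpa using hf) (by simpa using hg)
      (by rw [← map_add]; exact (map_ne_zero_iff _ ψ.injective).2 hfg)
  ord_const := by
    intro c hc
    obtain ⟨c', hc'⟩ := h c
    rw [hc']
    apply P.ord_const
    rintro rfl
    rw [map_zero] at hc'
    exact hc (by simpa using hc')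
  surj := by
    obtain ⟨t, h0, ht⟩ := P.surj
    exact ⟨ψ.symm t, by simpa using h0, by simpa using ht⟩

theorem compR_ord (P : Place k K) (ψ : K ≃+* K) (h) (f : K) : (compR P ψ h).ord f = P.ord (ψ f) := rfl

theorem reg_pow' (P : Place k K) {f : K} (hf : P.Reg f) (n : ℕ) : P.Reg (f ^ n) := by
  induction n with
  | zero => rw [pow_zero]; exact P.reg_one
  | succ n ih => rw [pow_succ]; exact P.reg_mul ih hf

theorem reg_sum {ι : Type} (P : Place k K) (s : Finset ι) (f : ι → K) (h : ∀ i ∈ s, P.Reg (f i)) :
    P.Reg (∑ i ∈ s, f i) ∧ P.red (∑ i ∈ s, f i) = ∑ i ∈ s, P.red (f i) := by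
  classical
  induction s using Finset.induction_on with
  | empty => exact ⟨by simpa using P.reg_zero, by simpa using P.red_zero⟩
  | insert a s ha ih =>
    obtain ⟨h1, h2⟩ := ih fun i hi => h i (Finset.mem_insert_of_mem hi)
    have h3 := h a (Finset.mem_insert_self _ _)
    rw [Finset.sum_insert ha, Finset.sum_insert ha]
    exact ⟨P.reg_add h3 h1, by rw [P.red_add h3 h1, h2]⟩

theorem red_const (P : Place k K) (c : k) : P.red (algebraMap k K c) = algebraMap k P.RF c := rfl

theorem reg_of_ord_eq {P Q : Place k K} (h : ∀ f, P.ord f = Q.ord f) : P = Q := Place.ext (funext h)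

/-- A field automorphism which maps the valuation ring to itself preserves the orders. -/
theorem FrobAt.ord {Q : ℕ} {ψ : K ≃+* K} {P : Place k K} (h : FrobAt Q ψ P)
    (hψ : ∀ c : k, ∃ c' : k, ψ (algebraMap k K c) = algebraMap k K c') (f : K) :
    P.ord (ψ f) = P.ord f := by
  have : P = compR P ψ hψ := by
    apply Place.eq_of_le
    intro g hg h0
    rw [compR_ord]
    exact (P.reg_iff (by simpa using hg)).1 (h g (Or.inr h0)).1
  have h2 := congrArg (fun R => Place.ord R f) this
  exact h2.symm

variable [IsAlgClosed k] [IsFF k K]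

theorem deg_one (P : Place k K) : P.deg = 1 := by
  have h1 : 0 < P.deg := deg_pos P
  haveI : FiniteDimensional k P.RF := FiniteDimensional.of_finrank_pos h1
  have h2 : Function.Bijective (algebraMap k P.RF) := IsAlgClosed.algebraMap_bijective_of_isIntegral
  unfold Place.deg
  rw [← (AlgEquiv.ofBijective (Algebra.ofId k P.RF) h2).toLinearEquiv.finrank_eq]
  exact Module.finrank_self k

theorem exists_const (P : Place k K) (x : P.RF) : ∃ c : k, x = algebraMap k P.RF c :=
  exists_value P (deg_one P) x

theorem red_const_inj (P : Place k K) {c d : k} (h : algebraMap k P.RF c = algebraMap k P.RF d) : c = d :=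
  (algebraMap k P.RF).injective h

/-- every regular element is a constant plus an element of positive order -/
theorem exists_const_sub (P : Place k K) {f : K} (hf : P.Reg f) :
    ∃ c : k, P.red f = algebraMap k P.RF c ∧ P.Reg (f - algebraMap k K c) ∧
      P.red (f - algebraMap k K c) = 0 := by
  obtain ⟨c, hc⟩ := exists_const P (P.red f)
  have h1 := P.reg_const c
  refine ⟨c, hc, ?_, ?_⟩
  · rw [sub_eq_add_neg]; exact P.reg_add hf (P.reg_neg h1)
  · rw [P.red_sub hf h1, hc, red_const, sub_self]

/-- A field automorphism which preserves the orders and acts on constants as the `Q`-power map acts on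
residues as the `Q`-power map. -/
theorem frobAt_of_ord {Q : ℕ} {ψ : K ≃+* K} {P : Place k K}
    (hψ : ∀ c : k, ψ (algebraMap k K c) = algebraMap k K (c ^ Q))
    (h : ∀ f, P.ord (ψ f) = P.ord f) : FrobAt Q ψ P := by
  have hreg : ∀ f, P.Reg f → P.Reg (ψ f) := by
    intro f hf
    rcases hf with rfl | hf
    · left; rw [map_zero]
    · right; rw [h]; exact hf
  intro f hf
  refine ⟨hreg f hf, ?_⟩
  obtain ⟨c, hc, h1, h2⟩ := exists_const_sub P hf
  have h3 : P.red (ψ (f - algebraMap k K c)) = 0 := by
    rw [P.red_eq_zero_iff (hreg _ h1)]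
    rw [P.red_eq_zero_iff h1] at h2
    rcases h2 with h2 | h2
    · left; rw [h2, map_zero]
    · right; rw [h]; exact h2
  rw [map_sub, hψ, P.red_sub (hreg f hf) (P.reg_const _), sub_eq_zero] at h3
  rw [h3, hc, red_const, map_pow]

end

section
variable {k F E : Type} [Field k] [IsAlgClosed k] [Field F] [Field E] [Algebra k F] [Algebra k E]
  [Algebra F E] [IsScalarTower k F E] [IsFF k E]

theorem aut_const (σ : E ≃ₐ[F] E) (c : k) : σ (algebraMap k E c) = algebraMap k E c := by
  rw [IsScalarTower.algebraMap_apply k F E, AlgEquiv.commutes]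

/-- The stabiliser of a place acts trivially on the residues. -/
theorem Stb.red {P : Place k E} {σ : E ≃ₐ[F] E} (h : Stb P σ) {f : E} (hf : P.Reg f) :
    P.Reg (σ f) ∧ P.red (σ f) = P.red f := by
  have := frobAt_of_ord (Q := 1) (ψ := σ.toRingEquiv) (P := P)
    (fun c => by rw [pow_one]; exact aut_const σ c) h f hf
  rw [pow_one] at this
  exact this

theorem Stb.one (P : Place k E) : Stb P (1 : E ≃ₐ[F] E) := fun _ => rfl

theorem Stb.mul {P : Place k E} {σ τ : E ≃ₐ[F] E} (h : Stb P σ) (h' : Stb P τ) : Stb P (σ * τ) := by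
  intro z
  rw [AlgEquiv.mul_apply, h, h']

theorem Stb.inv {P : Place k E} {σ : E ≃ₐ[F] E} (h : Stb P σ) : Stb P σ⁻¹ := by
  intro z
  have := h (σ⁻¹ z)
  rw [← this, ← AlgEquiv.mul_apply, mul_inv_cancel, AlgEquiv.one_apply]

end

end Pool.Agent.W493.MX
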