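import Pool.Agent.W132.AG.Conorm
import Pool.Agent.W132.AG.Base

/-! Project MX (MP_fa5db2_co, S12529): basic definitions. -/

set_option autoImplicit false
set_option linter.all false
set_option linter.overlappingInstances false

open Module FF Pool.Agent.H525R3.FFp Pool.Agent.W132.AG Polynomial

namespace Pool.Agent.W493.MX

/-- `ψ` maps the valuation ring of `P` to itself and acts on residues as the `Q`-power map. -/
def FrobAt {k K : Type} [Field k] [Field K] [Algebra k K] (Q : ℕ) (ψ : K ≃+* K) (P : Place k K) :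
    Prop :=
  ∀ f, P.Reg f → P.Reg (ψ f) ∧ P.red (ψ f) = P.red f ^ Q

/-- The automorphism `σ` stabilises the place `P`. -/
def Stb {k F E : Type} [Field k] [Field F] [Field E] [Algebra k E] [Algebra F E]
    (P : Place k E) (σ : E ≃ₐ[F] E) : Prop :=
  ∀ z, P.ord (σ z) = P.ord z

/-- A polynomial in `s` as an element of an extension of `k(s)`. -/
noncomputable def cE {k : Type} [Field k] (E : Type) [Field E] [Algebra (RatFunc k) E] (f : k[X]) : E :=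
  algebraMap (RatFunc k) E (algebraMap k[X] (RatFunc k) f)

/-- The linearised polynomial with coefficients `c` and exponents `q ^ j`, `j ∈ T`. -/
noncomputable def Lop {k : Type} [Field k] {E : Type} [Field E] [Algebra (RatFunc k) E]
    (q : ℕ) (T : Finset ℕ) (c : ℕ → k[X]) (x : E) : E :=
  ∑ j ∈ T, cE E (c j) * x ^ (q ^ j)

/-- The inductive statement: for all large `n` there is a linearised polynomial with exponent set `T`,
monic, with nonzero coefficient of `x` and with coefficients in `F_{q^n}`, which has `max T / gcd T`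
roots in `F_{q^n}` that are linearly independent over `F_{q^{gcd T}}`. -/
def Good (k : Type) [Field k] (q : ℕ) (T : Finset ℕ) : Prop :=
  ∃ N : ℕ, ∀ n : ℕ, N ≤ n → ∃ (c : ℕ → k) (v : Fin (T.sup id / T.gcd id) → k),
    (∀ j ∈ T, c j ^ q ^ n = c j) ∧ c 0 ≠ 0 ∧ c (T.sup id) = 1 ∧
    (∀ i, v i ^ q ^ n = v i) ∧ (∀ i, ∑ j ∈ T, c j * v i ^ q ^ j = 0) ∧
    ∀ b : Fin (T.sup id / T.gcd id) → k, (∀ i, b i ^ q ^ T.gcd id = b i) →
      ∑ i, b i * v i = 0 → ∀ i, b i = 0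

/-! ### The statements of the modules -/

/-- MX-A: Bombieri's bound. -/
def S_A : Prop :=
  ∀ (k K : Type) [Field k] [IsAlgClosed k] [Field K] [Algebra k K] [IsFF k K]
    (p : ℕ) [Fact p.Prime] [CharP k p],
  ∃ C N0 : ℕ, ∀ N : ℕ, N0 ≤ N → ∀ ψ : K ≃+* K,
    (∀ c : k, ψ (algebraMap k K c) = algebraMap k K (c ^ p ^ N)) →
    ∀ S : Finset (Place k K), (∀ P ∈ S, FrobAt (p ^ N) ψ P) →
      S.card ≤ p ^ N + C * p ^ (N - N / 2)

/-- MX-G1: the Galois group is transitive on the places over a place. -/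
def S_G1 : Prop :=
  ∀ (k F E : Type) [Field k] [IsAlgClosed k] [Field F] [Field E] [Algebra k F] [Algebra k E]
    [Algebra F E] [IsScalarTower k F E] [FiniteDimensional F E] [IsGalois F E] [IsFF k F] [IsFF k E]
    (P P' : Place k E), und F P = und F P' → ∃ σ : E ≃ₐ[F] E, ∀ z, P'.ord z = P.ord (σ z)

/-- MX-G2: the stabiliser has `eI` elements. -/
def S_G2 : Prop :=
  ∀ (k F E : Type) [Field k] [IsAlgClosed k] [Field F] [Field E] [Algebra k F] [Algebra k E]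
    [Algebra F E] [IsScalarTower k F E] [FiniteDimensional F E] [IsGalois F E] [IsFF k F] [IsFF k E]
    (P : Place k E),
    Nat.card {σ : E ≃ₐ[F] E // Stb P σ} = eI F P ∧
    (fibS E (und F P)).card * eI F P = finrank F E

/-- MX-G3: elements fixed by the stabiliser. -/
def S_G3 : Prop :=
  ∀ (k F E : Type) [Field k] [IsAlgClosed k] [Field F] [Field E] [Algebra k F] [Algebra k E]
    [Algebra F E] [IsScalarTower k F E] [FiniteDimensional F E] [IsGalois F E] [IsFF k F] [IsFF k E]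
    (P : Place k E) (x : E), (∀ σ : E ≃ₐ[F] E, Stb P σ → σ x = x) → (eI F P : ℤ) ∣ P.ord x

/-- MX-B: existence of places with given Frobenius. -/
def S_B : Prop :=
  ∀ (k E : Type) [Field k] [IsAlgClosed k] [Field E] [Algebra k E] [Algebra (RatFunc k) E]
    [IsScalarTower k (RatFunc k) E] [FiniteDimensional (RatFunc k) E] [IsGalois (RatFunc k) E]
    [IsFF k E] (p e : ℕ) [Fact p.Prime] [CharP k p], 0 < e →
  ∀ (Φ : E ≃+* E), (∀ c : k, Φ (algebraMap k E c) = algebraMap k E (c ^ p ^ e)) →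
    Φ (cE E (X : k[X])) = cE E (X : k[X]) →
  ∀ bad : Finset k,
    (∀ (P : Place k E) (c : k), c ∉ bad → 0 < P.ord (cE E (X - C c : k[X])) →
      ∀ σ : E ≃ₐ[RatFunc k] E, Stb P σ → σ = 1) →
  ∃ N : ℕ, ∀ n : ℕ, N ≤ n → ∀ σ : E ≃ₐ[RatFunc k] E, ∃ (P : Place k E) (c : k),
    c ∉ bad ∧ c ^ (p ^ e) ^ n = c ∧ 0 < P.ord (cE E (X - C c : k[X])) ∧
    FrobAt ((p ^ e) ^ n) ((Φ ^ n : E ≃+* E) * σ.toRingEquiv) P

/-- MX-C: the structure of the stabiliser of a place with a degenerate reduction. -/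
def S_C : Prop :=
  ∀ (k F E F1 : Type) [Field k] [IsAlgClosed k] [Field F] [Field E] [Field F1] [Finite F1]
    [Algebra k F] [Algebra k E] [Algebra F E] [IsScalarTower k F E] [IsFF k E]
    [Algebra F1 k] [Algebra F1 F] [Algebra F1 E] [IsScalarTower F1 k E] [IsScalarTower F1 F E]
    (P : Place k E) (ε A b : ℕ) (V : Submodule F1 E), 0 < ε → 0 < b → A = Nat.card F1 ^ b →
    (∀ x : E, (∀ σ : E ≃ₐ[F] E, Stb P σ → σ x = x) → (ε : ℤ) ∣ P.ord x) →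
    (V : Set E).Finite →
    (∀ σ : E ≃ₐ[F] E, ∀ v ∈ V, σ v ∈ V) →
    (∀ v ∈ V, P.Reg v) →
    (∀ w ∈ V, w ≠ 0 → P.red w = 0 → ((A : ℤ) - 1) * P.ord w = ε) →
    (∀ v ∈ V, ∀ ξ : k, ξ ≠ 0 → P.red v = algebraMap k P.RF ξ →
      v - algebraMap k E ξ ≠ 0 ∧ (A : ℤ) * P.ord (v - algebraMap k E ξ) = ε) →
    Nat.card {w : E // w ∈ V ∧ P.red w = 0} = A →
    (∀ w ∈ V, ∀ w' ∈ V, w ≠ 0 → w' ≠ 0 → P.red w = 0 → P.red w' = 0 →
      P.red (w' / w) ^ (A - 1) = 1) →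
  ∀ (Φ : E ≃+* E) (r : ℕ), (∀ v ∈ V, Φ v ∈ V) → FrobAt r Φ P →
    (∀ c : k, Φ (algebraMap k E c) = algebraMap k E (c ^ r)) →
    (∀ σ : E ≃ₐ[F] E, ∃ τ : E ≃ₐ[F] E, ∀ z, τ (Φ z) = Φ (σ z)) →
  ∀ g' : ℕ, (∀ v ∈ V, P.red v ^ r ^ g' = P.red v) →
  ∀ j : ℕ, (∀ x : k, x ^ A = x → x ^ (r ^ g') ^ j = x ^ Nat.card F1) →
    (∀ w ∈ V, P.red w = 0 → ∀ f : V →ₗ[F1] F1, (∀ w' : V, P.red (w' : E) = 0 → f w' = 0) →
      ∃ σ : E ≃ₐ[F] E, ∀ v : V, σ (v : E) = v + f v • w) ∧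
    (∀ w₀ ∈ V, w₀ ≠ 0 → P.red w₀ = 0 → ∀ u : k, u ≠ 0 → u ^ A = u →
      ∃ σ : E ≃ₐ[F] E, (∀ v ∈ V, P.red (σ v) = P.red v) ∧
        ∀ w ∈ V, P.red w = 0 → P.red (σ w / w₀) = algebraMap k P.RF u * P.red (w / w₀))

/-- MX-N: the determinants of the elements of MX-C. -/
def S_N : Prop :=
  ∀ (k E F1 : Type) [Field k] [IsAlgClosed k] [Field E] [Field F1] [Finite F1]
    [Algebra k E] [IsFF k E] [Algebra F1 k] [Algebra F1 E] [IsScalarTower F1 k E]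
    (P : Place k E) (A b : ℕ) (V : Submodule F1 E), 0 < b → A = Nat.card F1 ^ b →
    (V : Set E).Finite → (∀ v ∈ V, P.Reg v) →
    Nat.card {w : E // w ∈ V ∧ P.red w = 0} = A →
    (∀ w ∈ V, ∀ w' ∈ V, w ≠ 0 → w' ≠ 0 → P.red w = 0 → P.red w' = 0 →
      P.ord w = P.ord w' ∧ P.red (w' / w) ^ (A - 1) = 1) →
  ∀ (Γ : Subgroup (V ≃ₗ[F1] V)),
    (∀ w₀ ∈ V, w₀ ≠ 0 → P.red w₀ = 0 → ∀ u : k, u ≠ 0 → u ^ A = u →
      ∃ g ∈ Γ, (∀ v : V, P.red (g v : E) = P.red (v : E)) ∧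
        ∀ w : V, P.red (w : E) = 0 → P.red ((g w : E) / w₀) = algebraMap k P.RF u * P.red ((w : E) / w₀)) →
  ∀ d : F1, d ≠ 0 → ∃ g ∈ Γ, LinearMap.det (g : V →ₗ[F1] V) = d

/-- MX-D: linear groups containing the transvections of a subspace. -/
def S_D : Prop :=
  ∀ (F V : Type) [Field F] [Finite F] [AddCommGroup V] [Module F V] [FiniteDimensional F V]
    (Γ : Subgroup (V ≃ₗ[F] V)) (W : Submodule F V), W ≠ ⊥ → W ≠ ⊤ →
    (∀ v v' : V, v ≠ 0 → v' ≠ 0 → ∃ g ∈ Γ, g v = v') →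
    (∀ w ∈ W, ∀ f : V →ₗ[F] F, (∀ w' ∈ W, f w' = 0) → ∃ g ∈ Γ, ∀ v, g v = v + f v • w) →
    (∀ d : F, d ≠ 0 → ∃ g ∈ Γ, LinearMap.det (g : V →ₗ[F] V) = d) → Γ = ⊤

/-- MX-E: the splitting field of a linearised polynomial over `k(s)` and the lift of Frobenius. -/
def S_E : Prop :=
  ∀ (k : Type) [Field k] [IsAlgClosed k] (p e : ℕ) [Fact p.Prime] [CharP k p], 0 < e →
  ∀ (T : Finset ℕ) (c : ℕ → k[X]), 0 ∈ T → 0 < T.sup id →
    (∀ j ∈ T, ∀ i, (c j).coeff i ^ p ^ e = (c j).coeff i) → c 0 ≠ 0 → c (T.sup id) = 1 →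
  ∃ (E : Type) (_ : Field E) (_ : Algebra k E) (_ : Algebra (RatFunc k) E)
    (_ : IsScalarTower k (RatFunc k) E) (_ : FiniteDimensional (RatFunc k) E)
    (_ : IsGalois (RatFunc k) E) (_ : IsFF k E) (Φ : E ≃+* E),
    (∀ c : k, Φ (algebraMap k E c) = algebraMap k E (c ^ p ^ e)) ∧
    (∀ f : k[X], (∀ i, f.coeff i ^ p ^ e = f.coeff i) → Φ (cE E f) = cE E f) ∧
    (∀ σ : E ≃ₐ[RatFunc k] E, ∃ τ : E ≃ₐ[RatFunc k] E, ∀ z, τ (Φ z) = Φ (σ z)) ∧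
    Nat.card {v : E // Lop (p ^ e) T c v = 0} = (p ^ e) ^ T.sup id ∧
    (∀ σ : E ≃ₐ[RatFunc k] E, (∀ v : E, Lop (p ^ e) T c v = 0 → σ v = v) → σ = 1)

/-- MX-I: interpolation over the field with `q` elements. -/
def S_I : Prop :=
  ∀ (k : Type) [Field k] [IsAlgClosed k] (p e : ℕ) [Fact p.Prime] [CharP k p], 0 < e →
  ∀ d : ℕ, 0 < d → ∃ (s₀ : k) (π : k[X]), s₀ ≠ 0 ∧ s₀ ^ (p ^ e) ^ d = s₀ ∧
    (∀ i, π.coeff i ^ p ^ e = π.coeff i) ∧ π.eval 0 ≠ 0 ∧ π.eval s₀ = 0 ∧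
    π.derivative.eval s₀ ≠ 0 ∧
    ∀ γ : k, γ ^ (p ^ e) ^ d = γ → ∃ f : k[X], (∀ i, f.coeff i ^ p ^ e = f.coeff i) ∧ f.eval s₀ = γ

/-- MX-S: the inductive step. -/
def S_S : Prop :=
  ∀ (k : Type) [Field k] [IsAlgClosed k] (p e : ℕ) [Fact p.Prime] [CharP k p], 0 < e →
  ∀ (T' : Finset ℕ) (a : ℕ), 0 ∈ T' → 0 < T'.sup id → 0 < a → Good k (p ^ e) T' →
    Good k (p ^ e) (insert 0 (T'.image (a + ·)))

/-- MX-F: the deduction of the frozen statement from the inductive step. -/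
def S_F : Prop := S_S →
  ∀ (p : ℕ) [Fact p.Prime] (e : ℕ), 0 < e →
  ∀ t : Finset ℕ, (∀ x ∈ t, 0 < x) →
    (¬ ∃ a d : ℕ, t = (Finset.range t.card).image (fun i => a + i * d)) →
    ∃ c : ℕ, ∀ n : ℕ, c < n →
      ∃ a : ℕ → GaloisField p (e * n), (∃ i ∈ t, a i ≠ 0) ∧
        (p ^ e) ^ (t.card - 1) <
          Nat.card {x : GaloisField p (e * n) // ∑ i ∈ t, a i * x ^ ((p ^ e) ^ i) = 0}

end Pool.Agent.W493.MX
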