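import Pool.Agent.W493.MX.Basic

/-! Project MX: orders of polynomials in `s` and of roots of linearised polynomials at a place. -/

set_option autoImplicit false
set_option linter.all false
set_option linter.overlappingInstances false

open Module FF Pool.Agent.H525R3.FFp Pool.Agent.W132.AG Polynomial

namespace Pool.Agent.W493.MX.St

section
variable {k K : Type} [Field k] [Field K] [Algebra k K] (P : Place k K)

/-- dominant terms -/
theorem dom1 {x y r : K} (hx : x ≠ 0) (hr : r = 0 ∨ P.ord x < P.ord r) (h : x + y + r = 0) :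
    y ≠ 0 ∧ P.ord y = P.ord x := by
  have h1 : y = -(x + r) := by linear_combination h
  rcases hr with rfl | hr
  · rw [add_zero] at h1
    rw [h1]
    exact ⟨neg_ne_zero.2 hx, P.ord_neg x⟩
  · by_cases hr0 : r = 0
    · subst hr0
      rw [add_zero] at h1
      rw [h1]
      exact ⟨neg_ne_zero.2 hx, P.ord_neg x⟩
    · obtain ⟨h2, h3⟩ := P.ord_add_eq hx hr0 hr
      rw [h1]
      exact ⟨neg_ne_zero.2 h2, by rw [P.ord_neg, h3]⟩

theorem dom0 {x r : K} (hx : x ≠ 0) (hr : r = 0 ∨ P.ord x < P.ord r) : x + r ≠ 0 ∧ P.ord (x + r) = P.ord x := by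
  rcases hr with rfl | hr
  · simp [hx]
  · by_cases hr0 : r = 0
    · subst hr0; simp [hx]
    · exact P.ord_add_eq hx hr0 hr

theorem dom2 {x y r s : K} (hx : x ≠ 0) (hy : y ≠ 0) (hr : r = 0 ∨ P.ord x < P.ord r)
    (hs : s = 0 ∨ P.ord y < P.ord s) (h : x + y + r + s = 0) : P.ord x = P.ord y := by
  obtain ⟨h1, h2⟩ := dom0 P hx hr
  obtain ⟨h3, h4⟩ := dom0 P hy hs
  have h5 : x + r = -(y + s) := by linear_combination h
  rw [← h2, ← h4, h5, P.ord_neg]

theorem loc_lt {n : ℤ} {r : K} (h : Loc P (-(n + 1)) r) : r = 0 ∨ n < P.ord r := by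
  rcases h with h | h
  · exact Or.inl h
  · right; omega

theorem Loc.of_reg {f : K} (h : P.Reg f) : Loc P 0 f := by
  rcases h with h | h
  · exact Or.inl h
  · right; omega

theorem Loc.of_ord {f : K} : Loc P (-P.ord f) f := Or.inr (by omega)

theorem red_zero_iff_pos {f : K} (h0 : f ≠ 0) (h : P.Reg f) : P.red f = 0 ↔ 0 < P.ord f := by
  rw [P.red_eq_zero_iff h]
  simp [h0]

end

section
variable {k E : Type} [Field k] [Field E] [Algebra k E] [Algebra (RatFunc k) E]

theorem cE_add (f g : k[X]) : cE E (f + g) = cE E f + cE E g := by simp [cE]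
theorem cE_sub (f g : k[X]) : cE E (f - g) = cE E f - cE E g := by simp [cE]
theorem cE_mul (f g : k[X]) : cE E (f * g) = cE E f * cE E g := by simp [cE]
theorem cE_pow (f : k[X]) (n : ℕ) : cE E (f ^ n) = cE E f ^ n := by simp [cE]
theorem cE_one : cE E (1 : k[X]) = 1 := by simp [cE]
theorem cE_zero : cE E (0 : k[X]) = 0 := by simp [cE]
theorem cE_ne {f : k[X]} (hf : f ≠ 0) : cE E f ≠ 0 := by
  unfold cE
  rw [Ne, map_eq_zero]
  intro h
  exact hf (RatFunc.algebraMap_injective k (by simpa using h))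

theorem cE_C [IsScalarTower k (RatFunc k) E] (c : k) : cE E (C c) = algebraMap k E c := by
  unfold cE
  rw [IsScalarTower.algebraMap_apply k (RatFunc k) E]
  congr 1

variable [IsScalarTower k (RatFunc k) E]

/-- all polynomials are regular at a finite place -/
theorem reg_cE (P : Place k E) {c : k} (h : 0 < P.ord (cE E (X - C c : k[X]))) (f : k[X]) :
    P.Reg (cE E f) := by
  have hX : P.Reg (cE E (X : k[X])) := by
    have h1 : cE E (X : k[X]) = cE E (X - C c : k[X]) + algebraMap k E c := by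
      rw [← cE_C (E := E) c, ← cE_add]; congr 1; ring
    rw [h1]
    exact P.reg_add (Or.inr h.le) (P.reg_const c)
  induction f using Polynomial.induction_on' with
  | add f g hf hg => rw [cE_add]; exact P.reg_add hf hg
  | monomial n a =>
    rw [← C_mul_X_pow_eq_monomial, cE_mul, cE_pow, cE_C]
    exact P.reg_mul (P.reg_const a) (reg_pow' P hX n)

/-- the residue of a polynomial -/
theorem red_cE (P : Place k E) {c : k} (h : 0 < P.ord (cE E (X - C c : k[X]))) (f : k[X]) :
    P.red (cE E f) = algebraMap k P.RF (f.eval c) := by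
  obtain ⟨g, hg⟩ := Polynomial.X_sub_C_dvd_sub_C_eval (p := f) (a := c)
  have h1 : f = (X - C c) * g + C (f.eval c) := by rw [← hg]; ring
  have h2 : cE E f = cE E (X - C c : k[X]) * cE E g + algebraMap k E (f.eval c) := by
    rw [← cE_C (E := E), ← cE_mul, ← cE_add, ← h1]
  have h3 : P.Reg (cE E (X - C c : k[X])) := Or.inr h.le
  have h4 := reg_cE P h g
  rw [h2, P.red_add (P.reg_mul h3 h4) (P.reg_const _), P.red_mul h3 h4,
    (P.red_eq_zero_iff h3).2 (Or.inr h), zero_mul, zero_add, red_const]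

theorem ord_cE_zero (P : Place k E) {c : k} (h : 0 < P.ord (cE E (X - C c : k[X]))) {f : k[X]}
    (hf : f.eval c ≠ 0) : P.ord (cE E f) = 0 := by
  have h1 := reg_cE P h f
  have h2 := red_cE P h f
  have h3 : f ≠ 0 := by rintro rfl; simp at hf
  have h4 := (P.reg_iff (cE_ne h3)).1 h1
  by_contra hc
  have h5 : P.red (cE E f) = 0 := (P.red_eq_zero_iff h1).2 (Or.inr (by omega))
  rw [h2, map_eq_zero] at h5
  exact hf h5

theorem ord_cE_simple (P : Place k E) {c : k} (h : 0 < P.ord (cE E (X - C c : k[X]))) {f g : k[X]}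
    (hf : f = (X - C c) * g) (hg : g.eval c ≠ 0) : P.ord (cE E f) = P.ord (cE E (X - C c : k[X])) := by
  have h3 : g ≠ 0 := by rintro rfl; simp at hg
  rw [hf, cE_mul, P.ord_mul (cE_ne (X_sub_C_ne_zero c)) (cE_ne h3), ord_cE_zero P h hg, add_zero]

theorem loc_cE_sq (P : Place k E) {c : k} (h : 0 < P.ord (cE E (X - C c : k[X]))) {f : k[X]}
    (hf : (X - C c) ^ 2 ∣ f) : Loc P (-(2 * P.ord (cE E (X - C c : k[X])))) (cE E f) := by
  obtain ⟨g, rfl⟩ := hf
  rw [cE_mul, cE_pow]
  have h1 := (Loc.of_ord (P := P) (f := cE E (X - C c : k[X]))).pow 2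
  have h2 := h1.mul (Loc.of_reg P (reg_cE P h g))
  refine h2.mono ?_
  push_cast
  omega

end

end Pool.Agent.W493.MX.St
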