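import Pool.Agent.W493.MX.L1

/-! Project MX: orders of roots of linearised polynomials at a place. -/

set_option autoImplicit false
set_option linter.all false
set_option linter.overlappingInstances false

open Module FF Pool.Agent.H525R3.FFp Pool.Agent.W132.AG Polynomial

namespace Pool.Agent.W493.MX.St

section
variable {k E : Type} [Field k] [Field E] [Algebra k E] [Algebra (RatFunc k) E]

theorem Lop_insert {q : ℕ} {T : Finset ℕ} (h : 0 ∉ T) (c : ℕ → k[X]) (x : E) :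
    Lop q (insert 0 T) c x = cE E (c 0) * x + Lop q T c x := by
  unfold Lop
  rw [Finset.sum_insert h, pow_zero, pow_one]

theorem Lop_erase {q : ℕ} {T : Finset ℕ} {a : ℕ} (h : a ∈ T) (c : ℕ → k[X]) (x : E) :
    Lop q T c x = cE E (c a) * x ^ q ^ a + Lop q (T.erase a) c x := by
  unfold Lop
  rw [Finset.add_sum_erase T (fun j => cE E (c j) * x ^ q ^ j) h]

theorem Loc_Lop {P : Place k E} {q : ℕ} {T : Finset ℕ} {c : ℕ → k[X]} {x : E} {n : ℤ}
    (h : ∀ j ∈ T, Loc P n (cE E (c j) * x ^ q ^ j)) : Loc P n (Lop q T c x) :=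
  Loc.sum _ _ h

theorem Lop_add {p e : ℕ} [Fact p.Prime] [CharP E p] (T : Finset ℕ) (c : ℕ → k[X]) (x y : E) :
    Lop (p ^ e) T c (x + y) = Lop (p ^ e) T c x + Lop (p ^ e) T c y := by
  unfold Lop
  rw [← Finset.sum_add_distrib]
  refine Finset.sum_congr rfl fun j _ => ?_
  rw [← pow_mul, add_pow_char_pow]
  ring

theorem Lop_zero {q : ℕ} (hq : 0 < q) (T : Finset ℕ) (c : ℕ → k[X]) : Lop q T c (0 : E) = 0 := by
  unfold Lop
  refine Finset.sum_eq_zero fun j _ => ?_
  rw [zero_pow (pow_pos hq j).ne', mul_zero]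

variable [IsScalarTower k (RatFunc k) E]

/-- roots are regular at the finite places -/
theorem root_reg {q : ℕ} (hq : 2 ≤ q) {T : Finset ℕ} {m : ℕ} (hm : m ∈ T) (hT : ∀ j ∈ T, j ≤ m)
    {c : ℕ → k[X]} (hc : c m = 1) (P : Place k E) {s : k} (h : 0 < P.ord (cE E (X - C s : k[X])))
    {v : E} (hv : Lop q T c v = 0) : P.Reg v := by
  by_cases hv0 : v = 0
  · exact Or.inl hv0
  right
  by_contra hneg
  push Not at hneg
  rw [Lop_erase hm, hc, cE_one, one_mul] at hv
  have h1 : Loc P (-(((q : ℤ) ^ m * P.ord v) + 1)) (Lop q (T.erase m) c v) := by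
    apply Loc_Lop
    intro j hj
    rw [Finset.mem_erase] at hj
    have hjm : j < m := lt_of_le_of_ne (hT j hj.2) hj.1
    have h2 := (Loc.of_reg P (reg_cE P h (c j))).mul ((Loc.of_ord (P := P) (f := v)).pow (q ^ j))
    refine h2.mono ?_
    have h3 : (q : ℤ) ^ j < (q : ℤ) ^ m := by
      apply pow_lt_pow_right₀ _ hjm
      exact_mod_cast hq
    push_cast
    nlinarith
  have h4 := dom0 P (pow_ne_zero (q ^ m) hv0) (r := Lop q (T.erase m) c v) (by
    have := loc_lt P h1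
    rw [P.ord_pow]
    push_cast
    exact this)
  exact h4.1 hv

/-- no nonzero root vanishes at a good place -/
theorem root_inj {q : ℕ} (hq : 2 ≤ q) {T : Finset ℕ} (h0 : 0 ∈ T) {m : ℕ} (hm : m ∈ T)
    (hT : ∀ j ∈ T, j ≤ m)
    {c : ℕ → k[X]} (hc : c m = 1) (P : Place k E) {s : k} (h : 0 < P.ord (cE E (X - C s : k[X])))
    (hs : (c 0).eval s ≠ 0) {v : E} (hv : Lop q T c v = 0) (hr : P.red v = 0) : v = 0 := by
  by_contra hv0
  have hreg := root_reg hq hm hT hc P h hv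
  have hpos : 0 < P.ord v := (red_zero_iff_pos P hv0 hreg).1 hr
  rw [Lop_erase h0, pow_zero, pow_one] at hv
  have hc0 : c 0 ≠ 0 := by rintro h'; rw [h'] at hs; simp at hs
  have h1 : Loc P (-(P.ord v + 1)) (Lop q (T.erase 0) c v) := by
    apply Loc_Lop
    intro j hj
    rw [Finset.mem_erase] at hj
    have h2 := (Loc.of_reg P (reg_cE P h (c j))).mul ((Loc.of_ord (P := P) (f := v)).pow (q ^ j))
    refine h2.mono ?_
    have h3 : (2 : ℤ) ≤ (q : ℤ) ^ j := by
      have : q ^ 1 ≤ q ^ j := Nat.pow_le_pow_right (by omega) (by omega)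
      rw [pow_one] at this
      exact_mod_cast hq.trans this
    push_cast
    nlinarith
  have h4 := dom0 P (mul_ne_zero (cE_ne hc0) hv0) (r := Lop q (T.erase 0) c v) (by
    have := loc_lt P h1
    rw [P.ord_mul (cE_ne hc0) hv0, ord_cE_zero P h hs, zero_add]
    exact this)
  exact h4.1 hv

/-- the totally ramified place: all nonzero roots have the same order -/
theorem root_ord_eis {q : ℕ} (hq : 2 ≤ q) {T : Finset ℕ} (h0 : 0 ∈ T) {m : ℕ} (hm : m ∈ T)
    (hm0 : 0 < m) (hT : ∀ j ∈ T, j ≤ m)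
    {c : ℕ → k[X]} (hc : c m = 1) (P : Place k E) {s : k} (h : 0 < P.ord (cE E (X - C s : k[X])))
    {g : k[X]} (hs : c 0 = (X - C s) * g) (hg : g.eval s ≠ 0)
    (h2 : ∀ j ∈ T, j ≠ 0 → j ≠ m → (X - C s) ^ 2 ∣ c j)
    {v : E} (hv : Lop q T c v = 0) (hv0 : v ≠ 0) :
    ((q ^ m : ℕ) - 1 : ℤ) * P.ord v = P.ord (cE E (X - C s : k[X])) := by
  set ε := P.ord (cE E (X - C s : k[X])) with hε
  have hreg := root_reg hq hm hT hc P h hv
  have hpos : 0 ≤ P.ord v := (P.reg_iff hv0).1 hreg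
  have hc0 : cE E (c 0) ≠ 0 := by
    rw [hs]
    apply cE_ne
    apply mul_ne_zero (X_sub_C_ne_zero s)
    rintro rfl
    simp at hg
  rw [Lop_erase h0, pow_zero, pow_one, Lop_erase (a := m) (Finset.mem_erase.2 ⟨hm0.ne', hm⟩), hc,
    cE_one, one_mul] at hv
  have h1 : Loc P (-((ε + P.ord v) + 1)) (Lop q ((T.erase 0).erase m) c v) := by
    apply Loc_Lop
    intro j hj
    rw [Finset.mem_erase, Finset.mem_erase] at hj
    have h3 := (loc_cE_sq P h (h2 j hj.2.2 hj.2.1 hj.1)).mul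
      ((Loc.of_ord (P := P) (f := v)).pow (q ^ j))
    refine h3.mono ?_
    have h3 : (1 : ℤ) ≤ (q : ℤ) ^ j := by
      have : 0 < q ^ j := pow_pos (by omega) j
      exact_mod_cast this
    push_cast
    nlinarith
  have h5 := dom1 P (x := cE E (c 0) * v) (y := v ^ q ^ m) (r := Lop q ((T.erase 0).erase m) c v)
    (mul_ne_zero hc0 hv0) (by
      have := loc_lt P h1
      rw [P.ord_mul hc0 hv0, ord_cE_simple P h hs hg]
      exact this) (by rw [← hv]; ring)
  have h6 := h5.2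
  rw [P.ord_pow, P.ord_mul hc0 hv0, ord_cE_simple P h hs hg] at h6
  push_cast at h6 ⊢
  linarith

/-- orders of the roots with zero reduction at the degenerate place -/
theorem root_ord_W {q : ℕ} (hq : 2 ≤ q) {T : Finset ℕ} (h0 : 0 ∈ T) {m : ℕ} (hm : m ∈ T)
    (hT : ∀ j ∈ T, j ≤ m) {a : ℕ} (ha : a ∈ T) (ha0 : 0 < a) (hTa : ∀ j ∈ T, j ≠ 0 → a ≤ j)
    {c : ℕ → k[X]} (hc : c m = 1) (P : Place k E) {s : k} (h : 0 < P.ord (cE E (X - C s : k[X])))
    {g : k[X]} (hs : c 0 = (X - C s) * g) (hg : g.eval s ≠ 0) (hca : (c a).eval s ≠ 0)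
    {v : E} (hv : Lop q T c v = 0) (hv0 : v ≠ 0) (hr : P.red v = 0) :
    ((q ^ a : ℕ) - 1 : ℤ) * P.ord v = P.ord (cE E (X - C s : k[X])) ∧
    P.Reg (cE E (c 0) * v / v ^ q ^ a) ∧
    P.red (cE E (c 0) * v / v ^ q ^ a) = - algebraMap k P.RF ((c a).eval s) := by
  set ε := P.ord (cE E (X - C s : k[X])) with hε
  have hreg := root_reg hq hm hT hc P h hv
  have hpos : 0 < P.ord v := (red_zero_iff_pos P hv0 hreg).1 hr
  have hc0 : cE E (c 0) ≠ 0 := by
    rw [hs]
    apply cE_ne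
    apply mul_ne_zero (X_sub_C_ne_zero s)
    rintro rfl
    simp at hg
  have hca0 : cE E (c a) ≠ 0 := by
    apply cE_ne
    intro h'
    rw [h'] at hca
    simp at hca
  rw [Lop_erase h0, pow_zero, pow_one, Lop_erase (a := a) (Finset.mem_erase.2 ⟨ha0.ne', ha⟩)] at hv
  have h1 : Loc P (-(((q : ℤ) ^ a * P.ord v) + 1)) (Lop q ((T.erase 0).erase a) c v) := by
    apply Loc_Lop
    intro j hj
    rw [Finset.mem_erase, Finset.mem_erase] at hj
    have hja : a < j := lt_of_le_of_ne (hTa j hj.2.2 hj.2.1) (Ne.symm hj.1)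
    have h3 := (Loc.of_reg P (reg_cE P h (c j))).mul
      ((Loc.of_ord (P := P) (f := v)).pow (q ^ j))
    refine h3.mono ?_
    have h3 : (q : ℤ) ^ a + 1 ≤ (q : ℤ) ^ j := by
      have : (q : ℤ) ^ a < (q : ℤ) ^ j := by
        apply pow_lt_pow_right₀ _ hja
        exact_mod_cast hq
      omega
    push_cast
    nlinarith
  have hva : v ^ q ^ a ≠ 0 := pow_ne_zero _ hv0
  have h5 := dom1 P (x := cE E (c a) * v ^ q ^ a) (y := cE E (c 0) * v)
    (r := Lop q ((T.erase 0).erase a) c v)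
    (mul_ne_zero hca0 hva) (by
      have := loc_lt P h1
      rw [P.ord_mul hca0 hva, ord_cE_zero P h hca, P.ord_pow, zero_add]
      push_cast
      exact this) (by rw [← hv]; ring)
  have h6 := h5.2
  rw [P.ord_mul hc0 hv0, ord_cE_simple P h hs hg, P.ord_mul hca0 hva, P.ord_pow,
    ord_cE_zero P h hca] at h6
  refine ⟨by push_cast at h6 ⊢; linarith, ?_⟩
  have h7 : cE E (c 0) * v / v ^ q ^ a = -(cE E (c a) + Lop q ((T.erase 0).erase a) c v / v ^ q ^ a) := by
    field_simp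
    linear_combination hv
  have h8 : Loc P (-1) (Lop q ((T.erase 0).erase a) c v / v ^ q ^ a) := by
    rcases h1 with h1 | h1
    · left; rw [h1, zero_div]
    · by_cases h9 : Lop q ((T.erase 0).erase a) c v = 0
      · left; rw [h9, zero_div]
      right
      rw [P.ord_div h9 hva, P.ord_pow]
      push_cast
      omega
  have h9 : P.Reg (Lop q ((T.erase 0).erase a) c v / v ^ q ^ a) := by
    rcases h8 with h8 | h8
    · exact Or.inl h8
    · right; omega
  have h10 : P.red (Lop q ((T.erase 0).erase a) c v / v ^ q ^ a) = 0 := by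
    rw [P.red_eq_zero_iff h9]
    rcases h8 with h8 | h8
    · exact Or.inl h8
    · right; omega
  have h11 := reg_cE P h (c a)
  rw [h7]
  refine ⟨P.reg_neg (P.reg_add h11 h9), ?_⟩
  rw [P.red_neg (P.reg_add h11 h9), P.red_add h11 h9, h10, add_zero, red_cE P h]

/-- orders of `v - ξ` at the degenerate place -/
theorem root_ord_V {p e : ℕ} [Fact p.Prime] [CharP k p] (he : 0 < e) {T : Finset ℕ}
    (h0 : 0 ∈ T) {m : ℕ} (hm : m ∈ T)
    (hT : ∀ j ∈ T, j ≤ m) {a : ℕ} (ha : a ∈ T) (ha0 : 0 < a) (hTa : ∀ j ∈ T, j ≠ 0 → a ≤ j)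
    {c : ℕ → k[X]} (hc : c m = 1) (P : Place k E) {s : k} (h : 0 < P.ord (cE E (X - C s : k[X])))
    {g : k[X]} (hs : c 0 = (X - C s) * g) (hg : g.eval s ≠ 0) (hca : (c a).eval s ≠ 0)
    (h2 : ∀ j ∈ T, j ≠ 0 → (X - C s) ^ 2 ∣ c j - C ((c j).eval s))
    {v : E} (hv : Lop (p ^ e) T c v = 0) {ξ : k} (hξ : ξ ≠ 0) (hr : P.red v = algebraMap k P.RF ξ) :
    (∑ j ∈ T.erase 0, (c j).eval s * ξ ^ (p ^ e) ^ j = 0) ∧ v - algebraMap k E ξ ≠ 0 ∧
    (((p ^ e) ^ a : ℕ) : ℤ) * P.ord (v - algebraMap k E ξ) = P.ord (cE E (X - C s : k[X])) := by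
  have hp : p.Prime := Fact.out
  set q := p ^ e with hq'
  have hq : 2 ≤ q := hp.two_le.trans (Nat.le_self_pow he.ne' p)
  haveI : CharP E p := charP_of_injective_algebraMap (algebraMap k E).injective p
  set ε := P.ord (cE E (X - C s : k[X])) with hε
  have hreg := root_reg hq hm hT hc P h hv
  have hc0 : cE E (c 0) ≠ 0 := by
    rw [hs]
    apply cE_ne
    apply mul_ne_zero (X_sub_C_ne_zero s)
    rintro rfl
    simp at hg
  have hca0 : cE E (c a) ≠ 0 := by
    apply cE_ne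
    intro h'
    rw [h'] at hca
    simp at hca
  have hξreg := P.reg_const ξ
  -- the reduction of the equation
  have hred : ∑ j ∈ T.erase 0, (c j).eval s * ξ ^ q ^ j = 0 := by
    have h1 := reg_sum P (T.erase 0) (fun j => cE E (c j) * v ^ q ^ j)
      (fun j _ => P.reg_mul (reg_cE P h _) (reg_pow' P hreg _))
    have h3 : P.red (cE E (c 0) * v) = 0 := by
      rw [P.red_mul (reg_cE P h _) hreg, red_cE P h, hs, eval_mul]
      simp
    have h4 : cE E (c 0) * v + ∑ j ∈ T.erase 0, cE E (c j) * v ^ q ^ j = 0 := by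
      rw [Lop_erase h0, pow_zero, pow_one] at hv
      exact hv
    have h5 : P.red (cE E (c 0) * v + ∑ j ∈ T.erase 0, cE E (c j) * v ^ q ^ j) = 0 := by
      rw [h4, P.red_zero]
    rw [P.red_add (P.reg_mul (reg_cE P h _) hreg) h1.1, h3, zero_add, h1.2] at h5
    apply (algebraMap k P.RF).injective
    rw [map_zero, map_sum, ← h5]
    refine Finset.sum_congr rfl fun j _ => ?_
    rw [P.red_mul (reg_cE P h _) (reg_pow' P hreg _), red_cE P h, P.red_pow hreg, hr, map_mul, map_pow]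
  refine ⟨hred, ?_⟩
  set u := v - algebraMap k E ξ with hu
  have hureg : P.Reg u := by
    rw [hu, sub_eq_add_neg]; exact P.reg_add hreg (P.reg_neg hξreg)
  have hured : P.red u = 0 := by
    rw [hu, P.red_sub hreg hξreg, hr, red_const, sub_self]
  have hvu : v = u + algebraMap k E ξ := by rw [hu]; ring
  -- value at the constant
  have hLξ : ∀ (S : Finset ℕ), ∑ j ∈ S, (c j).eval s * ξ ^ q ^ j = 0 →
      Lop q S c (algebraMap k E ξ) = ∑ j ∈ S, cE E (c j - C ((c j).eval s)) * algebraMap k E (ξ ^ q ^ j) := by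
    intro S hS
    unfold Lop
    have h1 : ∑ j ∈ S, algebraMap k E ((c j).eval s * ξ ^ q ^ j) = 0 := by
      rw [← map_sum, hS, map_zero]
    calc _ = ∑ j ∈ S, cE E (c j) * algebraMap k E ξ ^ q ^ j - ∑ j ∈ S, algebraMap k E ((c j).eval s * ξ ^ q ^ j) := by
          rw [h1, sub_zero]
      _ = _ := by
          rw [← Finset.sum_sub_distrib]
          refine Finset.sum_congr rfl fun j _ => ?_
          rw [cE_sub, cE_C, map_mul, map_pow]
          ring
  have hLξ1 : Loc P (-(ε + 1)) (Lop q (T.erase 0) c (algebraMap k E ξ)) := by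
    rw [hLξ _ hred]
    apply Loc.sum
    intro j hj
    rw [Finset.mem_erase] at hj
    have h3 := (loc_cE_sq P h (h2 j hj.2 hj.1)).mul (Loc.const (P := P) (ξ ^ q ^ j))
    refine h3.mono ?_
    omega
  have hξE : algebraMap k E ξ ≠ 0 := by simpa using hξ
  have hx : cE E (c 0) * algebraMap k E ξ ≠ 0 := mul_ne_zero hc0 hξE
  have hxo : P.ord (cE E (c 0) * algebraMap k E ξ) = ε := by
    rw [P.ord_mul hc0 hξE, ord_cE_simple P h hs hg, P.ord_const hξ, add_zero]
  have hsplit : Lop q T c u + Lop q T c (algebraMap k E ξ) = 0 := by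
    rw [← hv, hvu, Lop_add]
  rw [Lop_erase (x := algebraMap k E ξ) h0, pow_zero, pow_one] at hsplit
  have hu0 : u ≠ 0 := by
    intro hu0
    rw [hu0, Lop_zero (by omega), zero_add] at hsplit
    exact (dom0 P hx (by rw [hxo]; exact loc_lt P hLξ1)).1 hsplit
  refine ⟨hu0, ?_⟩
  have hpos : 0 < P.ord u := (red_zero_iff_pos P hu0 hureg).1 hured
  rw [Lop_erase (x := u) h0, pow_zero, pow_one,
    Lop_erase (x := u) (a := a) (Finset.mem_erase.2 ⟨ha0.ne', ha⟩)] at hsplit
  have h1 : Loc P (-(((q : ℤ) ^ a * P.ord u) + 1)) (Lop q ((T.erase 0).erase a) c u) := by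
    apply Loc_Lop
    intro j hj
    rw [Finset.mem_erase, Finset.mem_erase] at hj
    have hja : a < j := lt_of_le_of_ne (hTa j hj.2.2 hj.2.1) (Ne.symm hj.1)
    have h3 := (Loc.of_reg P (reg_cE P h (c j))).mul
      ((Loc.of_ord (P := P) (f := u)).pow (q ^ j))
    refine h3.mono ?_
    have h3 : (q : ℤ) ^ a + 1 ≤ (q : ℤ) ^ j := by
      have : (q : ℤ) ^ a < (q : ℤ) ^ j := by
        apply pow_lt_pow_right₀ _ hja
        exact_mod_cast hq
      omega
    push_cast
    nlinarith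
  have h7 : Loc P (-(ε + 1)) (cE E (c 0) * u + Lop q (T.erase 0) c (algebraMap k E ξ)) := by
    apply Loc.add _ hLξ1
    right
    rw [P.ord_mul hc0 hu0, ord_cE_simple P h hs hg]
    omega
  have hua : u ^ q ^ a ≠ 0 := pow_ne_zero _ hu0
  have hyo : P.ord (cE E (c a) * u ^ q ^ a) = (q : ℤ) ^ a * P.ord u := by
    rw [P.ord_mul hca0 hua, ord_cE_zero P h hca, P.ord_pow, zero_add]
    push_cast
    rfl
  have h8 := dom2 P hx (mul_ne_zero hca0 hua) (r := cE E (c 0) * u + Lop q (T.erase 0) c (algebraMap k E ξ))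
    (s := Lop q ((T.erase 0).erase a) c u) (by rw [hxo]; exact loc_lt P h7)
    (by rw [hyo]; exact loc_lt P h1) (by rw [← hsplit]; ring)
  rw [hxo, hyo] at h8
  push_cast
  exact h8.symm

end

end Pool.Agent.W493.MX.St
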