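import Pool.Agent.W493.MX.L2

/-! Project MX: places over a point of the line; transitivity from ramification. -/

set_option autoImplicit false
set_option linter.all false
set_option linter.overlappingInstances false

open Module FF Pool.Agent.H525R3.FFp Pool.Agent.W132.AG Polynomial

namespace Pool.Agent.W493.MX.St

section
variable {k : Type} [Field k]

instance isFF_ratFunc : IsFF k (RatFunc k) := isFF_base RatFunc.transcendental_X RatFunc.adjoin_X

theorem ratFunc_X_sub (c : k) :
    algebraMap k[X] (RatFunc k) (X - C c) = RatFunc.X - algebraMap k (RatFunc k) c := by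
  rw [map_sub, RatFunc.algebraMap_X]
  congr 1

variable [PerfectField k]

theorem exists_place_base (c : k) :
    ∃ w : Place k (RatFunc k), 0 < w.ord (algebraMap k[X] (RatFunc k) (X - C c)) := by
  rw [ratFunc_X_sub]
  exact exists_zero_gen RatFunc.adjoin_X c

theorem ord_base {c : k} {w : Place k (RatFunc k)}
    (h : 0 < w.ord (algebraMap k[X] (RatFunc k) (X - C c))) :
    w.ord (algebraMap k[X] (RatFunc k) (X - C c)) = 1 := by
  rw [ratFunc_X_sub] at h ⊢
  exact (zero_gen RatFunc.adjoin_X c h).1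

theorem unique_base {c : k} {w w' : Place k (RatFunc k)}
    (h : 0 < w.ord (algebraMap k[X] (RatFunc k) (X - C c)))
    (h' : 0 < w'.ord (algebraMap k[X] (RatFunc k) (X - C c))) : w = w' := by
  classical
  by_contra hne
  have h1 := ord_base h
  have h1' := ord_base h'
  rw [ratFunc_X_sub] at h h' h1 h1'
  set x : RatFunc k := RatFunc.X - algebraMap k (RatFunc k) c with hx
  have hg : IntermediateField.adjoin k {x⁻¹} = ⊤ := gen_inv (gen_sub RatFunc.adjoin_X c)
  have h2 := ddeg_polar_gen (k := k) hg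
  have h3 : Finsupp.single w (1 : ℤ) + Finsupp.single w' 1 ≤ polar (k := k) x⁻¹ := by
    intro P
    rw [polar_apply, P.ord_inv, neg_neg, Finsupp.add_apply, Finsupp.single_apply, Finsupp.single_apply]
    by_cases hw : w = P
    · subst hw
      rw [if_pos rfl, if_neg (fun h => hne h.symm), h1]
      simp
    · rw [if_neg hw]
      by_cases hw' : w' = P
      · subst hw'
        rw [if_pos rfl, h1']
        simp
      · rw [if_neg hw']
        simp
  have h4 := ddeg_mono h3
  rw [h2, ddeg_add, ddeg_single, ddeg_single, (zero_gen RatFunc.adjoin_X c h).2,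
    (zero_gen RatFunc.adjoin_X c h').2] at h4
  norm_num at h4

end

section
variable {k E : Type} [Field k] [IsAlgClosed k] [Field E] [Algebra k E] [Algebra (RatFunc k) E]
  [IsScalarTower k (RatFunc k) E] [FiniteDimensional (RatFunc k) E] [Algebra.IsSeparable (RatFunc k) E]

omit [IsAlgClosed k] in
theorem ord_cE_und (P : Place k E) (f : k[X]) :
    P.ord (cE E f) = eI (RatFunc k) P * (und (RatFunc k) P).ord (algebraMap k[X] (RatFunc k) f) :=
  (over_und P).2 _

omit [IsAlgClosed k] in
theorem eI_pos (P : Place k E) : 0 < eI (RatFunc k) P := (over_und (F := RatFunc k) P).1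

omit [IsAlgClosed k] in
theorem und_pos {P : Place k E} {c : k} (h : 0 < P.ord (cE E (X - C c : k[X]))) :
    0 < (und (RatFunc k) P).ord (algebraMap k[X] (RatFunc k) (X - C c)) := by
  rw [ord_cE_und] at h
  have h2 : (0 : ℤ) < eI (RatFunc k) P := by exact_mod_cast eI_pos P
  exact (mul_pos_iff_of_pos_left h2).1 h

theorem ord_eq_eI {P : Place k E} {c : k} (h : 0 < P.ord (cE E (X - C c : k[X]))) :
    P.ord (cE E (X - C c : k[X])) = eI (RatFunc k) P := by
  rw [ord_cE_und, ord_base (und_pos h), mul_one]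

theorem und_eq_of_pos {P P' : Place k E} {c : k} (h : 0 < P.ord (cE E (X - C c : k[X])))
    (h' : 0 < P'.ord (cE E (X - C c : k[X]))) : und (RatFunc k) P = und (RatFunc k) P' :=
  unique_base (und_pos h) (und_pos h')

theorem exists_place_over [IsFF k E] (c : k) : ∃ P : Place k E, 0 < P.ord (cE E (X - C c : k[X])) := by
  obtain ⟨w, hw⟩ := exists_place_base c
  have h1 := sum_fibS (E := E) w
  have h2 : (fibS E w).Nonempty := by
    by_contra hc
    rw [Finset.not_nonempty_iff_eq_empty] at hc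
    rw [hc, Finset.sum_empty, deg_one, mul_one] at h1
    have : 0 < finrank (RatFunc k) E := finrank_pos
    omega
  obtain ⟨P, hP⟩ := h2
  rw [mem_fibS] at hP
  refine ⟨P, ?_⟩
  rw [ord_cE_und, hP]
  exact mul_pos (by exact_mod_cast eI_pos P) hw

end

section
variable {k F E : Type} [Field k] [Field F] [Field E] [Algebra k F] [Algebra k E] [Algebra F E]
  [IsScalarTower k F E] [FiniteDimensional F E] [IsGalois F E]

theorem ord_prod (P : Place k E) (X : Finset E) (h : ∀ x ∈ X, x ≠ 0) :
    ∏ x ∈ X, x ≠ 0 ∧ P.ord (∏ x ∈ X, x) = ∑ x ∈ X, P.ord x := by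
  classical
  induction X using Finset.induction_on with
  | empty => simp [P.ord_one]
  | insert a s ha ih =>
    obtain ⟨h1, h2⟩ := ih fun i hi => h i (Finset.mem_insert_of_mem hi)
    have h3 := h a (Finset.mem_insert_self _ _)
    rw [Finset.prod_insert ha, Finset.sum_insert ha]
    exact ⟨mul_ne_zero h3 h1, by rw [P.ord_mul h3 h1, h2]⟩

/-- elements fixed by the whole group -/
theorem eI_dvd_of_fixed (P : Place k E) (x : E) (h : ∀ σ : E ≃ₐ[F] E, σ x = x) :
    (eI F P : ℤ) ∣ P.ord x := by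
  obtain ⟨y, rfl⟩ := (IsGalois.mem_range_algebraMap_iff_fixed x).2 h
  exact ⟨_, (over_und P).2 y⟩

/-- transitivity from ramification -/
theorem trans_of_ord (P : Place k E) (X : Finset E) (M : ℕ) (hM : X.card = M)
    (hX : ∀ x ∈ X, x ≠ 0 ∧ (M : ℤ) * P.ord x = eI F P) (hst : ∀ σ : E ≃ₐ[F] E, ∀ x ∈ X, σ x ∈ X)
    {x y : E} (hx : x ∈ X) (hy : y ∈ X) : ∃ σ : E ≃ₐ[F] E, σ x = y := by
  classical
  haveI : Fintype (E ≃ₐ[F] E) := Fintype.ofFinite _
  let O : Finset E := Finset.univ.image fun σ : E ≃ₐ[F] E => σ x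
  have hO : O ⊆ X := by
    intro z hz
    obtain ⟨σ, -, rfl⟩ := Finset.mem_image.1 hz
    exact hst σ x hx
  have hxO : x ∈ O := Finset.mem_image.2 ⟨1, Finset.mem_univ _, rfl⟩
  have hfix : ∀ σ : E ≃ₐ[F] E, σ (∏ z ∈ O, z) = ∏ z ∈ O, z := by
    intro σ
    rw [map_prod]
    refine Finset.prod_bij (fun z _ => σ z) ?_ ?_ ?_ ?_
    · intro z hz
      obtain ⟨τ, -, rfl⟩ := Finset.mem_image.1 hz
      exact Finset.mem_image.2 ⟨σ * τ, Finset.mem_univ _, rfl⟩
    · intro z _ w _ h
      exact σ.injective h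
    · intro z hz
      obtain ⟨τ, -, rfl⟩ := Finset.mem_image.1 hz
      refine ⟨(σ⁻¹ * τ) x, Finset.mem_image.2 ⟨σ⁻¹ * τ, Finset.mem_univ _, rfl⟩, ?_⟩
      rw [← AlgEquiv.mul_apply, mul_inv_cancel_left]
    · intro z _; rfl
  obtain ⟨h1, h2⟩ := ord_prod P O fun z hz => (hX z (hO hz)).1
  obtain ⟨t, ht⟩ := eI_dvd_of_fixed (F := F) P _ hfix
  have he : 0 < (eI F P : ℤ) := by exact_mod_cast (over_und (F := F) P).1
  have h3 : (M : ℤ) * P.ord (∏ z ∈ O, z) = O.card * eI F P := by
    rw [h2, Finset.mul_sum, Finset.sum_congr rfl fun z hz => (hX z (hO hz)).2, Finset.sum_const,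
      nsmul_eq_mul]
  rw [ht] at h3
  have h4 : (M : ℤ) * t = O.card := by
    have : (eI F P : ℤ) * (M * t) = eI F P * O.card := by linarith
    exact mul_left_cancel₀ he.ne' this
  have h5 : 0 < O.card := Finset.card_pos.2 ⟨x, hxO⟩
  have h6 : M ≤ O.card := by
    have h7 : (M : ℤ) ∣ (O.card : ℤ) := ⟨t, h4.symm⟩
    exact Nat.le_of_dvd h5 (by exact_mod_cast h7)
  have h7 : O = X := Finset.eq_of_subset_of_card_le hO (by rw [hM]; exact h6)
  rw [← h7] at hy
  obtain ⟨σ, -, hσ⟩ := Finset.mem_image.1 hy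
  exact ⟨σ, hσ⟩

end

end Pool.Agent.W493.MX.St
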