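import Pool.Agent.W493.MX.L3

/-! Project MX: counting roots over finite fields; the family of linearised polynomials. -/

set_option autoImplicit false
set_option linter.all false
set_option linter.overlappingInstances false

open Module FF Pool.Agent.H525R3.FFp Pool.Agent.W132.AG Polynomial

namespace Pool.Agent.W493.MX.St

section
variable {k : Type} [Field k] [IsAlgClosed k] {p : ℕ} [Fact p.Prime] [CharP k p]

/-- the field with `p ^ N` elements inside `k` -/
theorem exists_F1 (k : Type) [Field k] [IsAlgClosed k] (p : ℕ) [Fact p.Prime] [CharP k p] {N : ℕ}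
    (hN : 0 < N) : ∃ (F1 : Type) (_ : Field F1) (_ : Finite F1) (i : F1 →+* k),
      Nat.card F1 = p ^ N ∧ ∀ x : k, x ^ p ^ N = x ↔ ∃ b, i b = x := by
  classical
  have hp : p.Prime := Fact.out
  letI : Algebra (ZMod p) k := ZMod.algebra k p
  haveI : Fintype (GaloisField p N) := Fintype.ofFinite _
  have hcard : Nat.card (GaloisField p N) = p ^ N := GaloisField.card p N hN.ne'
  let i : GaloisField p N →ₐ[ZMod p] k := IsAlgClosed.lift
  refine ⟨GaloisField p N, inferInstance, inferInstance, i.toRingHom, hcard, ?_⟩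
  have hQ : 1 < p ^ N := Nat.one_lt_pow hN.ne' hp.one_lt
  have hle : ∀ b : GaloisField p N, (i b) ^ p ^ N = i b := by
    intro b
    rw [← map_pow]
    congr 1
    rw [← hcard, Nat.card_eq_fintype_card]
    exact FiniteField.pow_card b
  let S : Finset k := Finset.univ.image (fun b : GaloisField p N => i b)
  have hS : S.card = p ^ N := by
    rw [Finset.card_image_of_injective Finset.univ (f := fun b : GaloisField p N => i b)
      (RingHom.injective i.toRingHom), Finset.card_univ, ← Nat.card_eq_fintype_card, hcard]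
  have hne : (X ^ p ^ N - X : k[X]) ≠ 0 := FiniteField.X_pow_card_pow_sub_X_ne_zero k hN.ne' hp.one_lt
  have hsub : S ⊆ (X ^ p ^ N - X : k[X]).roots.toFinset := by
    intro x hx
    obtain ⟨b, -, rfl⟩ := Finset.mem_image.1 hx
    rw [Multiset.mem_toFinset, mem_roots hne]
    simp only [IsRoot.def, eval_sub, eval_pow, eval_X]
    rw [hle, sub_self]
  have hcardle : (X ^ p ^ N - X : k[X]).roots.toFinset.card ≤ p ^ N := by
    refine (Multiset.toFinset_card_le _).trans ((card_roots' _).trans ?_)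
    rw [FiniteField.X_pow_card_pow_sub_X_natDegree_eq k hN.ne' hp.one_lt]
  have heq := Finset.eq_of_subset_of_card_le hsub (by rw [hS]; exact hcardle)
  intro x
  constructor
  · intro hx
    have : x ∈ S := by
      rw [heq, Multiset.mem_toFinset, mem_roots hne]
      simp only [IsRoot.def, eval_sub, eval_pow, eval_X]
      rw [hx, sub_self]
    obtain ⟨b, -, hb⟩ := Finset.mem_image.1 this
    exact ⟨b, hb⟩
  · rintro ⟨b, rfl⟩
    exact hle b

/-- a nonzero monic linearised polynomial of `q`-degree `m` has at most `q ^ m` roots -/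
theorem card_roots_le {q : ℕ} (hq : 2 ≤ q) (T : Finset ℕ) (m : ℕ) (hm : m ∈ T) (hT : ∀ j ∈ T, j ≤ m)
    (c : ℕ → k) (hc : c m = 1) (S : Finset k) (hS : ∀ x ∈ S, ∑ j ∈ T, c j * x ^ q ^ j = 0) :
    S.card ≤ q ^ m := by
  classical
  let f : k[X] := ∑ j ∈ T, C (c j) * X ^ q ^ j
  have hf : f = X ^ q ^ m + ∑ j ∈ T.erase m, C (c j) * X ^ q ^ j := by
    show ∑ j ∈ T, C (c j) * X ^ q ^ j = _
    rw [← Finset.add_sum_erase T _ hm, hc, C_1, one_mul]
  have hdeg : (∑ j ∈ T.erase m, C (c j) * X ^ q ^ j : k[X]).degree < (q ^ m : ℕ) := by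
    refine (degree_sum_le _ _).trans_lt ?_
    rw [Finset.sup_lt_iff (by exact WithBot.bot_lt_coe _)]
    intro j hj
    rw [Finset.mem_erase] at hj
    refine (degree_C_mul_X_pow_le _ _).trans_lt ?_
    have : q ^ j < q ^ m := Nat.pow_lt_pow_right (by omega) (lt_of_le_of_ne (hT j hj.2) hj.1)
    exact_mod_cast this
  have hmon : f.Monic := by
    rw [hf]
    exact monic_X_pow_add hdeg
  have hnat : f.natDegree = q ^ m := by
    have h1 : f.degree = (q ^ m : ℕ) := by
      rw [hf, degree_add_eq_left_of_degree_lt (by rw [degree_X_pow]; exact hdeg), degree_X_pow]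
    exact natDegree_eq_of_degree_eq_some h1
  have hsub : S ⊆ f.roots.toFinset := by
    intro x hx
    rw [Multiset.mem_toFinset, mem_roots hmon.ne_zero]
    show eval x (∑ j ∈ T, C (c j) * X ^ q ^ j) = 0
    rw [eval_finset_sum]
    simpa using hS x hx
  calc S.card ≤ f.roots.toFinset.card := Finset.card_le_card hsub
    _ ≤ _ := Multiset.toFinset_card_le _
    _ ≤ f.natDegree := card_roots' _
    _ = _ := hnat

/-- The roots of a good linearised polynomial are fixed by a power of Frobenius. -/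
theorem roots_fixed {e : ℕ} (he : 0 < e) {T : Finset ℕ} {m g : ℕ} (hmT : m ∈ T)
    (hTle : ∀ j ∈ T, j ≤ m) (hg0 : 0 < g) (hgdvd : ∀ j ∈ T, g ∣ j) {n : ℕ}
    {c : ℕ → k} {v : Fin (m / g) → k} (hc : c m = 1)
    (hv : ∀ i, v i ^ (p ^ e) ^ n = v i) (hvr : ∀ i, ∑ j ∈ T, c j * v i ^ (p ^ e) ^ j = 0)
    (hli : ∀ b : Fin (m / g) → k, (∀ i, b i ^ (p ^ e) ^ g = b i) →
      ∑ i, b i * v i = 0 → ∀ i, b i = 0)
    {ξ : k} (hξ : ∑ j ∈ T, c j * ξ ^ (p ^ e) ^ j = 0) : ξ ^ ((p ^ e) ^ n) ^ g = ξ := by
  classical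
  have hp : p.Prime := Fact.out
  have hq : 2 ≤ p ^ e := hp.two_le.trans (Nat.le_self_pow he.ne' p)
  obtain ⟨F1, _, _, i, hcard, hi⟩ := exists_F1 k p (N := e * g) (by positivity)
  haveI : Fintype F1 := Fintype.ofFinite _
  have hpow : p ^ (e * g) = (p ^ e) ^ g := pow_mul _ _ _
  -- powers of elements of F1
  have hfix : ∀ (b : F1) (j : ℕ), g ∣ j → (i b) ^ (p ^ e) ^ j = i b := by
    rintro b j ⟨t, rfl⟩
    have h1 : (i b) ^ (p ^ e) ^ g = i b := by rw [← hpow]; exact (hi _).2 ⟨b, rfl⟩
    induction t with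
    | zero => simp
    | succ t ih => rw [Nat.mul_succ, pow_add, pow_mul, ih, h1]
  let φ : (Fin (m / g) → F1) → k := fun b => ∑ l, i (b l) * v l
  have hφpow : ∀ (b : Fin (m / g) → F1) (j : ℕ), g ∣ j →
      (φ b) ^ (p ^ e) ^ j = ∑ l, i (b l) * v l ^ (p ^ e) ^ j := by
    intro b j hj
    show (∑ l, i (b l) * v l) ^ (p ^ e) ^ j = _
    rw [← pow_mul, sum_pow_char_pow]
    refine Finset.sum_congr rfl fun l _ => ?_
    rw [mul_pow]
    congr 1
    rw [pow_mul]
    exact hfix _ j hj
  have hφinj : Function.Injective φ := by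
    intro b b' h
    have h1 := hli (fun l => i (b l - b' l)) (fun l => by
      rw [← hpow]
      exact (hi _).2 ⟨_, rfl⟩) (by
        show ∑ l, i (b l - b' l) * v l = 0
        have : ∑ l, i (b l - b' l) * v l = φ b - φ b' := by
          show _ = ∑ l, i (b l) * v l - ∑ l, i (b' l) * v l
          rw [← Finset.sum_sub_distrib]
          refine Finset.sum_congr rfl fun l _ => ?_
          rw [map_sub]; ring
        rw [this, h, sub_self])
    funext l
    have h2 := h1 l
    simp only [map_eq_zero] at h2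
    exact sub_eq_zero.1 h2
  have hroot : ∀ b, ∑ j ∈ T, c j * (φ b) ^ (p ^ e) ^ j = 0 := by
    intro b
    calc ∑ j ∈ T, c j * (φ b) ^ (p ^ e) ^ j
        = ∑ j ∈ T, ∑ l, i (b l) * (c j * v l ^ (p ^ e) ^ j) := by
          refine Finset.sum_congr rfl fun j hj => ?_
          rw [hφpow b j (hgdvd j hj), Finset.mul_sum]
          refine Finset.sum_congr rfl fun l _ => by ring
      _ = ∑ l, i (b l) * ∑ j ∈ T, c j * v l ^ (p ^ e) ^ j := by
          rw [Finset.sum_comm]
          refine Finset.sum_congr rfl fun l _ => ?_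
          rw [Finset.mul_sum]
      _ = 0 := by
          refine Finset.sum_eq_zero fun l _ => ?_
          rw [hvr, mul_zero]
  let S : Finset k := Finset.univ.image φ
  have hScard : S.card = (p ^ e) ^ m := by
    rw [Finset.card_image_of_injective _ hφinj, Finset.card_univ, Fintype.card_fun, Fintype.card_fin,
      ← Nat.card_eq_fintype_card, hcard, hpow, ← pow_mul, Nat.mul_div_cancel' (hgdvd m hmT)]
  have hSroot : ∀ x ∈ S, ∑ j ∈ T, c j * x ^ (p ^ e) ^ j = 0 := by
    intro x hx
    obtain ⟨b, -, rfl⟩ := Finset.mem_image.1 hx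
    exact hroot b
  have hξS : ξ ∈ S := by
    by_contra hc'
    have h1 := card_roots_le hq T m hmT hTle c hc (insert ξ S) (by
      intro x hx
      rcases Finset.mem_insert.1 hx with rfl | hx
      · exact hξ
      · exact hSroot x hx)
    rw [Finset.card_insert_of_notMem hc', hScard] at h1
    omega
  obtain ⟨b, -, rfl⟩ := Finset.mem_image.1 hξS
  have h2 : ((p ^ e) ^ n) ^ g = (p ^ e) ^ (n * g) := (pow_mul _ _ _).symm
  rw [h2, hφpow b (n * g) (Dvd.intro_left n rfl)]
  show _ = ∑ l, i (b l) * v l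
  refine Finset.sum_congr rfl fun l _ => ?_
  congr 1
  have h3 : ∀ t : ℕ, v l ^ (p ^ e) ^ (n * t) = v l := by
    intro t
    induction t with
    | zero => simp
    | succ t ih => rw [Nat.mul_succ, pow_add, pow_mul, ih, hv]
  exact h3 g

end

end Pool.Agent.W493.MX.St
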