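import Pool.Agent.W493.MX.L4

/-! Project MX: the family of linearised polynomials. -/

set_option autoImplicit false
set_option linter.all false
set_option linter.overlappingInstances false

open Module FF Pool.Agent.H525R3.FFp Pool.Agent.W132.AG Polynomial

namespace Pool.Agent.W493.MX.St

section
variable {k : Type} [Field k] {p : ℕ} [Fact p.Prime] [CharP k p]

/-- coefficients in the field with `p ^ e` elements -/
theorem rat_iff {e : ℕ} {f : k[X]} :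
    (∀ i, f.coeff i ^ p ^ e = f.coeff i) ↔ f.map (iterateFrobenius k p e) = f := by
  rw [Polynomial.ext_iff]
  simp only [coeff_map, iterateFrobenius_def]

theorem exists_family (hI : S_I) [IsAlgClosed k] {e : ℕ} (he : 0 < e) (T : Finset ℕ) {m d : ℕ}
    (hm : m ∈ T) (hm0 : 0 < m) (hd : 0 < d) (γ : ℕ → k)
    (hγ : ∀ j ∈ T, j ≠ 0 → γ j ^ (p ^ e) ^ d = γ j) (hγm : γ m = 1) :
    ∃ (s₀ : k) (c : ℕ → k[X]), s₀ ^ (p ^ e) ^ d = s₀ ∧
      (∀ j ∈ T, ∀ i, (c j).coeff i ^ p ^ e = (c j).coeff i) ∧ c m = 1 ∧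
      (∃ g : k[X], c 0 = (X - C 0) * g ∧ g.eval 0 ≠ 0) ∧
      (∀ j ∈ T, j ≠ 0 → j ≠ m → (X - C 0) ^ 2 ∣ c j) ∧
      (∃ g : k[X], c 0 = (X - C s₀) * g ∧ g.eval s₀ ≠ 0) ∧
      (∀ j ∈ T, j ≠ 0 → (X - C s₀) ^ 2 ∣ c j - C (γ j)) ∧
      (∀ j ∈ T, j ≠ 0 → (c j).eval s₀ = γ j) := by
  classical
  have hp : p.Prime := Fact.out
  obtain ⟨s₀, π, hs0, hsd, hπ, hπ0, hπs, hπd, hint⟩ := hI k p e he d hd
  have hqd : 2 ≤ (p ^ e) ^ d := by
    have h1 : 2 ≤ p ^ e := hp.two_le.trans (Nat.le_self_pow he.ne' p)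
    exact h1.trans (Nat.le_self_pow hd.ne' _)
  have hex : ∀ j, ∃ f : k[X], (∀ i, f.coeff i ^ p ^ e = f.coeff i) ∧ (j ∈ T → j ≠ 0 → f.eval s₀ = γ j / s₀) := by
    intro j
    by_cases hj : j ∈ T ∧ j ≠ 0
    · obtain ⟨f, hf, hfe⟩ := hint (γ j / s₀) (by rw [div_pow, hγ j hj.1 hj.2, hsd])
      exact ⟨f, hf, fun _ _ => hfe⟩
    · refine ⟨0, fun i => by simp [zero_pow (pow_pos hp.pos e).ne'], fun h1 h2 => absurd ⟨h1, h2⟩ hj⟩
  choose D hD hDe using hex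
  let c : ℕ → k[X] := fun j => if j = 0 then X * π else if j = m then 1 else (X * D j) ^ (p ^ e) ^ d
  have hc0 : c 0 = X * π := if_pos rfl
  have hcm : c m = 1 := by
    show (if m = 0 then X * π else if m = m then 1 else (X * D m) ^ (p ^ e) ^ d) = 1
    rw [if_neg hm0.ne', if_pos rfl]
  have hcj : ∀ j, j ≠ 0 → j ≠ m → c j = (X * D j) ^ (p ^ e) ^ d := by
    intro j h1 h2
    show (if j = 0 then X * π else if j = m then 1 else (X * D j) ^ (p ^ e) ^ d) = _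
    rw [if_neg h1, if_neg h2]
  have hsq : ∀ f : k[X], f ^ 2 ∣ f ^ (p ^ e) ^ d := fun f => pow_dvd_pow f hqd
  have h7 : ∀ j ∈ T, j ≠ 0 → (X - C s₀) ^ 2 ∣ c j - C (γ j) := by
    intro j hj hj0
    by_cases hjm : j = m
    · subst hjm
      rw [hcm, hγm, C_1, sub_self]
      exact dvd_zero _
    · rw [hcj j hj0 hjm]
      have h1 : C (γ j) = (C (γ j) : k[X]) ^ (p ^ e) ^ d := by rw [← C_pow, hγ j hj hj0]
      rw [h1, ← pow_mul, ← sub_pow_char_pow, pow_mul]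
      refine dvd_trans ?_ (hsq _)
      apply pow_dvd_pow_of_dvd
      rw [dvd_iff_isRoot, IsRoot.def, eval_sub, eval_mul, eval_X, eval_C, hDe j hj hj0]
      field_simp
      ring
  refine ⟨s₀, c, hsd, ?_, hcm, ⟨π, by rw [hc0, C_0, sub_zero], hπ0⟩, ?_, ?_, h7, ?_⟩
  · intro j _
    rw [rat_iff]
    by_cases hj0 : j = 0
    · rw [hj0, hc0, Polynomial.map_mul, map_X, rat_iff.1 hπ]
    · by_cases hjm : j = m
      · rw [hjm, hcm, Polynomial.map_one]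
      · rw [hcj j hj0 hjm, Polynomial.map_pow, Polynomial.map_mul, map_X, rat_iff.1 (hD j)]
  · intro j hj hj0 hjm
    rw [hcj j hj0 hjm, C_0, sub_zero, mul_pow]
    exact Dvd.dvd.mul_right (hsq X) _
  · obtain ⟨h, hh⟩ := dvd_iff_isRoot.2 hπs
    refine ⟨X * h, by rw [hc0, hh]; ring, ?_⟩
    rw [eval_mul, eval_X]
    refine mul_ne_zero hs0 ?_
    rw [hh] at hπd
    simpa using hπd
  · intro j hj hj0
    obtain ⟨h, hh⟩ := h7 j hj hj0
    have h1 : c j = (X - C s₀) ^ 2 * h + C (γ j) := by rw [← hh]; ring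
    rw [h1]
    simp

end

end Pool.Agent.W493.MX.St
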