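import Pool.Agent.W493.MX.L5

/-! Project MX: the space of roots over the field with `q ^ g` elements; values at a place. -/

set_option autoImplicit false
set_option linter.all false
set_option linter.overlappingInstances false

open Module FF Pool.Agent.H525R3.FFp Pool.Agent.W132.AG Polynomial

namespace Pool.Agent.W493.MX.St

section
variable {k K : Type} [Field k] [Field K] [Algebra k K] [IsAlgClosed k] [IsFF k K]

/-- the residue as a constant -/
noncomputable def val (P : Place k K) (f : K) : k := (exists_const P (P.red f)).choose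

theorem red_eq_val (P : Place k K) (f : K) : P.red f = algebraMap k P.RF (val P f) :=
  (exists_const P (P.red f)).choose_spec

theorem val_eq {P : Place k K} {f : K} {c : k} (h : P.red f = algebraMap k P.RF c) : val P f = c :=
  (algebraMap k P.RF).injective (by rw [← red_eq_val, h])

theorem val_add {P : Place k K} {f g : K} (hf : P.Reg f) (hg : P.Reg g) :
    val P (f + g) = val P f + val P g :=
  val_eq (by rw [P.red_add hf hg, red_eq_val, red_eq_val P g, map_add])

theorem val_mul {P : Place k K} {f g : K} (hf : P.Reg f) (hg : P.Reg g) :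
    val P (f * g) = val P f * val P g :=
  val_eq (by rw [P.red_mul hf hg, red_eq_val, red_eq_val P g, map_mul])

theorem val_sub {P : Place k K} {f g : K} (hf : P.Reg f) (hg : P.Reg g) :
    val P (f - g) = val P f - val P g :=
  val_eq (by rw [P.red_sub hf hg, red_eq_val, red_eq_val P g, map_sub])

theorem val_pow {P : Place k K} {f : K} (hf : P.Reg f) (n : ℕ) : val P (f ^ n) = val P f ^ n :=
  val_eq (by rw [P.red_pow hf, red_eq_val, map_pow])

theorem val_const (P : Place k K) (c : k) : val P (algebraMap k K c) = c :=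
  val_eq (red_const P c)

theorem val_zero (P : Place k K) : val P 0 = 0 :=
  val_eq (by rw [P.red_zero, map_zero])

theorem val_eq_zero {P : Place k K} {f : K} : val P f = 0 ↔ P.red f = 0 := by
  rw [red_eq_val]
  simp

theorem val_sum {P : Place k K} {ι : Type} (s : Finset ι) (f : ι → K) (h : ∀ i ∈ s, P.Reg (f i)) :
    val P (∑ i ∈ s, f i) = ∑ i ∈ s, val P (f i) :=
  val_eq (by
    rw [(reg_sum P s f h).2, map_sum]
    exact Finset.sum_congr rfl fun i _ => red_eq_val P (f i))

end

section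
variable {k E F1 : Type} [Field k] [Field E] [Field F1] [Finite F1] [Algebra k E]
  [Algebra (RatFunc k) E] [IsScalarTower k (RatFunc k) E] [Algebra F1 k]
  [Algebra F1 E] [IsScalarTower F1 k E] {p e : ℕ} [Fact p.Prime] [CharP k p]

omit [Algebra k E] [Algebra (RatFunc k) E] [IsScalarTower k (RatFunc k) E] [IsScalarTower F1 k E] [Algebra F1 k] [CharP k p] [Field k] in
theorem F1_pow {g : ℕ} (hF1 : Nat.card F1 = (p ^ e) ^ g) {j : ℕ} (hj : g ∣ j) (b : F1) :
    b ^ (p ^ e) ^ j = b := by
  haveI : Fintype F1 := Fintype.ofFinite _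
  obtain ⟨t, rfl⟩ := hj
  have h1 : b ^ (p ^ e) ^ g = b := by
    rw [← hF1, Nat.card_eq_fintype_card]
    exact FiniteField.pow_card b
  induction t with
  | zero => simp
  | succ t ih => rw [Nat.mul_succ, pow_add, pow_mul, ih, h1]

omit [Algebra k E] [IsScalarTower k (RatFunc k) E] [Algebra F1 k] [IsScalarTower F1 k E] in
theorem Lop_smul {g : ℕ} (hF1 : Nat.card F1 = (p ^ e) ^ g) {T : Finset ℕ} (hT : ∀ j ∈ T, g ∣ j)
    (c : ℕ → k[X]) (b : F1) (x : E) : Lop (p ^ e) T c (b • x) = b • Lop (p ^ e) T c x := by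
  unfold Lop
  rw [Finset.smul_sum]
  refine Finset.sum_congr rfl fun j hj => ?_
  rw [_root_.smul_pow, F1_pow hF1 (hT j hj), mul_smul_comm]

theorem charE' (k E : Type) [Field k] [Field E] [Algebra k E] (p : ℕ) [CharP k p] : CharP E p :=
  charP_of_injective_algebraMap (algebraMap k E).injective p

variable (F1 E) in
/-- the space of roots -/
noncomputable def RS (p e : ℕ) [Fact p.Prime] [CharP k p] {g : ℕ} (hF1 : Nat.card F1 = (p ^ e) ^ g) {T : Finset ℕ}
    (hT : ∀ j ∈ T, g ∣ j) (c : ℕ → k[X]) : Submodule F1 E where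
  carrier := {v | Lop (p ^ e) T c v = 0}
  zero_mem' := Lop_zero (pow_pos (Fact.out : p.Prime).pos e) T c
  add_mem' := by
    intro a b ha hb
    haveI : CharP E p := charE' k E p
    show Lop (p ^ e) T c (a + b) = 0
    rw [Lop_add, show Lop (p ^ e) T c a = 0 from ha, show Lop (p ^ e) T c b = 0 from hb, add_zero]
  smul_mem' := by
    intro b x hx
    show Lop (p ^ e) T c (b • x) = 0
    rw [Lop_smul hF1 hT, show Lop (p ^ e) T c x = 0 from hx, smul_zero]

theorem mem_RS {g : ℕ} (hF1 : Nat.card F1 = (p ^ e) ^ g) {T : Finset ℕ}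
    (hT : ∀ j ∈ T, g ∣ j) {c : ℕ → k[X]} {v : E} : v ∈ RS E F1 p e hF1 hT c ↔ Lop (p ^ e) T c v = 0 := Iff.rfl

omit [Algebra k E] [IsScalarTower k (RatFunc k) E] [CharP k p] [Fact p.Prime] in
theorem Lop_aut {q : ℕ} {T : Finset ℕ} (c : ℕ → k[X]) (σ : E ≃ₐ[RatFunc k] E) (x : E) :
    Lop q T c (σ x) = σ (Lop q T c x) := by
  unfold Lop
  rw [map_sum]
  refine Finset.sum_congr rfl fun j _ => ?_
  rw [map_mul, map_pow]
  congr 1
  exact (σ.commutes _).symm

omit [Algebra k E] [IsScalarTower k (RatFunc k) E] [CharP k p] [Fact p.Prime] in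
theorem Lop_frob {q : ℕ} {T : Finset ℕ} {c : ℕ → k[X]} {Φ : E ≃+* E} (h : ∀ j ∈ T, Φ (cE E (c j)) = cE E (c j))
    (x : E) : Lop q T c (Φ x) = Φ (Lop q T c x) := by
  unfold Lop
  rw [map_sum]
  refine Finset.sum_congr rfl fun j hj => ?_
  rw [map_mul, map_pow, h j hj]

end

section
variable {k E : Type} [Field k] [IsAlgClosed k] [Field E] [Algebra k E] [IsFF k E]
  {p : ℕ} [Fact p.Prime] [CharP k p] {F1 : Type} [Field F1] [Finite F1] [Algebra F1 k] [Algebra F1 E]
  [IsScalarTower F1 k E]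

/-- the reduction as a homomorphism -/
noncomputable def redHom (P : Place k E) (V : Submodule F1 E) (h : ∀ v ∈ V, P.Reg v) : V →+ k where
  toFun v := val P (v : E)
  map_zero' := by simpa using val_zero P
  map_add' a b := by
    rw [Submodule.coe_add]
    exact val_add (h _ a.2) (h _ b.2)

/-- counting the kernel of the reduction -/
theorem card_W {e a m : ℕ} (he : 0 < e) (ha : 0 < a) (ham : a ≤ m) (P : Place k E) (V : Submodule F1 E)
    (h : ∀ v ∈ V, P.Reg v) (hcard : Nat.card V = (p ^ e) ^ m)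
    (hR : ∀ S : Finset k, (∀ ξ ∈ S, ∃ v ∈ V, val P v = ξ) → S.card ≤ (p ^ e) ^ (m - a))
    (hord : ∀ w ∈ V, ∀ w' ∈ V, w ≠ 0 → w' ≠ 0 → P.red w = 0 → P.red w' = 0 → P.ord w = P.ord w')
    (hunit : ∀ w ∈ V, ∀ w' ∈ V, w ≠ 0 → w' ≠ 0 → P.red w = 0 → P.red w' = 0 →
      P.red (w' / w) ^ ((p ^ e) ^ a - 1) = 1) :
    Nat.card {w : E // w ∈ V ∧ P.red w = 0} = (p ^ e) ^ a := by
  classical
  have hp : p.Prime := Fact.out
  have hq : 2 ≤ p ^ e := hp.two_le.trans (Nat.le_self_pow he.ne' p)
  have hfin : Finite V := by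
    apply Nat.finite_of_card_ne_zero
    rw [hcard]
    positivity
  let φ := redHom P V h
  have hker : Nat.card φ.ker = Nat.card {w : E // w ∈ V ∧ P.red w = 0} := by
    refine Nat.card_congr ⟨fun x => ⟨x.1.1, x.1.2, ?_⟩, fun x => ⟨⟨x.1, x.2.1⟩, ?_⟩, ?_, ?_⟩
    · exact val_eq_zero.1 ((AddMonoidHom.mem_ker).1 x.2)
    · exact (AddMonoidHom.mem_ker).2 (val_eq_zero.2 x.2.2)
    · intro x; rfl
    · intro x; rfl
  have hrange : Nat.card φ.range ≤ (p ^ e) ^ (m - a) := by
    have hfr : (φ.range : Set k).Finite := by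
      rw [AddMonoidHom.coe_range]
      exact Set.finite_range φ
    have h1 : Nat.card φ.range = hfr.toFinset.card := by
      rw [← Nat.card_eq_card_finite_toFinset]
      rfl
    rw [h1]
    apply hR
    intro ξ hξ
    rw [Set.Finite.mem_toFinset] at hξ
    obtain ⟨v, hv⟩ := hξ
    exact ⟨v.1, v.2, hv⟩
  have hmul : Nat.card V = Nat.card φ.range * Nat.card φ.ker := by
    rw [AddSubgroup.card_eq_card_quotient_mul_card_addSubgroup φ.ker]
    congr 1
    exact Nat.card_congr (QuotientAddGroup.quotientKerEquivRange φ).toEquiv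
  rw [hcard] at hmul
  have hge : (p ^ e) ^ a ≤ Nat.card φ.ker := by
    have h1 : (p ^ e) ^ m = (p ^ e) ^ (m - a) * (p ^ e) ^ a := by
      rw [← pow_add]; congr 1; omega
    have h2 : (p ^ e) ^ (m - a) * (p ^ e) ^ a ≤ (p ^ e) ^ (m - a) * Nat.card φ.ker := by
      rw [← h1, hmul]
      exact Nat.mul_le_mul_right _ hrange
    exact Nat.le_of_mul_le_mul_left h2 (by positivity)
  rw [hker] at hge
  apply le_antisymm _ hge
  -- upper bound
  haveI : Finite {w : E // w ∈ V ∧ P.red w = 0} := by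
    have : Function.Injective (fun x : {w : E // w ∈ V ∧ P.red w = 0} => (⟨x.1, x.2.1⟩ : V)) := by
      intro x y hxy
      exact Subtype.ext (congrArg (fun z : V => (z : E)) hxy)
    exact Finite.of_injective _ this
  have h2a : 2 ≤ (p ^ e) ^ a := hq.trans (Nat.le_self_pow ha.ne' _)
  obtain ⟨w₀, hw0⟩ : ∃ w₀ : {w : E // w ∈ V ∧ P.red w = 0}, w₀.1 ≠ 0 := by
    by_contra hc
    push Not at hc
    have : Subsingleton {w : E // w ∈ V ∧ P.red w = 0} := ⟨fun x y => Subtype.ext (by rw [hc x, hc y])⟩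
    have := Finite.card_le_one_iff_subsingleton.2 this
    omega
  have hregq : ∀ w : {w : E // w ∈ V ∧ P.red w = 0}, P.Reg (w.1 / w₀.1) := by
    intro w
    by_cases hw : w.1 = 0
    · left; rw [hw, zero_div]
    · right
      rw [P.ord_div hw hw0, hord _ w.2.1 _ w₀.2.1 hw hw0 w.2.2 w₀.2.2, sub_self]
  let η : {w : E // w ∈ V ∧ P.red w = 0} → k := fun w => val P (w.1 / w₀.1)
  have hηinj : Function.Injective η := by
    intro x y hxy
    have h1 : val P (x.1 / w₀.1 - y.1 / w₀.1) = 0 := by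
      rw [val_sub (hregq x) (hregq y)]
      exact sub_eq_zero.2 hxy
    by_contra hne
    have hne' : x.1 - y.1 ≠ 0 := fun h => hne (Subtype.ext (sub_eq_zero.1 h))
    have hmem : x.1 - y.1 ∈ V := V.sub_mem x.2.1 y.2.1
    have hred : P.red (x.1 - y.1) = 0 := by
      rw [P.red_sub (h _ x.2.1) (h _ y.2.1), x.2.2, y.2.2, sub_zero]
    rw [← sub_div] at h1
    have h2 := P.red_ne_zero (f := (x.1 - y.1) / w₀.1) (div_ne_zero hne' hw0) (by
      rw [P.ord_div hne' hw0, hord _ hmem _ w₀.2.1 hne' hw0 hred w₀.2.2, sub_self])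
    exact h2 (val_eq_zero.1 h1)
  haveI : Fintype {w : E // w ∈ V ∧ P.red w = 0} := Fintype.ofFinite _
  have hle := card_roots_le hq (k := k) {0, a} a (by simp) (by
    intro j hj
    simp only [Finset.mem_insert, Finset.mem_singleton] at hj
    omega) (fun j => if j = a then 1 else -1) (by simp) (Finset.univ.image η) (by
    intro x hx
    obtain ⟨w, -, rfl⟩ := Finset.mem_image.1 hx
    rw [Finset.sum_insert (by simp; omega), Finset.sum_singleton]
    rw [if_neg (by omega), if_pos rfl, pow_zero, pow_one, one_mul]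
    show -1 * η w + η w ^ (p ^ e) ^ a = 0
    by_cases hw : w.1 = 0
    · have : η w = 0 := by
        show val P (w.1 / w₀.1) = 0
        rw [hw, zero_div, val_zero]
      rw [this, zero_pow (by positivity)]
      ring
    · have h1 := hunit _ w₀.2.1 _ w.2.1 hw0 hw w₀.2.2 w.2.2
      have h2 : η w ^ ((p ^ e) ^ a - 1) = 1 := by
        apply (algebraMap k P.RF).injective
        rw [map_pow, map_one, ← h1]
        congr 1
        exact (red_eq_val P _).symm
      have h3 : η w ^ (p ^ e) ^ a = η w ^ ((p ^ e) ^ a - 1) * η w := by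
        rw [← pow_succ]; congr 1; omega
      rw [h3, h2]; ring)
  rw [Finset.card_image_of_injective _ hηinj, Finset.card_univ] at hle
  rw [Nat.card_eq_fintype_card]
  exact hle

end

end Pool.Agent.W493.MX.St
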