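import Pool.Agent.W493.MX.M1

/-! Project MX: the Galois group is the full linear group. -/

set_option autoImplicit false
set_option linter.all false
set_option linter.overlappingInstances false

open Module FF Pool.Agent.H525R3.FFp Pool.Agent.W132.AG Polynomial

namespace Pool.Agent.W493.MX.St

section
variable {k E : Type} [Field k] [Field E] [Algebra k E] [Algebra (RatFunc k) E]
  [IsScalarTower k (RatFunc k) E]

omit [Algebra (RatFunc k) E] [IsScalarTower k (RatFunc k) E] in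
theorem frob_pow_const {Φ : E ≃+* E} {q : ℕ} (h : ∀ c : k, Φ (algebraMap k E c) = algebraMap k E (c ^ q))
    (n : ℕ) (c : k) : (Φ ^ n : E ≃+* E) (algebraMap k E c) = algebraMap k E (c ^ q ^ n) := by
  induction n generalizing c with
  | zero => simp
  | succ n ih => rw [pow_succ', RingAut.mul_apply, ih, h, ← pow_mul, ← pow_succ]

omit [Algebra (RatFunc k) E] [IsScalarTower k (RatFunc k) E] [Algebra k E] in
theorem frob_pow_fix {Φ : E ≃+* E} {x : E} (h : Φ x = x) (n : ℕ) : (Φ ^ n : E ≃+* E) x = x := by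
  induction n with
  | zero => simp
  | succ n ih => rw [pow_succ', RingAut.mul_apply, ih, h]

omit [Algebra k E] [IsScalarTower k (RatFunc k) E] in
theorem frob_pow_conj {Φ : E ≃+* E}
    (h : ∀ σ : E ≃ₐ[RatFunc k] E, ∃ τ : E ≃ₐ[RatFunc k] E, ∀ z, τ (Φ z) = Φ (σ z)) (n : ℕ)
    (σ : E ≃ₐ[RatFunc k] E) : ∃ τ : E ≃ₐ[RatFunc k] E, ∀ z,
      τ ((Φ ^ n : E ≃+* E) z) = (Φ ^ n : E ≃+* E) (σ z) := by
  induction n with
  | zero => exact ⟨σ, fun z => rfl⟩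
  | succ n ih =>
    obtain ⟨τ, hτ⟩ := ih
    obtain ⟨τ', hτ'⟩ := h τ
    refine ⟨τ', fun z => ?_⟩
    rw [pow_succ', RingAut.mul_apply, hτ', hτ, RingAut.mul_apply]

variable [IsAlgClosed k] [FiniteDimensional (RatFunc k) E] [IsGalois (RatFunc k) E] [IsFF k E]

/-- over a point fixed by the `n`-th power of Frobenius some lift stabilises the place -/
theorem exists_frob_at (hG1 : S_G1) {Φ : E ≃+* E} {q : ℕ}
    (hΦk : ∀ c : k, Φ (algebraMap k E c) = algebraMap k E (c ^ q))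
    (hΦX : Φ (cE E (X : k[X])) = cE E (X : k[X])) (n : ℕ) {P : Place k E} {s : k} (hs : s ^ q ^ n = s)
    (hP : 0 < P.ord (cE E (X - C s : k[X]))) :
    ∃ σ : E ≃ₐ[RatFunc k] E, (∀ z, P.ord ((Φ ^ n : E ≃+* E) (σ z)) = P.ord z) ∧
      FrobAt (q ^ n) ((Φ ^ n : E ≃+* E) * σ.toRingEquiv) P := by
  have h1 : ∀ c : k, ∃ c' : k, (Φ ^ n : E ≃+* E) (algebraMap k E c) = algebraMap k E c' :=
    fun c => ⟨_, frob_pow_const hΦk n c⟩
  have h2 : (Φ ^ n : E ≃+* E) (cE E (X - C s : k[X])) = cE E (X - C s : k[X]) := by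
    rw [cE_sub, map_sub, frob_pow_fix hΦX, cE_C, frob_pow_const hΦk, hs]
  have h3 : 0 < (compR P (Φ ^ n : E ≃+* E) h1).ord (cE E (X - C s : k[X])) := by
    rw [compR_ord, h2]; exact hP
  obtain ⟨σ, hσ⟩ := hG1 k (RatFunc k) E (compR P (Φ ^ n : E ≃+* E) h1) P (und_eq_of_pos h3 hP)
  have h4 : ∀ z, P.ord ((Φ ^ n : E ≃+* E) (σ z)) = P.ord z := fun z => (hσ z).symm
  refine ⟨σ, h4, frobAt_of_ord ?_ h4⟩
  intro c
  show (Φ ^ n : E ≃+* E) (σ (algebraMap k E c)) = _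
  rw [aut_const, frob_pow_const hΦk]

end

section
variable {k E F1 : Type} [Field k] [Field E] [Field F1] [Finite F1] [Algebra k E]
  [Algebra (RatFunc k) E] [IsScalarTower k (RatFunc k) E] [Algebra F1 k]
  [Algebra F1 E] [IsScalarTower F1 k E] [IsScalarTower F1 (RatFunc k) E]

/-- the action of a field automorphism on a stable subspace -/
noncomputable def rho (V : Submodule F1 E) (h : ∀ σ : E ≃ₐ[RatFunc k] E, ∀ v ∈ V, σ v ∈ V)
    (σ : E ≃ₐ[RatFunc k] E) : V ≃ₗ[F1] V where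
  toFun v := ⟨σ v, h σ v v.2⟩
  map_add' a b := Subtype.ext (map_add σ _ _)
  map_smul' b x := Subtype.ext (by
    show σ (b • (x : E)) = b • σ (x : E)
    rw [Algebra.smul_def, Algebra.smul_def, map_mul, IsScalarTower.algebraMap_apply F1 (RatFunc k) E,
      AlgEquiv.commutes])
  invFun v := ⟨σ⁻¹ v, h σ⁻¹ v v.2⟩
  left_inv v := Subtype.ext (by
    show σ⁻¹ (σ (v : E)) = v
    rw [← AlgEquiv.mul_apply, inv_mul_cancel, AlgEquiv.one_apply])
  right_inv v := Subtype.ext (by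
    show σ (σ⁻¹ (v : E)) = v
    rw [← AlgEquiv.mul_apply, mul_inv_cancel, AlgEquiv.one_apply])

/-- the image of the Galois group -/
noncomputable def Gam (V : Submodule F1 E) (h : ∀ σ : E ≃ₐ[RatFunc k] E, ∀ v ∈ V, σ v ∈ V) :
    Subgroup (V ≃ₗ[F1] V) where
  carrier := {γ | ∃ σ : E ≃ₐ[RatFunc k] E, ∀ v : V, σ (v : E) = γ v}
  one_mem' := ⟨1, fun v => rfl⟩
  mul_mem' := by
    rintro a b ⟨σ, hσ⟩ ⟨τ, hτ⟩
    exact ⟨σ * τ, fun v => by rw [AlgEquiv.mul_apply, hτ, hσ]; rfl⟩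
  inv_mem' := by
    rintro a ⟨σ, hσ⟩
    refine ⟨σ⁻¹, fun v => ?_⟩
    have h1 := hσ (a⁻¹ v)
    have h2 : a (a⁻¹ v) = v := LinearEquiv.apply_symm_apply a v
    rw [h2] at h1
    rw [← h1, ← AlgEquiv.mul_apply, inv_mul_cancel, AlgEquiv.one_apply]

variable [IsAlgClosed k] [FiniteDimensional (RatFunc k) E] [IsGalois (RatFunc k) E] [IsFF k E]

theorem full_group (hG1 : S_G1) (hG3 : S_G3) (hC : S_C) (hN : S_N) (hD : S_D)
    {p e : ℕ} [Fact p.Prime] [CharP k p] (he : 0 < e) {T : Finset ℕ} {m a g : ℕ}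
    (h0 : 0 ∈ T) (hm : m ∈ T) (hTm : ∀ j ∈ T, j ≤ m) (ha : a ∈ T) (ha0 : 0 < a) (ham : a < m)
    (hTa : ∀ j ∈ T, j ≠ 0 → a ≤ j) (hg0 : 0 < g) (hg : ∀ j ∈ T, g ∣ j)
    (hF1 : Nat.card F1 = (p ^ e) ^ g)
    {c : ℕ → k[X]} (hcm : c m = 1)
    (hz : ∃ g : k[X], c 0 = (X - C 0) * g ∧ g.eval 0 ≠ 0)
    (hz2 : ∀ j ∈ T, j ≠ 0 → j ≠ m → (X - C 0) ^ 2 ∣ c j)
    {s₀ : k} (hs : ∃ g : k[X], c 0 = (X - C s₀) * g ∧ g.eval s₀ ≠ 0)
    (hs2 : ∀ j ∈ T, j ≠ 0 → (X - C s₀) ^ 2 ∣ c j - C ((c j).eval s₀))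
    (hca : (c a).eval s₀ ≠ 0) {d : ℕ} (hsd : s₀ ^ (p ^ e) ^ d = s₀)
    (hcardR : ∀ S : Finset k, (∀ ξ ∈ S, ∑ j ∈ T.erase 0, (c j).eval s₀ * ξ ^ (p ^ e) ^ j = 0) →
      S.card ≤ (p ^ e) ^ (m - a))
    {g' : ℕ} (hfix : ∀ ξ : k, ∑ j ∈ T.erase 0, (c j).eval s₀ * ξ ^ (p ^ e) ^ j = 0 →
      ξ ^ ((p ^ e) ^ d) ^ g' = ξ)
    {j₁ : ℕ} (hj : ∀ x : k, x ^ (p ^ e) ^ a = x → x ^ (((p ^ e) ^ d) ^ g') ^ j₁ = x ^ Nat.card F1)
    {Φ : E ≃+* E} (hΦk : ∀ c : k, Φ (algebraMap k E c) = algebraMap k E (c ^ p ^ e))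
    (hΦc : ∀ j ∈ T, Φ (cE E (c j)) = cE E (c j)) (hΦX : Φ (cE E (X : k[X])) = cE E (X : k[X]))
    (hconj : ∀ σ : E ≃ₐ[RatFunc k] E, ∃ τ : E ≃ₐ[RatFunc k] E, ∀ z, τ (Φ z) = Φ (σ z))
    (hcard : Nat.card {v : E // Lop (p ^ e) T c v = 0} = (p ^ e) ^ m)
    (V : Submodule F1 E) (hmemV : ∀ v : E, v ∈ V ↔ Lop (p ^ e) T c v = 0)
    (γ : V ≃ₗ[F1] V) : ∃ σ : E ≃ₐ[RatFunc k] E, ∀ v : V, σ (v : E) = γ v := by
  classical
  have hp : p.Prime := Fact.out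
  have hq : 2 ≤ p ^ e := hp.two_le.trans (Nat.le_self_pow he.ne' p)
  haveI : CharP E p := charE' k E p
  have hVcard : Nat.card V = (p ^ e) ^ m := by
    rw [← hcard]
    exact Nat.card_congr (Equiv.subtypeEquivRight hmemV)
  have hVfin : Finite V := by
    apply Nat.finite_of_card_ne_zero
    rw [hVcard]; positivity
  have hVfin' : (V : Set E).Finite := Set.toFinite _
  have hst : ∀ σ : E ≃ₐ[RatFunc k] E, ∀ v ∈ V, σ v ∈ V := by
    intro σ v hv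
    rw [hmemV] at hv ⊢
    rw [Lop_aut, hv, map_zero]
  obtain ⟨gz, hgz, hgz0⟩ := hz
  obtain ⟨gs, hgs, hgs0⟩ := hs
  -- transitivity on nonzero vectors
  have htrans : ∀ v v' : V, v ≠ 0 → v' ≠ 0 → ∃ g ∈ Gam V hst, g v = v' := by
    intro v v' hv hv'
    obtain ⟨P, hP⟩ := exists_place_over (E := E) (0 : k)
    let X' : Finset E := hVfin'.toFinset.erase 0
    have hX' : X'.card = (p ^ e) ^ m - 1 := by
      rw [Finset.card_erase_of_mem (by rw [Set.Finite.mem_toFinset]; exact V.zero_mem)]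
      congr 1
      rw [← hVcard, ← Nat.card_eq_card_finite_toFinset]
      rfl
    have hpow1 : 1 ≤ (p ^ e) ^ m := Nat.one_le_iff_ne_zero.2 (by positivity)
    obtain ⟨σ, hσ⟩ := trans_of_ord (F := RatFunc k) P X' ((p ^ e) ^ m - 1) hX' (by
      intro x hx
      rw [Finset.mem_erase, Set.Finite.mem_toFinset] at hx
      refine ⟨hx.1, ?_⟩
      have h1 := root_ord_eis hq h0 hm (ha0.trans ham) hTm hcm P hP hgz hgz0 hz2 (v := x)
        ((hmemV x).1 hx.2) hx.1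
      rw [ord_eq_eI hP] at h1
      rw [← h1]
      congr 1
      rw [Nat.cast_sub hpow1]
      simp) (by
      intro σ x hx
      rw [Finset.mem_erase, Set.Finite.mem_toFinset] at hx ⊢
      exact ⟨by simpa using hx.1, hst σ x hx.2⟩) (x := v) (y := v') (by
        rw [Finset.mem_erase, Set.Finite.mem_toFinset]
        exact ⟨fun h => hv (Subtype.ext h), v.2⟩) (by
        rw [Finset.mem_erase, Set.Finite.mem_toFinset]
        exact ⟨fun h => hv' (Subtype.ext h), v'.2⟩)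
    exact ⟨rho V hst σ, ⟨σ, fun v => rfl⟩, Subtype.ext hσ⟩
  -- the degenerate place
  obtain ⟨P, hP⟩ := exists_place_over (E := E) s₀
  have hε : P.ord (cE E (X - C s₀ : k[X])) = eI (RatFunc k) P := ord_eq_eI hP
  obtain ⟨σ₁, hσ₁, hfrob⟩ := exists_frob_at hG1 hΦk hΦX d hsd hP
  have hreg : ∀ v ∈ V, P.Reg v := fun v hv => root_reg hq hm hTm hcm P hP ((hmemV v).1 hv)
  have hWord : ∀ w ∈ V, w ≠ 0 → P.red w = 0 →
      (((p ^ e) ^ a : ℕ) - 1 : ℤ) * P.ord w = eI (RatFunc k) P := by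
    intro w hw hw0 hwr
    have h1 := (root_ord_W hq h0 hm hTm ha ha0 hTa hcm P hP hgs hgs0 hca ((hmemV w).1 hw) hw0 hwr).1
    rw [hε] at h1
    exact h1
  have hpow2 : 2 ≤ (p ^ e) ^ a := hq.trans (Nat.le_self_pow ha0.ne' _)
  have hordeq : ∀ w ∈ V, ∀ w' ∈ V, w ≠ 0 → w' ≠ 0 → P.red w = 0 → P.red w' = 0 →
      P.ord w = P.ord w' := by
    intro w hw w' hw' hw0 hw0' hr hr'
    have h1 := hWord w hw hw0 hr
    have h2 := hWord w' hw' hw0' hr'
    have h3 : (((p ^ e) ^ a : ℕ) - 1 : ℤ) ≠ 0 := by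
      have : (2 : ℤ) ≤ ((p ^ e) ^ a : ℕ) := by exact_mod_cast hpow2
      omega
    exact mul_left_cancel₀ h3 (h1.trans h2.symm)
  have hunit : ∀ w ∈ V, ∀ w' ∈ V, w ≠ 0 → w' ≠ 0 → P.red w = 0 → P.red w' = 0 →
      P.red (w' / w) ^ ((p ^ e) ^ a - 1) = 1 := by
    intro w hw w' hw' hw0 hw0' hr hr'
    obtain ⟨-, h1, h2⟩ := root_ord_W hq h0 hm hTm ha ha0 hTa hcm P hP hgs hgs0 hca
      ((hmemV w).1 hw) hw0 hr
    obtain ⟨-, h3, h4⟩ := root_ord_W hq h0 hm hTm ha ha0 hTa hcm P hP hgs hgs0 hca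
      ((hmemV w').1 hw') hw0' hr'
    have h5 : P.Reg (w' / w) := by
      right
      rw [P.ord_div hw0' hw0, hordeq w' hw' w hw hw0' hw0 hr' hr, sub_self]
    rw [← P.red_pow h5]
    have h6 : cE E (c 0) * w / w ^ (p ^ e) ^ a =
        (w' / w) ^ ((p ^ e) ^ a - 1) * (cE E (c 0) * w' / w' ^ (p ^ e) ^ a) := by
      obtain ⟨A, hA⟩ : ∃ A, (p ^ e) ^ a = A + 1 := ⟨(p ^ e) ^ a - 1, by omega⟩
      rw [hA, Nat.add_sub_cancel, div_pow]
      field_simp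
      ring
    have h7 : P.red (cE E (c 0) * w / w ^ (p ^ e) ^ a) =
        P.red ((w' / w) ^ ((p ^ e) ^ a - 1)) * P.red (cE E (c 0) * w' / w' ^ (p ^ e) ^ a) := by
      rw [h6, P.red_mul (reg_pow' P h5 _) h3]
    rw [h2, h4] at h7
    have h8 : -algebraMap k P.RF ((c a).eval s₀) ≠ 0 := by
      rw [neg_ne_zero]
      simpa using hca
    exact (mul_right_cancel₀ h8 (by rw [one_mul]; exact h7)).symm
  have hVξ : ∀ v ∈ V, ∀ ξ : k, ξ ≠ 0 → P.red v = algebraMap k P.RF ξ →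
      v - algebraMap k E ξ ≠ 0 ∧ (((p ^ e) ^ a : ℕ) : ℤ) * P.ord (v - algebraMap k E ξ) =
        eI (RatFunc k) P := by
    intro v hv ξ hξ hr
    have h1 := root_ord_V he h0 hm hTm ha ha0 hTa hcm P hP hgs hgs0 hca hs2 ((hmemV v).1 hv) hξ hr
    rw [hε] at h1
    exact h1.2
  have hsum : ∀ v ∈ V, ∑ j ∈ T.erase 0, (c j).eval s₀ * (val P v) ^ (p ^ e) ^ j = 0 := by
    intro v hv
    by_cases h1 : val P v = 0
    · rw [h1]
      refine Finset.sum_eq_zero fun j _ => ?_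
      rw [zero_pow (by positivity), mul_zero]
    · exact (root_ord_V he h0 hm hTm ha ha0 hTa hcm P hP hgs hgs0 hca hs2 ((hmemV v).1 hv) h1
        (red_eq_val P v)).1
  have hWcard : Nat.card {w : E // w ∈ V ∧ P.red w = 0} = (p ^ e) ^ a := by
    refine card_W he ha0 ham.le P V hreg hVcard ?_ hordeq hunit
    intro S hS
    apply hcardR
    intro ξ hξ
    obtain ⟨v, hv, rfl⟩ := hS ξ hξ
    exact hsum v hv
  have hga : g ∣ a := hg a ha
  have hb : (p ^ e) ^ a = Nat.card F1 ^ (a / g) := by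
    rw [hF1, ← pow_mul (p ^ e) g, Nat.mul_div_cancel' hga]
  have hb0 : 0 < a / g := Nat.div_pos (Nat.le_of_dvd ha0 hga) hg0
  have hεpos : 0 < eI (RatFunc k) P := eI_pos P
  -- apply MX-C
  obtain ⟨hC1, hC2⟩ := hC k (RatFunc k) E F1 P (eI (RatFunc k) P) ((p ^ e) ^ a) (a / g) V hεpos hb0 hb
    (hG3 k (RatFunc k) E P) hVfin' hst hreg (by
      intro w hw hw0 hr
      exact hWord w hw hw0 hr) hVξ hWcard hunit
    ((Φ ^ d : E ≃+* E) * σ₁.toRingEquiv) ((p ^ e) ^ d) (by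
      intro v hv
      show (Φ ^ d : E ≃+* E) (σ₁ v) ∈ V
      rw [hmemV, Lop_frob (fun j hj => frob_pow_fix (hΦc j hj) d), Lop_aut, (hmemV v).1 hv, map_zero,
        map_zero]) hfrob (by
      intro c'
      show (Φ ^ d : E ≃+* E) (σ₁ (algebraMap k E c')) = _
      rw [aut_const, frob_pow_const hΦk]) (by
      intro σ
      obtain ⟨τ, hτ⟩ := frob_pow_conj hconj d (σ₁ * σ * σ₁⁻¹)
      refine ⟨τ, fun z => ?_⟩
      show τ ((Φ ^ d : E ≃+* E) (σ₁ z)) = (Φ ^ d : E ≃+* E) (σ₁ (σ z))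
      rw [hτ]
      congr 1
      rw [AlgEquiv.mul_apply, AlgEquiv.mul_apply, ← AlgEquiv.mul_apply σ₁⁻¹ σ₁, inv_mul_cancel,
        AlgEquiv.one_apply]) g' (by
      intro v hv
      rw [red_eq_val, ← map_pow]
      congr 1
      exact hfix _ (hsum v hv)) j₁ hj
  -- the subspace W
  let W : Submodule F1 V :=
    { carrier := {v | P.red (v : E) = 0}
      zero_mem' := P.red_zero
      add_mem' := by
        intro x y hx hy
        show P.red ((x : E) + y) = 0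
        rw [P.red_add (hreg _ x.2) (hreg _ y.2), show P.red (x : E) = 0 from hx,
          show P.red (y : E) = 0 from hy, add_zero]
      smul_mem' := by
        intro b x hx
        show P.red (b • (x : E)) = 0
        rw [Algebra.smul_def, IsScalarTower.algebraMap_apply F1 k E,
          P.red_mul (P.reg_const _) (hreg _ x.2), show P.red (x : E) = 0 from hx, mul_zero] }
  have hWmem : ∀ v : V, v ∈ W ↔ P.red (v : E) = 0 := fun v => Iff.rfl
  have hWc : Nat.card W = (p ^ e) ^ a := by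
    rw [← hWcard]
    refine Nat.card_congr ⟨fun x => ⟨x.1.1, x.1.2, x.2⟩, fun x => ⟨⟨x.1, x.2.1⟩, x.2.2⟩, ?_, ?_⟩
    · intro x; rfl
    · intro x; rfl
  have hWbot : W ≠ ⊥ := by
    intro h
    rw [h] at hWc
    have : Nat.card (⊥ : Submodule F1 V) = 1 := by simp
    omega
  have hWtop : W ≠ ⊤ := by
    intro h
    rw [h] at hWc
    have h1 : Nat.card (⊤ : Submodule F1 V) = Nat.card V := Nat.card_congr Submodule.topEquiv.toEquiv
    rw [h1, hVcard] at hWc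
    have : (p ^ e) ^ a < (p ^ e) ^ m := Nat.pow_lt_pow_right (by omega) ham
    omega
  haveI : FiniteDimensional F1 V := Module.Finite.of_finite
  have hdet := hN k E F1 P ((p ^ e) ^ a) (a / g) V hb0 hb hVfin' hreg hWcard
    (fun w hw w' hw' h1 h2 h3 h4 => ⟨hordeq w hw w' hw' h1 h2 h3 h4, hunit w hw w' hw' h1 h2 h3 h4⟩)
    (Gam V hst) (by
      intro w₀ hw₀ hw0 hwr u hu huA
      obtain ⟨σ, hσ1, hσ2⟩ := hC2 w₀ hw₀ hw0 hwr u hu huA
      exact ⟨rho V hst σ, ⟨σ, fun v => rfl⟩, fun v => hσ1 v v.2, fun w hw => hσ2 w w.2 hw⟩)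
  have htop := hD F1 V (Gam V hst) W hWbot hWtop htrans (by
    intro w hw f hf
    obtain ⟨σ, hσ⟩ := hC1 w w.2 hw f (fun w' hw' => hf w' hw')
    exact ⟨rho V hst σ, ⟨σ, fun v => rfl⟩, fun v => Subtype.ext (hσ v)⟩) hdet
  have : γ ∈ Gam V hst := by rw [htop]; trivial
  exact this

end

end Pool.Agent.W493.MX.St
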