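import Pool.Agent.W493.MX.M2

/-! Project MX: the inductive step, preparations. -/

set_option autoImplicit false
set_option linter.all false
set_option linter.overlappingInstances false

open Module FF Pool.Agent.H525R3.FFp Pool.Agent.W132.AG Polynomial

namespace Pool.Agent.W493.MX.St

/-- exponents -/
theorem exists_exp {a g g' d : ℕ} (ha : 0 < a) (hd0 : 0 < d) (hg'0 : 0 < g') (hd : Nat.Coprime d a)
    (hg : Nat.gcd g' a = g) : ∃ j t : ℕ, d * g' * j = g + a * t := by
  have h1 : Nat.gcd (d * g') a = g := by rw [Nat.Coprime.gcd_mul_left_cancel g' hd, hg]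
  have hD : 0 < d * g' := Nat.mul_pos hd0 hg'0
  generalize hDD : d * g' = D at *
  have h2 := Nat.gcd_eq_gcd_ab D a
  rw [h1] at h2
  generalize Nat.gcdA D a = x at *
  generalize Nat.gcdB D a = y at *
  have ha' : (1 : ℤ) ≤ a := by exact_mod_cast ha
  have hD' : (1 : ℤ) ≤ D := by exact_mod_cast hD
  obtain ⟨s, hs⟩ : ∃ s : ℕ, (s : ℤ) = |x| + |y| := ⟨x.natAbs + y.natAbs, by push_cast; rfl⟩
  have hx := neg_abs_le x
  have hy := le_abs_self y
  have hx0 := abs_nonneg x
  have hy0 := abs_nonneg y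
  have hs1 : 0 ≤ x + a * s := by nlinarith
  have hs2 : 0 ≤ D * s - y := by nlinarith
  refine ⟨(x + a * s).toNat, ((D : ℤ) * s - y).toNat, ?_⟩
  have h4 : ((x + a * s).toNat : ℤ) = x + a * s := Int.toNat_of_nonneg hs1
  have h5 : (((D : ℤ) * s - y).toNat : ℤ) = D * s - y := Int.toNat_of_nonneg hs2
  have h6 : ((D * (x + a * s).toNat : ℕ) : ℤ) = ((g + a * ((D : ℤ) * s - y).toNat : ℕ) : ℤ) := by
    rw [Nat.cast_mul, Nat.cast_add, Nat.cast_mul, h4, h5, h2]
    ring
  exact_mod_cast h6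

section
variable {k : Type} [Field k] {p : ℕ} [Fact p.Prime] [CharP k p]

/-- evaluation of polynomials with coefficients in the small field -/
theorem eval_frob {e : ℕ} {f : k[X]} (hf : ∀ i, f.coeff i ^ p ^ e = f.coeff i) (x : k) (n : ℕ) :
    (f.eval x) ^ (p ^ e) ^ n = f.eval (x ^ (p ^ e) ^ n) := by
  have h1 : ∀ y : k, (f.eval y) ^ p ^ e = f.eval (y ^ p ^ e) := by
    intro y
    have h2 := rat_iff.1 hf
    conv_rhs => rw [← h2]
    rw [eval_map, ← iterateFrobenius_def, ← iterateFrobenius_def, eval, hom_eval₂]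
    rfl
  induction n with
  | zero => simp
  | succ n ih => rw [pow_succ, pow_mul, ih, h1, ← pow_mul, ← pow_succ]

theorem pow_fix_iter {x : k} {q a : ℕ} (h : x ^ q ^ a = x) (t : ℕ) : x ^ q ^ (a * t) = x := by
  induction t with
  | zero => simp
  | succ t ih => rw [Nat.mul_succ, pow_add, pow_mul, ih, h]

end

/-- the combinatorics of the exponent sets -/
theorem T_facts {T' : Finset ℕ} {a : ℕ} (h0 : 0 ∈ T') (hsup : 0 < T'.sup id) (ha : 0 < a) :
    (insert 0 (T'.image (a + ·))).sup id = a + T'.sup id ∧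
    0 < T'.gcd id ∧ 0 < (insert 0 (T'.image (a + ·))).gcd id ∧
    Nat.gcd (T'.gcd id) a = (insert 0 (T'.image (a + ·))).gcd id ∧
    (∀ j ∈ insert 0 (T'.image (a + ·)), (insert 0 (T'.image (a + ·))).gcd id ∣ j) ∧
    T'.sup id ∈ T' ∧ (∀ j ∈ T', j ≤ T'.sup id) ∧ (∀ j ∈ T', T'.gcd id ∣ j) := by
  classical
  have h1 : T'.sup id ∈ T' := by
    obtain ⟨j, hj, hj2⟩ := Finset.exists_mem_eq_sup T' ⟨0, h0⟩ id
    rw [hj2]; exact hj
  have h2 : ∀ j ∈ T', j ≤ T'.sup id := fun j hj => Finset.le_sup (f := id) hj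
  have h3 : ∀ j ∈ T', T'.gcd id ∣ j := fun j hj => Finset.gcd_dvd hj
  have h4 : ∀ j ∈ insert 0 (T'.image (a + ·)), (insert 0 (T'.image (a + ·))).gcd id ∣ j :=
    fun j hj => Finset.gcd_dvd hj
  have h5 : 0 < T'.gcd id := Nat.pos_of_ne_zero fun h => by
    have := h3 _ h1
    rw [h, zero_dvd_iff] at this
    omega
  have haT : a ∈ insert 0 (T'.image (a + ·)) :=
    Finset.mem_insert_of_mem (Finset.mem_image.2 ⟨0, h0, by simp⟩)
  have h6 : 0 < (insert 0 (T'.image (a + ·))).gcd id := Nat.pos_of_ne_zero fun h => by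
    have := h4 _ haT
    rw [h, zero_dvd_iff] at this
    omega
  refine ⟨?_, h5, h6, ?_, h4, h1, h2, h3⟩
  · apply le_antisymm
    · apply Finset.sup_le
      intro j hj
      rcases Finset.mem_insert.1 hj with rfl | hj
      · simp
      · obtain ⟨i, hi, rfl⟩ := Finset.mem_image.1 hj
        have := h2 i hi
        simp only [id]
        omega
    · exact Finset.le_sup (f := id) (Finset.mem_insert_of_mem (Finset.mem_image.2 ⟨_, h1, rfl⟩))
  · apply Nat.dvd_antisymm
    · apply Finset.dvd_gcd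
      intro j hj
      rcases Finset.mem_insert.1 hj with rfl | hj
      · exact dvd_zero _
      · obtain ⟨i, hi, rfl⟩ := Finset.mem_image.1 hj
        exact dvd_add (Nat.gcd_dvd_right _ _) ((Nat.gcd_dvd_left _ _).trans (h3 i hi))
    · apply Nat.dvd_gcd
      · apply Finset.dvd_gcd
        intro j hj
        have h7 := h4 (a + j) (Finset.mem_insert_of_mem (Finset.mem_image.2 ⟨j, hj, rfl⟩))
        exact (Nat.dvd_add_right (h4 a haT)).1 h7
      · exact h4 a haT

end Pool.Agent.W493.MX.St
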