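import Pool.Agent.W493.MX.M3

/-! Project MX: specialisation. -/

set_option autoImplicit false
set_option linter.all false
set_option linter.overlappingInstances false

open Module FF Pool.Agent.H525R3.FFp Pool.Agent.W132.AG Polynomial

namespace Pool.Agent.W493.MX.St

section
variable {k E F1 : Type} [Field k] [Field E] [Field F1] [Finite F1] [Algebra k E]
  [Algebra (RatFunc k) E] [IsScalarTower k (RatFunc k) E] [Algebra F1 k]
  [Algebra F1 E] [IsScalarTower F1 k E] [IsScalarTower F1 (RatFunc k) E]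
  [IsAlgClosed k] [FiniteDimensional (RatFunc k) E] [IsGalois (RatFunc k) E] [IsFF k E]

theorem good_of_full (hB : S_B)
    {p e : ℕ} [Fact p.Prime] [CharP k p] (he : 0 < e) {T : Finset ℕ} {m g : ℕ}
    (h0 : 0 ∈ T) (hm : m ∈ T) (hTm : ∀ j ∈ T, j ≤ m) (hg0 : 0 < g) (hg : ∀ j ∈ T, g ∣ j)
    (hF1 : Nat.card F1 = (p ^ e) ^ g) (hF1k : ∀ x : k, x ^ (p ^ e) ^ g = x → ∃ b : F1, algebraMap F1 k b = x)
    {c : ℕ → k[X]} (hcm : c m = 1) (hc0 : c 0 ≠ 0)
    (hcq : ∀ j ∈ T, ∀ i, (c j).coeff i ^ p ^ e = (c j).coeff i)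
    {Φ : E ≃+* E} (hΦk : ∀ c : k, Φ (algebraMap k E c) = algebraMap k E (c ^ p ^ e))
    (hΦc : ∀ j ∈ T, Φ (cE E (c j)) = cE E (c j)) (hΦX : Φ (cE E (X : k[X])) = cE E (X : k[X]))
    (hcard : Nat.card {v : E // Lop (p ^ e) T c v = 0} = (p ^ e) ^ m)
    (hfaith : ∀ σ : E ≃ₐ[RatFunc k] E, (∀ v : E, Lop (p ^ e) T c v = 0 → σ v = v) → σ = 1)
    (V : Submodule F1 E) (hmemV : ∀ v : E, v ∈ V ↔ Lop (p ^ e) T c v = 0)
    (hfull : ∀ γ : V ≃ₗ[F1] V, ∃ σ : E ≃ₐ[RatFunc k] E, ∀ v : V, σ (v : E) = γ v) :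
    ∃ N : ℕ, ∀ n : ℕ, N ≤ n → ∃ (c : ℕ → k) (v : Fin (m / g) → k),
    (∀ j ∈ T, c j ^ (p ^ e) ^ n = c j) ∧ c 0 ≠ 0 ∧ c m = 1 ∧
    (∀ i, v i ^ (p ^ e) ^ n = v i) ∧ (∀ i, ∑ j ∈ T, c j * v i ^ (p ^ e) ^ j = 0) ∧
    ∀ b : Fin (m / g) → k, (∀ i, b i ^ (p ^ e) ^ g = b i) →
      ∑ i, b i * v i = 0 → ∀ i, b i = 0 := by
  classical
  have hp : p.Prime := Fact.out
  have hq : 2 ≤ p ^ e := hp.two_le.trans (Nat.le_self_pow he.ne' p)
  haveI : CharP E p := charE' k E p
  have hVcard : Nat.card V = (p ^ e) ^ m := by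
    rw [← hcard]
    exact Nat.card_congr (Equiv.subtypeEquivRight hmemV)
  have hVfin : Finite V := by
    apply Nat.finite_of_card_ne_zero
    rw [hVcard]; positivity
  haveI : FiniteDimensional F1 V := Module.Finite.of_finite
  have hrank : finrank F1 V = m / g := by
    haveI : Fintype F1 := Fintype.ofFinite _
    haveI : Fintype V := Fintype.ofFinite _
    have h1 := Module.card_eq_pow_finrank (K := F1) (V := V)
    rw [← Nat.card_eq_fintype_card, ← Nat.card_eq_fintype_card, hVcard, hF1,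
      ← pow_mul (p ^ e) g] at h1
    have h2 : m = g * finrank F1 V := Nat.pow_right_injective hq h1
    rw [h2, Nat.mul_div_cancel_left _ hg0]
  have hgood : ∀ (P : Place k E) (s : k), (c 0).eval s ≠ 0 → 0 < P.ord (cE E (X - C s : k[X])) →
      ∀ v ∈ V, P.Reg v ∧ (P.red v = 0 → v = 0) := by
    intro P s hs hP v hv
    exact ⟨root_reg hq hm hTm hcm P hP ((hmemV v).1 hv),
      root_inj hq h0 hm hTm hcm P hP hs ((hmemV v).1 hv)⟩
  obtain ⟨N, hN⟩ := hB k E p e he Φ hΦk hΦX (c 0).roots.toFinset (by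
    intro P s hs hP σ hσ
    rw [Multiset.mem_toFinset, mem_roots hc0, IsRoot.def] at hs
    apply hfaith
    intro v hv
    have h1 := hgood P s hs hP v ((hmemV v).2 hv)
    have h2 : σ v ∈ V := by rw [hmemV, Lop_aut, hv, map_zero]
    have h3 := hgood P s hs hP _ (V.sub_mem h2 ((hmemV v).2 hv))
    rw [← sub_eq_zero]
    apply h3.2
    have h4 := Stb.red hσ h1.1
    rw [P.red_sub h4.1 h1.1, h4.2, sub_self])
  refine ⟨N, fun n hn => ?_⟩
  let b : Basis (Fin (m / g)) F1 V := finBasisOfFinrankEq F1 V hrank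
  -- the inverse of the power of Frobenius on V
  let Ψ : E ≃+* E := Φ ^ n
  have hΨk : ∀ x : k, Ψ (algebraMap k E x) = algebraMap k E (x ^ (p ^ e) ^ n) := frob_pow_const hΦk n
  have hΨL : ∀ x : E, Lop (p ^ e) T c (Ψ x) = Ψ (Lop (p ^ e) T c x) :=
    Lop_frob fun j hj => frob_pow_fix (hΦc j hj) n
  have hΨV : ∀ v ∈ V, Ψ.symm v ∈ V := by
    intro v hv
    rw [hmemV]
    apply Ψ.injective
    rw [← hΨL, Ψ.apply_symm_apply, (hmemV v).1 hv, map_zero]
  let b' : Fin (m / g) → V := fun i => ⟨Ψ.symm (b i : E), hΨV _ (b i).2⟩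
  have hb'li : LinearIndependent F1 b' := by
    rw [Fintype.linearIndependent_iff]
    intro l hl
    have h1 : ∑ i, (l i ^ (p ^ e) ^ n) • b i = 0 := by
      apply Subtype.ext
      have h2 := congrArg (fun z : V => Ψ (z : E)) hl
      simp only [Submodule.coe_sum, Submodule.coe_smul, map_sum, Submodule.coe_zero, map_zero] at h2 ⊢
      rw [← h2]
      refine Finset.sum_congr rfl fun i _ => ?_
      rw [Algebra.smul_def, Algebra.smul_def, map_mul, IsScalarTower.algebraMap_apply F1 k E,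
        IsScalarTower.algebraMap_apply F1 k E, hΨk, map_pow]
      congr 1
      exact (Ψ.apply_symm_apply _).symm
    have h3 := (Fintype.linearIndependent_iff.1 b.linearIndependent) _ h1
    intro i
    exact pow_eq_zero_iff (pow_pos (pow_pos hp.pos e) n).ne' |>.1 (h3 i)
  let bb : Basis (Fin (m / g)) F1 V := basisOfLinearIndependentOfCardEqFinrank' b' hb'li (by
    rw [hrank, Fintype.card_fin])
  obtain ⟨σ, hσ⟩ := hfull (b.equiv bb (Equiv.refl _))
  have hσb : ∀ i, σ (b i : E) = Ψ.symm (b i : E) := by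
    intro i
    rw [hσ, Basis.equiv_apply]
    show ((bb i : V) : E) = _
    rw [show bb i = b' i from by simp [bb]]
  obtain ⟨P, s, hs, hsn, hP, hfrob⟩ := hN n hn σ
  rw [Multiset.mem_toFinset, mem_roots hc0, IsRoot.def] at hs
  have hreg : ∀ v ∈ V, P.Reg v := fun v hv => (hgood P s hs hP v hv).1
  refine ⟨fun j => (c j).eval s, fun i => val P (b i : E), ?_, hs, ?_, ?_, ?_, ?_⟩
  · intro j hj
    show ((c j).eval s) ^ (p ^ e) ^ n = (c j).eval s
    rw [eval_frob (hcq j hj), hsn]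
  · show (c m).eval s = 1
    rw [hcm, eval_one]
  · intro i
    have h1 := (hfrob (b i : E) (hreg _ (b i).2)).2
    have h2 : ((Φ ^ n : E ≃+* E) * σ.toRingEquiv) (b i : E) = (b i : E) := by
      show Ψ (σ (b i : E)) = _
      rw [hσb, Ψ.apply_symm_apply]
    rw [h2] at h1
    symm
    apply val_eq
    rw [h1, red_eq_val, map_pow]
  · intro i
    have h1 : val P (Lop (p ^ e) T c (b i : E)) = 0 := by
      rw [(hmemV _).1 (b i).2, val_zero]
    rw [← h1]
    unfold Lop
    rw [val_sum _ _ fun j _ => P.reg_mul (reg_cE P hP _) (reg_pow' P (hreg _ (b i).2) _)]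
    refine Finset.sum_congr rfl fun j _ => ?_
    rw [val_mul (reg_cE P hP _) (reg_pow' P (hreg _ (b i).2) _), val_pow (hreg _ (b i).2),
      val_eq (red_cE P hP (c j))]
  · intro β hβ hsum i
    choose β' hβ' using fun i => hF1k (β i) (hβ i)
    have h1 : ∑ i, β' i • b i = 0 := by
      apply Subtype.ext
      rw [Submodule.coe_zero]
      apply (hgood P s hs hP _ (∑ i, β' i • b i).2).2
      rw [← val_eq_zero, Submodule.coe_sum, val_sum _ _ fun i _ => hreg _ (β' i • b i).2, ← hsum]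
      refine Finset.sum_congr rfl fun i _ => ?_
      rw [Submodule.coe_smul, Algebra.smul_def, IsScalarTower.algebraMap_apply F1 k E,
        val_mul (P.reg_const _) (hreg _ (b i).2), val_const, hβ']
    have h2 := (Fintype.linearIndependent_iff.1 b.linearIndependent) _ h1 i
    rw [← hβ' i, h2, map_zero]

end

end Pool.Agent.W493.MX.St
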