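import Pool.Agent.W493.MX.M4

/-! Project MX: the inductive step. -/

set_option autoImplicit false
set_option linter.all false
set_option linter.overlappingInstances false

open Module FF Pool.Agent.H525R3.FFp Pool.Agent.W132.AG Polynomial

namespace Pool.Agent.W493.MX.St

theorem s_S (hG1 : S_G1) (hG3 : S_G3) (hB : S_B) (hC : S_C) (hN : S_N) (hD : S_D) (hE : S_E)
    (hI : S_I) : S_S := by
  intro k _ _ p e _ _ he T' a h0' hsup ha hGood
  classical
  have hp : p.Prime := Fact.out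
  have hq : 2 ≤ p ^ e := hp.two_le.trans (Nat.le_self_pow he.ne' p)
  obtain ⟨hTsup, hg'0, hg0, hgcd, hgdvd, hm'T', hT'le, hg'dvd⟩ := T_facts h0' hsup ha
  have hTerase : (insert 0 (T'.image (a + ·))).erase 0 = T'.image (a + ·) := by
    apply Finset.erase_insert
    intro h
    obtain ⟨j, -, hj⟩ := Finset.mem_image.1 h
    omega
  have hmem : ∀ j ∈ insert 0 (T'.image (a + ·)), j ≠ 0 → ∃ i ∈ T', j = a + i := by
    intro j hj hj0
    rcases Finset.mem_insert.1 hj with h | hj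
    · exact absurd h hj0
    · obtain ⟨i, hi, rfl⟩ := Finset.mem_image.1 hj
      exact ⟨i, hi, rfl⟩
  have hmem' : ∀ i ∈ T', a + i ∈ insert 0 (T'.image (a + ·)) := fun i hi =>
    Finset.mem_insert_of_mem (Finset.mem_image.2 ⟨i, hi, rfl⟩)
  generalize hTdef : insert 0 (T'.image (a + ·)) = T at *
  have h0T : 0 ∈ T := by rw [← hTdef]; exact Finset.mem_insert_self _ _
  have haT : a ∈ T := by simpa using hmem' 0 h0'
  have hmT : T.sup id ∈ T := by rw [hTsup]; exact hmem' _ hm'T'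
  have hTle : ∀ j ∈ T, j ≤ T.sup id := fun j hj => Finset.le_sup (f := id) hj
  have ham : a < T.sup id := by rw [hTsup]; omega
  have hm0 : 0 < T.sup id := ha.trans ham
  have hTa : ∀ j ∈ T, j ≠ 0 → a ≤ j := by
    intro j hj hj0
    obtain ⟨i, -, rfl⟩ := hmem j hj hj0
    omega
  obtain ⟨N', hN'⟩ := hGood
  -- the auxiliary degree
  obtain ⟨d, hd0, hdN, hcop⟩ : ∃ d : ℕ, 0 < d ∧ N' ≤ d ∧ Nat.Coprime d a := by
    refine ⟨N' * a + 1, by omega, ?_, ?_⟩
    · have : N' ≤ N' * a := Nat.le_mul_of_pos_right N' ha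
      omega
    · rw [Nat.coprime_comm]
      have : Nat.Coprime a (1 + N' * a) := by simp
      rw [add_comm] at this
      exact this
  obtain ⟨c', v', hc'q, hc'0, hc'm, hv'q, hv'r, hv'li⟩ := hN' d hdN
  obtain ⟨j₁, t, hj₁⟩ := exists_exp ha hd0 hg'0 hcop hgcd
  let γ : ℕ → k := fun j => (c' (j - a)) ^ (p ^ e) ^ a
  have hγa : ∀ i, γ (a + i) = (c' i) ^ (p ^ e) ^ a := by
    intro i
    show (c' (a + i - a)) ^ (p ^ e) ^ a = _
    rw [Nat.add_sub_cancel_left]
  have hγ : ∀ j ∈ T, j ≠ 0 → γ j ^ (p ^ e) ^ d = γ j := by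
    intro j hj hj0
    obtain ⟨i, hi, rfl⟩ := hmem j hj hj0
    rw [hγa, ← pow_mul, mul_comm, pow_mul, hc'q i hi]
  have hγm : γ (T.sup id) = 1 := by rw [hTsup, hγa, hc'm, one_pow]
  obtain ⟨s₀, c, hsd, hcq, hcm, hz, hz2, hs, hs2, hev⟩ := exists_family hI he T hmT hm0 hd0 γ hγ hγm
  have hc0 : c 0 ≠ 0 := by
    obtain ⟨g, hg, hg0⟩ := hz
    rw [hg]
    apply mul_ne_zero (X_sub_C_ne_zero 0)
    rintro rfl
    simp at hg0
  obtain ⟨E, _, _, _, _, _, _, _, Φ, hΦk, hΦf, hconj, hcard, hfaith⟩ := hE k p e he T c h0T hm0 hcq hc0 hcm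
  obtain ⟨F1, _, _, i, hF1, hi⟩ := exists_F1 k p (N := e * T.gcd id) (Nat.mul_pos he hg0)
  rw [pow_mul] at hF1 hi
  letI : Algebra F1 k := i.toAlgebra
  letI : Algebra F1 E := ((algebraMap k E).comp i).toAlgebra
  haveI : IsScalarTower F1 k E := IsScalarTower.of_algebraMap_eq fun _ => rfl
  haveI : IsScalarTower F1 (RatFunc k) E := IsScalarTower.of_algebraMap_eq fun b => by
    rw [IsScalarTower.algebraMap_apply F1 k (RatFunc k), ← IsScalarTower.algebraMap_apply k (RatFunc k) E]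
    rfl
  have hΦX : Φ (cE E (X : k[X])) = cE E (X : k[X]) := hΦf X (by
    intro i
    rw [coeff_X]
    split_ifs
    · exact one_pow _
    · exact zero_pow (pow_pos hp.pos e).ne')
  -- the degenerate fibre
  have hfib : ∀ ξ : k, ∑ j ∈ T.erase 0, (c j).eval s₀ * ξ ^ (p ^ e) ^ j =
      (∑ j ∈ T', c' j * ξ ^ (p ^ e) ^ j) ^ (p ^ e) ^ a := by
    intro ξ
    rw [hTerase, Finset.sum_image (by intro x _ y _ h; simpa using h), ← pow_mul, sum_pow_char_pow]
    refine Finset.sum_congr rfl fun j hj => ?_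
    rw [hev _ (hmem' j hj) (by omega), hγa, mul_pow, pow_mul, ← pow_mul ξ, ← pow_add, add_comm]
  have hfib0 : ∀ ξ : k, ∑ j ∈ T.erase 0, (c j).eval s₀ * ξ ^ (p ^ e) ^ j = 0 →
      ∑ j ∈ T', c' j * ξ ^ (p ^ e) ^ j = 0 := by
    intro ξ h
    rw [hfib] at h
    exact (pow_eq_zero_iff (pow_pos (pow_pos hp.pos e) a).ne').1 h
  have hfull := full_group (E := E) (F1 := F1) hG1 hG3 hC hN hD he h0T hmT hTle haT ha ham hTa hg0
    hgdvd hF1 hcm hz hz2 hs (by
      intro j hj hj0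
      rw [hev j hj hj0]
      exact hs2 j hj hj0) (by
      rw [hev a haT ha.ne']
      have : γ a = (c' 0) ^ (p ^ e) ^ a := by simpa using hγa 0
      rw [this]
      exact pow_ne_zero _ hc'0) hsd (by
      intro S hS
      have h1 : T.sup id - a = T'.sup id := by omega
      rw [h1]
      exact card_roots_le hq T' (T'.sup id) hm'T' hT'le c' hc'm S fun ξ hξ => hfib0 ξ (hS ξ hξ))
    (g' := T'.gcd id) (by
      intro ξ hξ
      exact roots_fixed he hm'T' hT'le hg'0 hg'dvd hc'm hv'q hv'r hv'li (hfib0 ξ hξ))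
    (j₁ := j₁) (by
      intro x hx
      rw [← pow_mul, ← pow_mul, ← mul_assoc, hj₁, hF1, add_comm, pow_add, pow_mul, pow_fix_iter hx])
    hΦk (fun j hj => hΦf _ (hcq j hj)) hΦX hconj hcard (RS E F1 p e hF1 hgdvd c) (fun v => Iff.rfl)
  exact good_of_full hB he h0T hmT hTle hg0 hgdvd hF1 (fun x hx => (hi x).1 hx) hcm hc0 hcq hΦk
    (fun j hj => hΦf _ (hcq j hj)) hΦX hcard hfaith (RS E F1 p e hF1 hgdvd c) (fun v => Iff.rfl) hfull

end Pool.Agent.W493.MX.St
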